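import Pool.Agent.Lib.MP_82b75a_lc.Code

/-!
# The ambient ultrapower
-/

namespace Pool.Agent.Lib.MP_82b75a_lc

open Classical Filter

/-- the index ultrafilter -/
noncomputable abbrev UU : Ultrafilter ℕ := hyperfilter ℕ

/-- the ultrapower of the natural numbers -/
abbrev NN : Type := Germ (UU : Filter ℕ) ℕ

/-- canonical extension of a function -/
noncomputable def app (f : ℕ → ℕ) (a : NN) : NN := Germ.map f a

/-- pairing -/
noncomputable def pr (a b : NN) : NN := Germ.map₂ Nat.pair a b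

/-- truth of a standard relation -/
def T (P : ℕ → Prop) (a : NN) : Prop := Germ.LiftPred P a

theorem app_coe (f a : ℕ → ℕ) : app f (a : NN) = ((fun i => f (a i) : ℕ → ℕ) : NN) := rfl

theorem pr_coe (a b : ℕ → ℕ) :
    pr (a : NN) (b : NN) = ((fun i => Nat.pair (a i) (b i) : ℕ → ℕ) : NN) := rfl

theorem T_coe (P : ℕ → Prop) (a : ℕ → ℕ) : T P (a : NN) ↔ ∀ᶠ i in (UU : Filter ℕ), P (a i) :=
  Iff.rfl

theorem ex_rep (a : NN) : ∃ f : ℕ → ℕ, (f : NN) = a :=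
  Germ.inductionOn a fun f => ⟨f, rfl⟩

theorem coe_eq_coe {f g : ℕ → ℕ} : (f : NN) = (g : NN) ↔ ∀ᶠ i in (UU : Filter ℕ), f i = g i :=
  Germ.coe_eq

theorem T_app (P : ℕ → Prop) (f : ℕ → ℕ) (a : NN) : T P (app f a) ↔ T (fun n => P (f n)) a := by
  obtain ⟨a, rfl⟩ := ex_rep a
  rfl

theorem T_iff {P Q : ℕ → Prop} (h : ∀ n, P n ↔ Q n) (a : NN) : T P a ↔ T Q a := by
  have : P = Q := funext fun n => propext (h n)
  rw [this]

theorem T_mono {P Q : ℕ → Prop} (h : ∀ n, P n → Q n) {a : NN} (ha : T P a) : T Q a := by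
  obtain ⟨a, rfl⟩ := ex_rep a
  exact Eventually.mono ha fun i hi => h _ hi

theorem T_and (P Q : ℕ → Prop) (a : NN) : T (fun n => P n ∧ Q n) a ↔ T P a ∧ T Q a := by
  obtain ⟨a, rfl⟩ := ex_rep a
  exact eventually_and

theorem T_or (P Q : ℕ → Prop) (a : NN) : T (fun n => P n ∨ Q n) a ↔ T P a ∨ T Q a := by
  obtain ⟨a, rfl⟩ := ex_rep a
  exact Ultrafilter.eventually_or

theorem T_not (P : ℕ → Prop) (a : NN) : T (fun n => ¬ P n) a ↔ ¬ T P a := by
  obtain ⟨a, rfl⟩ := ex_rep a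
  exact Ultrafilter.eventually_not

theorem T_imp (P Q : ℕ → Prop) (a : NN) : T (fun n => P n → Q n) a ↔ (T P a → T Q a) := by
  obtain ⟨a, rfl⟩ := ex_rep a
  exact Ultrafilter.eventually_imp

theorem T_true {P : ℕ → Prop} (h : ∀ n, P n) (a : NN) : T P a := by
  obtain ⟨a, rfl⟩ := ex_rep a
  exact Eventually.of_forall fun i => h _

theorem T_ex (P : ℕ → ℕ → Prop) (a : NN) :
    T (fun n => ∃ y, P n y) a ↔ ∃ y : NN, T (fun n => P n.unpair.1 n.unpair.2) (pr a y) := by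
  obtain ⟨a, rfl⟩ := ex_rep a
  constructor
  · intro h
    have h' : ∀ᶠ i in (UU : Filter ℕ), ∃ y, P (a i) y := h
    refine ⟨((fun i => if h : ∃ y, P (a i) y then h.choose else 0 : ℕ → ℕ) : NN), ?_⟩
    rw [pr_coe, T_coe]
    refine h'.mono fun i hi => ?_
    simp only [Nat.unpair_pair]
    rw [dif_pos hi]
    exact hi.choose_spec
  · rintro ⟨y, hy⟩
    obtain ⟨y, rfl⟩ := ex_rep y
    rw [pr_coe, T_coe] at hy
    rw [T_coe]
    refine hy.mono fun i hi => ?_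
    simp only [Nat.unpair_pair] at hi
    exact ⟨_, hi⟩

theorem T_all (P : ℕ → ℕ → Prop) (a : NN) :
    T (fun n => ∀ y, P n y) a ↔ ∀ y : NN, T (fun n => P n.unpair.1 n.unpair.2) (pr a y) := by
  have h := T_ex (fun n y => ¬ P n y) a
  have h2 : T (fun n => ∀ y, P n y) a ↔ T (fun n => ¬ ∃ y, ¬ P n y) a :=
    T_iff (fun n => by simp) a
  rw [h2, T_not, h]
  constructor
  · intro h3 y
    by_contra h4
    exact h3 ⟨y, (T_not (fun n => P n.unpair.1 n.unpair.2) _).2 h4⟩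
  · rintro h3 ⟨y, hy⟩
    exact ((T_not (fun n => P n.unpair.1 n.unpair.2) _).1 hy) (h3 y)

theorem lt_iff_T (a b : NN) : a < b ↔ T (fun n => n.unpair.1 < n.unpair.2) (pr a b) := by
  obtain ⟨a, rfl⟩ := ex_rep a
  obtain ⟨b, rfl⟩ := ex_rep b
  rw [pr_coe, T_coe, Germ.coe_lt]
  simp only [Nat.unpair_pair]

theorem le_iff_T (a b : NN) : a ≤ b ↔ T (fun n => n.unpair.1 ≤ n.unpair.2) (pr a b) := by
  obtain ⟨a, rfl⟩ := ex_rep a
  obtain ⟨b, rfl⟩ := ex_rep b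
  rw [pr_coe, T_coe, Germ.coe_le]
  simp only [Nat.unpair_pair]
  rfl

theorem eq_iff_T (a b : NN) : a = b ↔ T (fun n => n.unpair.1 = n.unpair.2) (pr a b) := by
  obtain ⟨a, rfl⟩ := ex_rep a
  obtain ⟨b, rfl⟩ := ex_rep b
  rw [pr_coe, T_coe, coe_eq_coe]
  simp only [Nat.unpair_pair]

/-- first component -/
noncomputable def fs (a : NN) : NN := app (fun n => n.unpair.1) a
/-- second component -/
noncomputable def sn (a : NN) : NN := app (fun n => n.unpair.2) a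

@[simp] theorem fs_pr (a b : NN) : fs (pr a b) = a := by
  obtain ⟨a, rfl⟩ := ex_rep a
  obtain ⟨b, rfl⟩ := ex_rep b
  rw [fs, pr_coe, app_coe]
  simp only [Nat.unpair_pair]

@[simp] theorem sn_pr (a b : NN) : sn (pr a b) = b := by
  obtain ⟨a, rfl⟩ := ex_rep a
  obtain ⟨b, rfl⟩ := ex_rep b
  rw [sn, pr_coe, app_coe]
  simp only [Nat.unpair_pair]

@[simp] theorem pr_eta (a : NN) : pr (fs a) (sn a) = a := by
  obtain ⟨a, rfl⟩ := ex_rep a
  rw [fs, sn, app_coe, app_coe, pr_coe]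
  simp only [Nat.pair_unpair]

theorem app_id (a : NN) : app (fun n => n) a = a := by
  obtain ⟨a, rfl⟩ := ex_rep a
  rfl

theorem app_comp (f g : ℕ → ℕ) (a : NN) : app (fun n => f (g n)) a = app f (app g a) := by
  obtain ⟨a, rfl⟩ := ex_rep a
  rfl

theorem app_pair (f g : ℕ → ℕ) (a : NN) :
    app (fun n => Nat.pair (f n) (g n)) a = pr (app f a) (app g a) := by
  obtain ⟨a, rfl⟩ := ex_rep a
  rfl

theorem add_eq (a b : NN) : a + b = app (fun n => n.unpair.1 + n.unpair.2) (pr a b) := by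
  obtain ⟨a, rfl⟩ := ex_rep a
  obtain ⟨b, rfl⟩ := ex_rep b
  rw [pr_coe, app_coe]
  simp only [Nat.unpair_pair]
  rfl

theorem mul_eq (a b : NN) : a * b = app (fun n => n.unpair.1 * n.unpair.2) (pr a b) := by
  obtain ⟨a, rfl⟩ := ex_rep a
  obtain ⟨b, rfl⟩ := ex_rep b
  rw [pr_coe, app_coe]
  simp only [Nat.unpair_pair]
  rfl

/-- the nonstandard number -/
noncomputable def bb : NN := ((fun i => i : ℕ → ℕ) : NN)

/-- the base model -/
def M0 : Set NN := {x | ∃ f, Ar f ∧ x = app f bb}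

/-- the ambient initial segment -/
def HH : Set NN := {x | ∃ y ∈ M0, x ≤ y}

theorem M0_sub_HH : M0 ⊆ HH := fun x hx => ⟨x, hx, le_rfl⟩

theorem HH_down {x y : NN} (hy : y ∈ HH) (h : x ≤ y) : x ∈ HH := by
  obtain ⟨z, hz, h2⟩ := hy
  exact ⟨z, hz, h.trans h2⟩

theorem M0_app {f : ℕ → ℕ} (hf : Ar f) {x : NN} (hx : x ∈ M0) : app f x ∈ M0 := by
  obtain ⟨g, hg, rfl⟩ := hx
  exact ⟨_, hf.comp hg, (app_comp f g bb).symm⟩

theorem M0_pr {x y : NN} (hx : x ∈ M0) (hy : y ∈ M0) : pr x y ∈ M0 := by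
  obtain ⟨f, hf, rfl⟩ := hx
  obtain ⟨g, hg, rfl⟩ := hy
  exact ⟨_, hf.pair hg, (app_pair f g bb).symm⟩

/-- a majorant in the class -/
theorem exists_majorant {f : ℕ → ℕ} (hf : Ar f) :
    ∃ g, Ar g ∧ Monotone g ∧ ∀ n m, m ≤ n → f m ≤ g n := by
  have hP : Df (fun n => ∀ m < n.unpair.1 + 1, f m ≤ n.unpair.2) := by
    apply Df.ball (f := fun n => n.unpair.1 + 1) (P := fun n m => f m ≤ n.unpair.2)
      (Ar.fst'.add (Ar.const 1))
    exact Df.le (hf.comp Ar.snd') (Ar.snd'.comp Ar.fst')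
  obtain ⟨g, hg, h⟩ := Ar.mu (P := fun n y => ∀ m < n + 1, f m ≤ y) hP
  have hex : ∀ n, ∃ y, ∀ m < n + 1, f m ≤ y := by
    intro n
    refine ⟨(Finset.range (n + 1)).sup f, fun m hm => ?_⟩
    exact Finset.le_sup (f := f) (Finset.mem_range.2 hm)
  refine ⟨g, hg, ?_, ?_⟩
  · intro a b hab
    apply (h a (hex a)).2
    intro m hm
    exact (h b (hex b)).1 m (by omega)
  · intro n m hm
    exact (h n (hex n)).1 m (by omega)

theorem app_le_app {f g : ℕ → ℕ} {a b : NN} (hab : a ≤ b)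
    (h : ∀ n m, m ≤ n → f m ≤ g n) : app f a ≤ app g b := by
  obtain ⟨a, rfl⟩ := ex_rep a
  obtain ⟨b, rfl⟩ := ex_rep b
  rw [app_coe, app_coe, Germ.coe_le]
  rw [Germ.coe_le] at hab
  exact hab.mono fun i hi => h _ _ hi

theorem HH_app {f : ℕ → ℕ} (hf : Ar f) {x : NN} (hx : x ∈ HH) : app f x ∈ HH := by
  obtain ⟨y, hy, h⟩ := hx
  obtain ⟨g, hg, -, hg2⟩ := exists_majorant hf
  exact ⟨app g y, M0_app hg hy, app_le_app h hg2⟩

theorem nat_pair_le {a b c d : ℕ} (h1 : a ≤ c) (h2 : b ≤ d) : Nat.pair a b ≤ Nat.pair c d := by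
  have h3 : Nat.pair a b ≤ Nat.pair c b := by
    rcases h1.lt_or_eq with h | h
    · exact (Nat.pair_lt_pair_left b h).le
    · rw [h]
  have h4 : Nat.pair c b ≤ Nat.pair c d := by
    rcases h2.lt_or_eq with h | h
    · exact (Nat.pair_lt_pair_right c h).le
    · rw [h]
  exact h3.trans h4

theorem pr_le_pr {a b c d : NN} (h1 : a ≤ c) (h2 : b ≤ d) : pr a b ≤ pr c d := by
  obtain ⟨a, rfl⟩ := ex_rep a
  obtain ⟨b, rfl⟩ := ex_rep b
  obtain ⟨c, rfl⟩ := ex_rep c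
  obtain ⟨d, rfl⟩ := ex_rep d
  rw [pr_coe, pr_coe, Germ.coe_le]
  rw [Germ.coe_le] at h1 h2
  filter_upwards [h1, h2] with i hi hj
  exact nat_pair_le hi hj

theorem HH_pr {x y : NN} (hx : x ∈ HH) (hy : y ∈ HH) : pr x y ∈ HH := by
  obtain ⟨a, ha, h1⟩ := hx
  obtain ⟨b, hb, h2⟩ := hy
  exact ⟨pr a b, M0_pr ha hb, pr_le_pr h1 h2⟩

theorem fs_le (a : NN) : fs a ≤ a := by
  obtain ⟨a, rfl⟩ := ex_rep a
  rw [fs, app_coe, Germ.coe_le]
  exact Eventually.of_forall fun i => Nat.unpair_left_le _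

theorem sn_le (a : NN) : sn a ≤ a := by
  obtain ⟨a, rfl⟩ := ex_rep a
  rw [sn, app_coe, Germ.coe_le]
  exact Eventually.of_forall fun i => Nat.unpair_right_le _

theorem HH_fs {x : NN} (hx : x ∈ HH) : fs x ∈ HH := HH_down hx (fs_le x)
theorem HH_sn {x : NN} (hx : x ∈ HH) : sn x ∈ HH := HH_down hx (sn_le x)

theorem bb_mem : bb ∈ M0 := ⟨_, Ar.id, by rw [app_id]⟩

theorem M0_countable : M0.Countable := by
  have : M0 ⊆ Set.range (fun c : Cd => app c.ev bb) := by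
    rintro x ⟨f, ⟨c, rfl⟩, rfl⟩
    exact ⟨c, rfl⟩
  exact (Set.countable_range _).mono this

end Pool.Agent.Lib.MP_82b75a_lc
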