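import Pool.Agent.Lib.MP_82b75a_lc.Model

/-!
# CADS in the final structure
-/

namespace Pool.Agent.Lib.MP_82b75a_lc

open Classical Filter

section

variable {M : Set NN} {r : NN → NN} {τ : ℕ → ℕ}

theorem LinM.swap (hG : Good M r τ) {X : NN → Prop} {L : NN → NN → Prop} (h : LinM M r X L) :
    LinM M r X (fun x y => L y x) where
  dX := h.dX
  dL := by
    have := h.dL.sub hG (Fn.pr hG (Fn.id hG).sn (Fn.id hG).fs)
    simpa only [fs_pr, sn_pr] using this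
  unb := h.unb
  anti := fun x hx y hy h1 h2 h3 h4 => h.anti x hx y hy h1 h2 h4 h3
  trans := fun x hx y hy z hz h1 h2 h3 h4 h5 => h.trans z hz y hy x hx h3 h2 h1 h5 h4
  total := fun x hx y hy h1 h2 => (h.total x hx y hy h1 h2).symm

/-- nonempty finite sets have least elements -/
theorem LinM.fin_min (hG : Good M r τ) {X : NN → Prop} {L : NN → NN → Prop} (h : LinM M r X L)
    {B : NN → Prop} (hB : Dl M r B) (hBX : ∀ y ∈ HH, B y → X y) {t : NN} (ht : t ∈ M)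
    (hne : ∃ y < t, B y) : ∃ m ∈ M, m < t ∧ B m ∧ ∀ y < t, B y → L m y := by
  have hid := Fn.id hG
  have hE : Dl M r (fun a => B (sn a) ∧ ∀ y < fs a, B y → L (sn a) y) := by
    refine (hB.sub hG hid.sn).and hG ?_
    refine Dl.ball (A := fun a y => B y → L (sn a) y) hG ?_ hid.fs
    refine (hB.sub hG hid.sn).imp hG ?_
    have := h.dL.sub hG (Fn.pr hG hid.fs.sn hid.sn)
    simpa only [fs_pr, sn_pr] using this
  have hA : Dl M r (fun t => (∀ y < t, ¬ B y) ∨ ∃ m < t, B m ∧ ∀ y < t, B y → L m y) :=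
    (Dl.ball (A := fun _ y => ¬ B y) hG (hB.not.sub hG hid.sn) hid).or hG
      (Dl.bex (A := fun t m => B m ∧ ∀ y < t, B y → L m y) hG hE hid)
  have key : ∀ t ∈ M, (∀ y < t, ¬ B y) ∨ ∃ m < t, B m ∧ ∀ y < t, B y → L m y := by
    refine hG.induct hA.pos (Or.inl fun y hy => absurd hy (not_lt.2 (zero_le_NN y))) ?_
    intro t ht ih
    have htH := hG.sub ht
    by_cases hBt : B t
    · have hLt : L t t := by
        rcases h.totalH hG t htH t htH (hBX t htH hBt) (hBX t htH hBt) with h1 | h1 <;> exact h1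
      right
      rcases ih with ih | ⟨m, hm, h1, h2⟩
      · refine ⟨t, (lt_add_one_iff_NN _ _).2 le_rfl, hBt, fun y hy hBy => ?_⟩
        rcases lt_or_eq_of_le ((lt_add_one_iff_NN _ _).1 hy) with h3 | h3
        · exact absurd hBy (ih y h3)
        · rw [h3]; exact hLt
      · have hmH := HH_down htH hm.le
        rcases h.totalH hG m hmH t htH (hBX m hmH h1) (hBX t htH hBt) with h3 | h3
        · refine ⟨m, hm.trans ((lt_add_one_iff_NN _ _).2 le_rfl), h1, fun y hy hBy => ?_⟩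
          rcases lt_or_eq_of_le ((lt_add_one_iff_NN _ _).1 hy) with h4 | h4
          · exact h2 y h4 hBy
          · rw [h4]; exact h3
        · refine ⟨t, (lt_add_one_iff_NN _ _).2 le_rfl, hBt, fun y hy hBy => ?_⟩
          rcases lt_or_eq_of_le ((lt_add_one_iff_NN _ _).1 hy) with h4 | h4
          · have hyH := HH_down htH h4.le
            exact h.transH hG t htH m hmH y hyH (hBX t htH hBt) (hBX m hmH h1) (hBX y hyH hBy)
              h3 (h2 y h4 hBy)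
          · rw [h4]; exact hLt
    · rcases ih with ih | ⟨m, hm, h1, h2⟩
      · left
        intro y hy
        rcases lt_or_eq_of_le ((lt_add_one_iff_NN _ _).1 hy) with h3 | h3
        · exact ih y h3
        · rw [h3]; exact hBt
      · right
        refine ⟨m, hm.trans ((lt_add_one_iff_NN _ _).2 le_rfl), h1, fun y hy hBy => ?_⟩
        rcases lt_or_eq_of_le ((lt_add_one_iff_NN _ _).1 hy) with h4 | h4
        · exact h2 y h4 hBy
        · rw [h4] at hBy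
          exact absurd hBy hBt
  rcases key t ht with h1 | ⟨m, hm, h1, h2⟩
  · obtain ⟨y, hy, hBy⟩ := hne
    exact absurd hBy (h1 y hy)
  · have hS : Dl M r (fun m => m < t ∧ B m ∧ ∀ y < t, B y → L m y) := by
      refine (Dl.lt hG hid (Fn.const ht)).and hG (hB.and hG ?_)
      refine Dl.ball (A := fun m y => B y → L m y) hG ?_ (Fn.const ht)
      exact (hB.sub hG hid.sn).imp hG h.dL
    obtain ⟨m', hm', h3, h4, h5⟩ := hS.pos.elem hG ⟨m, HH_down (hG.sub ht) hm.le, hm, h1, h2⟩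
    exact ⟨m', hm', h3, h4, h5⟩

/-- immediate successors -/
theorem LinM.succ (hG : Good M r τ) {X : NN → Prop} {L : NN → NN → Prop} (h : LinM M r X L)
    {G : NN → Prop} (hGd : Dl M r G) (hGX : ∀ y ∈ HH, G y → X y) {x y : NN} (hx : x ∈ M)
    (hy : y ∈ M) (_hGx : G x) (hGy : G y) (hL : L x y) (hxy : x ≠ y) {t : NN} (ht : t ∈ M)
    (hb : ∀ z ∈ M, G z → L x z → L z y → z < t) :
    ∃ s ∈ M, G s ∧ L x s ∧ x ≠ s ∧ ∀ z ∈ M, G z → ¬ ((L x z ∧ x ≠ z) ∧ (L z s ∧ z ≠ s)) := by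
  have hid := Fn.id hG
  have hxH := hG.sub hx
  have hyH := hG.sub hy
  have h1 : Dl M r (fun z => L x z) := by
    have := h.dL.sub hG (Fn.pr hG (Fn.const hx) hid)
    simpa only [fs_pr, sn_pr] using this
  have h2 : Dl M r (fun z => L z y) := by
    have := h.dL.sub hG (Fn.pr hG hid (Fn.const hy))
    simpa only [fs_pr, sn_pr] using this
  have hB : Dl M r (fun z => G z ∧ (L x z ∧ ¬ x = z) ∧ L z y) :=
    hGd.and hG ((h1.and hG (Dl.eq hG (Fn.const hx) hid).not).and hG h2)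
  have hLy : L y y := by
    rcases h.total y hy y hy (hGX y hyH hGy) (hGX y hyH hGy) with h1 | h1 <;> exact h1
  obtain ⟨s, hs, h3, ⟨h4, ⟨h5, h6⟩, h7⟩, h8⟩ := h.fin_min hG hB (fun z hz h => hGX z hz h.1) ht
    ⟨y, hb y hy hGy hL hLy, hGy, ⟨hL, hxy⟩, hLy⟩
  refine ⟨s, hs, h4, h5, h6, ?_⟩
  rintro z hz hGz ⟨⟨h9, h10⟩, ⟨h11, h12⟩⟩
  have hzy : L z y := h.trans z hz s hs y hy (hGX z (hG.sub hz) hGz) (hGX s (hG.sub hs) h4)
    (hGX y hyH hGy) h11 h7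
  have h13 := h8 z (hb z hz hGz h9 hzy) ⟨hGz, ⟨h9, h10⟩, hzy⟩
  exact h12 (h.anti z hz s hs (hGX z (hG.sub hz) hGz) (hGX s (hG.sub hs) h4) h11 h13)

end

variable {M : Set NN} {r : ℕ → NN → NN} {τ : ℕ → ℕ → ℕ}

/-- bounded on the left -/
def PF (M : Set NN) (Z : NN → Prop) (L : NN → NN → Prop) (x : NN) : Prop :=
  ∃ m ∈ M, ∀ y ∈ M, m ≤ y → Z y → ¬ L y x

theorem lt_succ_self_NN (a : NN) : a < a + 1 := (lt_add_one_iff_NN _ _).2 le_rfl

/-- a suitable suborder is stable -/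
theorem finish (hG : ∀ n, Good M (r n) (τ n)) {n : ℕ} {X : NN → Prop} {L : NN → NN → Prop}
    (h : LinM M (r n) X L) {Z G : NN → Prop} (hZX : ∀ y ∈ HH, Z y → X y) (hGd : Dl M (r n) G)
    (hGZ : ∀ y ∈ HH, G y → Z y) (hU : Unb M G)
    (hst : ∀ x ∈ M, Z x → PF M Z L x ∨ PF M Z (fun x y => L y x) x)
    (hup : ∀ x ∈ M, G x → (∃ y ∈ M, G y ∧ L x y ∧ x ≠ y) →
      ∃ y ∈ M, G y ∧ L x y ∧ x ≠ y ∧ (PF M Z (fun x y => L y x) x ∨ PF M Z L y))
    (hdn : ∀ x ∈ M, G x → (∃ y ∈ M, G y ∧ L y x ∧ x ≠ y) →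
      ∃ y ∈ M, G y ∧ L y x ∧ x ≠ y ∧ (PF M Z (fun x y => L y x) y ∨ PF M Z L x))
    {E : Set M} (hE : ∀ x y : M, pc (str hG) x y ∈ E ↔ L x.1 y.1) :
    Stable (str hG) {x : M | G x.1} E := by
  have hGn := hG n
  have hGX : ∀ y ∈ HH, G y → X y := fun y hy h => hZX y hy (hGZ y hy h)
  -- bounded intervals
  have hint : ∀ x y : NN, (PF M Z (fun x y => L y x) x ∨ PF M Z L y) →
      ∃ t ∈ M, ∀ z ∈ M, G z → L x z → L z y → z < t := by
    rintro x y (⟨m, hm, h1⟩ | ⟨m, hm, h1⟩)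
    · refine ⟨m, hm, fun z hz hGz h2 h3 => ?_⟩
      by_contra h4
      exact h1 z hz (not_lt.1 h4) (hGZ z (hGn.sub hz) hGz) h2
    · refine ⟨m, hm, fun z hz hGz h2 h3 => ?_⟩
      by_contra h4
      exact h1 z hz (not_lt.1 h4) (hGZ z (hGn.sub hz) hGz) h3
  have hLt : ∀ x y : M, Lt' (str hG) E x y ↔ L x.1 y.1 ∧ x.1 ≠ y.1 := by
    intro x y
    unfold Lt'
    rw [hE x y]
    exact and_congr Iff.rfl (not_congr Subtype.ext_iff)
  have hinf : ¬ Fin' (str hG) {x : M | G x.1} := by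
    rintro ⟨⟨m, hm⟩, h1⟩
    obtain ⟨y, hy, h2, h3⟩ := ((Dl.le hGn (Fn.const hm) (Fn.id hGn)).pos.and hGn hGd.pos).elem
      hGn (by
        obtain ⟨y, hy, h2, h3⟩ := hU m hm
        exact ⟨y, hy, h2, h3⟩)
    exact absurd (h1 ⟨y, hy⟩ h3) (not_lt.2 h2)
  refine ⟨hinf, ⟨?_, ?_⟩, ?_, ?_⟩
  · rintro x hx ⟨y, hy, hyx⟩
    rw [hLt] at hyx
    obtain ⟨y', hy', h1, h2, h3, h4⟩ := hdn x.1 x.2 hx ⟨y.1, y.2, hy, hyx.1, fun h => hyx.2 h.symm⟩
    obtain ⟨t, ht, h5⟩ := hint _ _ h4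
    obtain ⟨s, hs, h6, h7, h8, h9⟩ := (h.swap hGn).succ hGn hGd hGX x.2 hy' hx h1 h2 h3 ht
      (fun z hz hGz h10 h11 => h5 z hz hGz h11 h10)
    refine ⟨⟨s, hs⟩, h6, (hLt _ _).2 ⟨h7, fun h => h8 h.symm⟩, ?_⟩
    rintro z hz ⟨h10, h11⟩
    rw [hLt] at h10 h11
    exact h9 z.1 z.2 hz ⟨⟨h11.1, fun h => h11.2 h.symm⟩, ⟨h10.1, fun h => h10.2 h.symm⟩⟩
  · rintro x hx ⟨y, hy, hyx⟩
    rw [hLt] at hyx
    obtain ⟨y', hy', h1, h2, h3, h4⟩ := hup x.1 x.2 hx ⟨y.1, y.2, hy, hyx.1, hyx.2⟩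
    obtain ⟨t, ht, h5⟩ := hint _ _ h4
    obtain ⟨s, hs, h6, h7, h8, h9⟩ := h.succ hGn hGd hGX x.2 hy' hx h1 h2 h3 ht h5
    refine ⟨⟨s, hs⟩, h6, (hLt _ _).2 ⟨h7, h8⟩, ?_⟩
    rintro z hz ⟨h10, h11⟩
    rw [hLt] at h10 h11
    exact h9 z.1 z.2 hz ⟨h10, h11⟩
  · have hid := Fn.id hGn
    obtain ⟨y0, hy0, h1⟩ := hGd.pos.elem hGn (by
      obtain ⟨y, hy, -, h2⟩ := hU bb hGn.bbM
      exact ⟨y, hy, h2⟩)
    have h2 : y0 + 1 ∈ M := hGn.add_mem hy0 (hGn.sup one_mem_M0)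
    obtain ⟨y1, hy1, h3, h4⟩ := ((Dl.le hGn (Fn.const h2) hid).pos.and hGn hGd.pos).elem hGn (by
      obtain ⟨y, hy, h2, h3⟩ := hU _ h2
      exact ⟨y, hy, h2, h3⟩)
    refine ⟨⟨y0, hy0⟩, h1, ⟨y1, hy1⟩, h4, fun h5 => ?_⟩
    have h6 : y0 = y1 := congrArg Subtype.val h5
    rw [← h6] at h3
    exact absurd h3 (not_le.2 (lt_succ_self_NN y0))
  · intro x hx
    -- not both sides are finite
    have hnb : ¬ (Fin' (str hG) (Pred' (str hG) {x : M | G x.1} E x) ∧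
        Fin' (str hG) (Succ' (str hG) {x : M | G x.1} E x)) := by
      rintro ⟨⟨m1, h1⟩, ⟨m2, h2⟩⟩
      apply hinf
      have h1M : (1 : NN) ∈ M := hGn.sup one_mem_M0
      have hx1 : x.1 + 1 ∈ M := hGn.add_mem x.2 h1M
      refine ⟨⟨max (max m1.1 m2.1) (x.1 + 1), max_memM (max_memM m1.2 m2.2) hx1⟩, ?_⟩
      intro y hy
      show y.1 < max (max m1.1 m2.1) (x.1 + 1)
      by_cases hxy : x.1 = y.1
      · rw [← hxy]
        exact (lt_succ_self_NN x.1).trans_le (le_max_right _ _)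
      · rcases h.total x.1 x.2 y.1 y.2 (hGX _ (hGn.sub x.2) hx) (hGX _ (hGn.sub y.2) hy)
          with h3 | h3
        · have h4 : y.1 < m2.1 := h2 y ⟨hy, (hLt x y).2 ⟨h3, hxy⟩⟩
          exact h4.trans_le ((le_max_right _ _).trans (le_max_left _ _))
        · have h4 : y.1 < m1.1 := h1 y ⟨hy, (hLt y x).2 ⟨h3, fun h5 => hxy h5.symm⟩⟩
          exact h4.trans_le ((le_max_left _ _).trans (le_max_left _ _))
    rcases hst x.1 x.2 (hGZ _ (hGn.sub x.2) hx) with ⟨m, hm, h1⟩ | ⟨m, hm, h1⟩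
    · have hp : Fin' (str hG) (Pred' (str hG) {x : M | G x.1} E x) := by
        refine ⟨⟨m, hm⟩, ?_⟩
        rintro y ⟨hy, h2⟩
        rw [hLt] at h2
        by_contra h3
        exact h1 y.1 y.2 (not_lt.1 h3) (hGZ _ (hGn.sub y.2) hy) h2.1
      exact Or.inl ⟨hp, fun hs => hnb ⟨hp, hs⟩⟩
    · have hs : Fin' (str hG) (Succ' (str hG) {x : M | G x.1} E x) := by
        refine ⟨⟨m, hm⟩, ?_⟩
        rintro y ⟨hy, h2⟩
        rw [hLt] at h2
        by_contra h3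
        exact h1 y.1 y.2 (not_lt.1 h3) (hGZ _ (hGn.sub y.2) hy) h2.1
      exact Or.inr ⟨fun hp => hnb ⟨hp, hs⟩, hs⟩

theorem unb_of_not_fin (hG : ∀ n, Good M (r n) (τ n)) {D : Set M} {X : NN → Prop}
    (hX : ∀ x : M, x ∈ D ↔ X x.1) (h : ¬ Fin' (str hG) D) : Unb M X := by
  intro s hs
  by_contra h1
  apply h
  refine ⟨⟨s, hs⟩, fun x hx => ?_⟩
  by_contra h2
  exact h1 ⟨x.1, (hG 0).sub x.2, not_lt.1 h2, (hX x).1 hx⟩

theorem cads_str (hG : ∀ n, Good M (r n) (τ n)) (hred : ∀ m n, m ≤ n → Red (r m) (r n))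
    (hC : ∀ n X L, LinM M (r n) X L → ∃ Z n', Dl M (r n') Z ∧ (∀ y ∈ HH, Z y → X y) ∧ Unb M Z ∧
      ∀ x ∈ M, X x → ∃ m ∈ M, (∀ y ∈ HH, m ≤ y → Z y → ¬ L y x) ∨
        (∀ y ∈ HH, m ≤ y → Z y → ¬ L x y)) : CADS (str hG) := by
  rintro D ⟨n1, X, hX, hDX⟩ E ⟨n2, Y, hY, hEY⟩ hlin hinf
  set n := max n1 n2 with hn
  have hX' : Dl M (r n) X := hX.up Set.Subset.rfl (hred _ _ (le_max_left _ _))
  have hY' : Dl M (r n) Y := hY.up Set.Subset.rfl (hred _ _ (le_max_right _ _))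
  set L : NN → NN → Prop := fun x y => Y ((x + y) * (x + y) + x) with hL
  have hE : ∀ x y : M, pc (str hG) x y ∈ E ↔ L x.1 y.1 := fun x y => hEY _
  have hdL : ∀ k, n ≤ k → Dl M (r k) (fun a => L (fs a) (sn a)) := by
    intro k hk
    have hid := Fn.id (hG k)
    have h1 := Fn.add (hG k) hid.fs hid.sn
    exact (hY'.up Set.Subset.rfl (hred _ _ hk)).sub (hG k)
      (Fn.add (hG k) (Fn.mul (hG k) h1 h1) hid.fs)
  have hlinM : ∀ k, n ≤ k → LinM M (r k) X L := fun k hk =>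
    { dX := hX'.up Set.Subset.rfl (hred _ _ hk)
      dL := hdL k hk
      unb := unb_of_not_fin hG hDX hinf
      anti := fun x hx y hy h1 h2 h3 h4 => congrArg Subtype.val (hlin.antisymm ⟨x, hx⟩
        ((hDX ⟨x, hx⟩).2 h1) ⟨y, hy⟩ ((hDX ⟨y, hy⟩).2 h2) ((hE ⟨x, hx⟩ ⟨y, hy⟩).2 h3)
        ((hE ⟨y, hy⟩ ⟨x, hx⟩).2 h4))
      trans := fun x hx y hy z hz h1 h2 h3 h4 h5 => (hE ⟨x, hx⟩ ⟨z, hz⟩).1 (hlin.trans ⟨x, hx⟩
        ((hDX ⟨x, hx⟩).2 h1) ⟨y, hy⟩ ((hDX ⟨y, hy⟩).2 h2) ⟨z, hz⟩ ((hDX ⟨z, hz⟩).2 h3)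
        ((hE ⟨x, hx⟩ ⟨y, hy⟩).2 h4) ((hE ⟨y, hy⟩ ⟨z, hz⟩).2 h5))
      total := fun x hx y hy h1 h2 => by
        rw [← hE ⟨x, hx⟩ ⟨y, hy⟩, ← hE ⟨y, hy⟩ ⟨x, hx⟩]
        exact hlin.total ⟨x, hx⟩ ((hDX ⟨x, hx⟩).2 h1) ⟨y, hy⟩ ((hDX ⟨y, hy⟩).2 h2) }
  obtain ⟨Z, n', hZ, hZX, hZU, hZst⟩ := hC n X L (hlinM n le_rfl)
  set k := max n n' with hk
  have hlk := hlinM k (le_max_left _ _)
  have hZk : Dl M (r k) Z := hZ.up Set.Subset.rfl (hred _ _ (le_max_right _ _))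
  have hGk := hG k
  have hid := Fn.id hGk
  -- helper facts
  have hUel : ∀ s ∈ M, ∃ y ∈ M, s ≤ y ∧ Z y := by
    intro s hs
    obtain ⟨y, hy, h1, h2⟩ := ((Dl.le hGk (Fn.const hs) hid).pos.and hGk hZk.pos).elem hGk (by
      obtain ⟨y, hy, h2, h3⟩ := hZU s hs
      exact ⟨y, hy, h2, h3⟩)
    exact ⟨y, hy, h1, h2⟩
  have hX1 : ∀ y ∈ M, Z y → X y := fun y hy h => hZX y (hGk.sub hy) h
  have hst : ∀ x ∈ M, Z x → PF M Z L x ∨ PF M Z (fun x y => L y x) x := by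
    intro x hx hZx
    obtain ⟨m, hm, h1⟩ := hZst x hx (hX1 x hx hZx)
    rcases h1 with h1 | h1
    · exact Or.inl ⟨m, hm, fun y hy => h1 y (hGk.sub hy)⟩
    · exact Or.inr ⟨m, hm, fun y hy => h1 y (hGk.sub hy)⟩
  have hnot : ∀ x ∈ M, Z x → PF M Z L x → PF M Z (fun x y => L y x) x → False := by
    rintro x hx hZx ⟨m, hm, h1⟩ ⟨m', hm', h2⟩
    obtain ⟨y, hy, h3, h4⟩ := hUel _ (max_memM hm hm')
    rcases hlk.total x hx y hy (hX1 x hx hZx) (hX1 y hy h4) with h5 | h5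
    · exact h2 y hy ((le_max_right _ _).trans h3) h4 h5
    · exact h1 y hy ((le_max_left _ _).trans h3) h4 h5
  have hLl : ∀ p ∈ M, Dl M (r k) (fun z => L z p) := by
    intro p hp
    have := hlk.dL.sub hGk (Fn.pr hGk hid (Fn.const hp))
    simpa only [fs_pr, sn_pr] using this
  have hLr : ∀ p ∈ M, Dl M (r k) (fun z => L p z) := by
    intro p hp
    have := hlk.dL.sub hGk (Fn.pr hGk (Fn.const hp) hid)
    simpa only [fs_pr, sn_pr] using this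
  have hmemD : ∀ G : NN → Prop, Dl M (r k) G → (∀ y ∈ HH, G y → Z y) → 
      Stable (str hG) {x : M | G x.1} E → ∃ D' ∈ (str hG).Sets, D' ⊆ D ∧ Stable (str hG) D' E := by
    intro G hGd hGZ hS
    exact ⟨{x : M | G x.1}, ⟨k, G, hGd, fun x => Iff.rfl⟩, fun x hx => (hDX x).2
      (hX1 x.1 x.2 (hGZ _ (hGk.sub x.2) hx)), hS⟩
  by_cases c1 : ∃ p ∈ M, Z p ∧ PF M Z L p ∧ ∀ z ∈ M, Z z → PF M Z L z → L z p
  · obtain ⟨p, hp, hZp, ⟨m, hm, hpf⟩, hmax⟩ := c1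
    have hGd : Dl M (r k) (fun z => Z z ∧ ¬ L z p) := hZk.and hGk (hLl p hp).not
    refine hmemD _ hGd (fun y _ h => h.1) ?_
    have hsf : ∀ x ∈ M, Z x ∧ ¬ L x p → PF M Z (fun x y => L y x) x := by
      rintro x hx ⟨h1, h2⟩
      exact (hst x hx h1).resolve_left fun h3 => h2 (hmax x hx h1 h3)
    refine finish hG hlk hZX hGd (fun y _ h => h.1) ?_ hst ?_ ?_ hE
    · intro s hs
      obtain ⟨y, hy, h1, h2⟩ := hUel _ (max_memM hs hm)
      exact ⟨y, hGk.sub hy, (le_max_left _ _).trans h1, h2, hpf y hy ((le_max_right _ _).trans h1)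
        h2⟩
    · rintro x hx hGx ⟨y, hy, h1, h2, h3⟩
      exact ⟨y, hy, h1, h2, h3, Or.inl (hsf x hx hGx)⟩
    · rintro x hx hGx ⟨y, hy, h1, h2, h3⟩
      exact ⟨y, hy, h1, h2, h3, Or.inl (hsf y hy h1)⟩
  by_cases c2 : ∃ q ∈ M, Z q ∧ PF M Z (fun x y => L y x) q ∧
      ∀ z ∈ M, Z z → PF M Z (fun x y => L y x) z → L q z
  · obtain ⟨q, hq, hZq, ⟨m, hm, hpf⟩, hmax⟩ := c2
    have hGd : Dl M (r k) (fun z => Z z ∧ ¬ L q z) := hZk.and hGk (hLr q hq).not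
    refine hmemD _ hGd (fun y _ h => h.1) ?_
    have hsf : ∀ x ∈ M, Z x ∧ ¬ L q x → PF M Z L x := by
      rintro x hx ⟨h1, h2⟩
      exact (hst x hx h1).resolve_right fun h3 => h2 (hmax x hx h1 h3)
    refine finish hG hlk hZX hGd (fun y _ h => h.1) ?_ hst ?_ ?_ hE
    · intro s hs
      obtain ⟨y, hy, h1, h2⟩ := hUel _ (max_memM hs hm)
      exact ⟨y, hGk.sub hy, (le_max_left _ _).trans h1, h2, hpf y hy ((le_max_right _ _).trans h1)
        h2⟩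
    · rintro x hx hGx ⟨y, hy, h1, h2, h3⟩
      exact ⟨y, hy, h1, h2, h3, Or.inr (hsf y hy h1)⟩
    · rintro x hx hGx ⟨y, hy, h1, h2, h3⟩
      exact ⟨y, hy, h1, h2, h3, Or.inr (hsf x hx hGx)⟩
  · refine hmemD Z hZk (fun y _ h => h) ?_
    push Not at c1 c2
    refine finish hG hlk hZX hZk (fun y _ h => h) hZU hst ?_ ?_ hE
    · rintro x hx hZx ⟨y, hy, h1, h2, h3⟩
      rcases hst x hx hZx with h4 | h4
      · obtain ⟨y', hy', h5, h6, h7⟩ := c1 x hx hZx h4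
        refine ⟨y', hy', h5, ?_, ?_, Or.inr h6⟩
        · exact (hlk.total x hx y' hy' (hX1 x hx hZx) (hX1 y' hy' h5)).resolve_right h7
        · rintro rfl
          rcases hlk.total x hx x hx (hX1 x hx hZx) (hX1 x hx hZx) with h8 | h8 <;> exact h7 h8
      · exact ⟨y, hy, h1, h2, h3, Or.inl h4⟩
    · rintro x hx hZx ⟨y, hy, h1, h2, h3⟩
      rcases hst x hx hZx with h4 | h4
      · exact ⟨y, hy, h1, h2, h3, Or.inr h4⟩
      · obtain ⟨y', hy', h5, h6, h7⟩ := c2 x hx hZx h4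
        refine ⟨y', hy', h5, ?_, ?_, Or.inl h6⟩
        · exact (hlk.total x hx y' hy' (hX1 x hx hZx) (hX1 y' hy' h5)).resolve_left h7
        · rintro rfl
          rcases hlk.total x hx x hx (hX1 x hx hZx) (hX1 x hx hZx) with h8 | h8 <;> exact h7 h8

end Pool.Agent.Lib.MP_82b75a_lc
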