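import Pool.Agent.Lib.MP_82b75a_lc.Step

/-!
# The chain of stages and the final model
-/

namespace Pool.Agent.Lib.MP_82b75a_lc

open Classical Filter

/-- bookkeeping -/
theorem chain {S K : Type*} (LE : S → S → Prop) (req : S → ℕ → K) (P : S → S → K → Prop)
    (next : ∀ s t, ∃ s', LE s s' ∧ P s s' t) (s0 : S) :
    ∃ seq : ℕ → S, (∀ n, LE (seq n) (seq (n + 1))) ∧
      ∀ m k, ∃ n, m ≤ n ∧ P (seq n) (seq (n + 1)) (req (seq m) k) := by
  choose nx h1 h2 using next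
  let st : ℕ → S × (ℕ → ℕ → K) := fun n => Nat.rec (s0, fun _ => req s0)
    (fun n a => (nx a.1 (a.2 n.unpair.1 n.unpair.2),
      Function.update a.2 (n + 1) (req (nx a.1 (a.2 n.unpair.1 n.unpair.2))))) n
  have hst : ∀ n, st (n + 1) = (nx (st n).1 ((st n).2 n.unpair.1 n.unpair.2),
      Function.update (st n).2 (n + 1) (req (nx (st n).1 ((st n).2 n.unpair.1 n.unpair.2)))) :=
    fun n => rfl
  have hh : ∀ n, ∀ m ≤ n, (st n).2 m = req (st m).1 := by
    intro n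
    induction n with
    | zero =>
      intro m hm
      obtain rfl : m = 0 := by omega
      rfl
    | succ n ih =>
      intro m hm
      rcases Nat.lt_or_ge n m with h | h
      · obtain rfl : m = n + 1 := by omega
        rw [hst n]
        simp
      · rw [hst n]
        show Function.update (st n).2 (n + 1) _ m = _
        rw [Function.update_of_ne (by omega)]
        exact ih m h
  refine ⟨fun n => (st n).1, fun n => h1 _ _, fun m k => ⟨Nat.pair m k, Nat.left_le_pair _ _, ?_⟩⟩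
  have h3 := h2 (st (Nat.pair m k)).1 ((st (Nat.pair m k)).2 (Nat.pair m k).unpair.1
    (Nat.pair m k).unpair.2)
  have h4 : (st (Nat.pair m k)).2 (Nat.pair m k).unpair.1 (Nat.pair m k).unpair.2 =
      req (st m).1 k := by
    rw [hh _ _ (by simp [Nat.left_le_pair])]
    simp
  rw [h4] at h3
  show P (st (Nat.pair m k)).1 (st (Nat.pair m k + 1)).1 _
  rw [hst]
  rw [h4]
  exact h3

/-- the Sigma-1 predicate with a given name -/
def sgp (r : NN → NN) (c : Cd) (p x : NN) : Prop :=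
  ∃ w ∈ HH, T (fun n => c.ev n = 0) (pr p (pr x (pr w (r w))))

/-- the task with a given name -/
def tsk (r : NN → NN) (a : (Cd × NN) × (Cd × NN)) : (NN → Prop) × (NN → NN → Prop) :=
  (sgp r a.1.1 a.1.2, fun x y => sgp r a.2.1 a.2.2 (pr x y))

theorem exists_enum (s : State) : ∃ e : ℕ → (NN → Prop) × (NN → NN → Prop),
    ∀ c, ∀ p ∈ s.M, ∀ c', ∀ p' ∈ s.M, ∃ k, e k = tsk s.r ((c, p), (c', p')) := by
  have : Countable s.M := s.cM.to_subtype
  have : Nonempty s.M := ⟨⟨bb, s.good.bbM⟩⟩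
  have : Nonempty Cd := ⟨.base default⟩
  obtain ⟨e, he⟩ := exists_surjective_nat ((Cd × s.M) × (Cd × s.M))
  refine ⟨fun k => tsk s.r (((e k).1.1, (e k).1.2), ((e k).2.1, (e k).2.2)), ?_⟩
  intro c p hp c' p' hp'
  obtain ⟨k, hk⟩ := he ((c, ⟨p, hp⟩), (c', ⟨p', hp'⟩))
  exact ⟨k, by simp only [hk]⟩

theorem Sg.name {M : Set NN} {r : NN → NN} {A : NN → Prop} (hA : Sg M r A) :
    ∃ c, ∃ p ∈ M, ∀ x ∈ HH, (A x ↔ sgp r c p x) := by
  obtain ⟨P, ⟨c, hc⟩, p, hp, h⟩ := hA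
  refine ⟨c, p, hp, fun x hx => (h x hx).trans ?_⟩
  have : P = fun n => c.ev n = 0 := funext fun n => propext (hc n)
  rw [this]
  rfl

theorem LinM.congr {M : Set NN} {r : NN → NN} {τ : ℕ → ℕ} (hG : Good M r τ)
    {X X' : NN → Prop} {L L' : NN → NN → Prop}
    (h : LinM M r X L) (hX : ∀ x ∈ HH, (X' x ↔ X x))
    (hL : ∀ x ∈ HH, ∀ y ∈ HH, (L' x y ↔ L x y)) : LinM M r X' L' where
  dX := h.dX.congr hX
  dL := h.dL.congr fun a ha => hL _ (HH_fs ha) _ (HH_sn ha)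
  unb := fun s hs => by
    obtain ⟨y, hy, h1, h2⟩ := h.unb s hs
    exact ⟨y, hy, h1, (hX y hy).2 h2⟩
  anti := fun x hx y hy h1 h2 h3 h4 => h.anti x hx y hy ((hX x (hG.sub hx)).1 h1)
    ((hX y (hG.sub hy)).1 h2) ((hL x (hG.sub hx) y (hG.sub hy)).1 h3)
    ((hL y (hG.sub hy) x (hG.sub hx)).1 h4)
  trans := fun x hx y hy z hz h1 h2 h3 h4 h5 => (hL x (hG.sub hx) z (hG.sub hz)).2
    (h.trans x hx y hy z hz ((hX x (hG.sub hx)).1 h1) ((hX y (hG.sub hy)).1 h2)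
      ((hX z (hG.sub hz)).1 h3) ((hL x (hG.sub hx) y (hG.sub hy)).1 h4)
      ((hL y (hG.sub hy) z (hG.sub hz)).1 h5))
  total := fun x hx y hy h1 h2 => by
    rw [hL x (hG.sub hx) y (hG.sub hy), hL y (hG.sub hy) x (hG.sub hx)]
    exact h.total x hx y hy ((hX x (hG.sub hx)).1 h1) ((hX y (hG.sub hy)).1 h2)

/-- the final model -/
theorem exists_model : ∃ (M : Set NN) (r : ℕ → NN → NN) (τ : ℕ → ℕ → ℕ),
    M.Countable ∧ (∀ n, Good M (r n) (τ n)) ∧ (∀ m n, m ≤ n → Red (r m) (r n)) ∧ Rdf (r 0) RR ∧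
    (∀ n X L, LinM M (r n) X L → ∃ Z n', Dl M (r n') Z ∧ (∀ y ∈ HH, Z y → X y) ∧ Unb M Z ∧
      ∀ x ∈ M, X x → ∃ m ∈ M, (∀ y ∈ HH, m ≤ y → Z y → ¬ L y x) ∨
        (∀ y ∈ HH, m ≤ y → Z y → ¬ L x y)) ∧
    (∀ n C, Dl M (r n) C → Unb M C → ∃ i ∈ M, ∀ s ∈ M, ∃ y ∈ M, ∃ y' ∈ M,
      s ≤ y ∧ s ≤ y' ∧ C y ∧ C y' ∧ BT (RR y) i ∧ ¬ BT (RR y') i) := by
  obtain ⟨s0⟩ := exists_state
  choose en hen using exists_enum
  obtain ⟨seq, hseq, htask⟩ := chain (S := State) (K := (NN → Prop) × (NN → NN → Prop))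
    State.LE en (fun s t K => (LinM s.M s.r K.1 K.2 → Served s t K.1 K.2) ∧ ∃ i ∈ t.M, i < kk ∧
      ∀ D, Df D → ∀ d ∈ s.M, Sm D d → ¬ T D (pr d i))
    (fun s t => s.step t.1 t.2) s0
  have hle : ∀ m n, m ≤ n → (seq m).LE (seq n) := by
    intro m n h
    induction n, h using Nat.le_induction with
    | base => exact State.LE.refl _
    | succ n _ ih => exact ih.trans (hseq n)
  set Mw : Set NN := ⋃ n, (seq n).M with hMw
  have hsub : ∀ n, (seq n).M ⊆ Mw := fun n => Set.subset_iUnion (fun n => (seq n).M) n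
  have hmem : ∀ x ∈ Mw, ∃ n, ∀ m, n ≤ m → x ∈ (seq m).M := by
    intro x hx
    obtain ⟨n, hn⟩ := Set.mem_iUnion.1 hx
    exact ⟨n, fun m hm => (hle n m hm).M hn⟩
  have hH : Mw ⊆ HH := by
    intro x hx
    obtain ⟨n, hn⟩ := hmem x hx
    exact (seq n).good.sub (hn n le_rfl)
  have happ : ∀ f, Ar f → ∀ a ∈ Mw, app f a ∈ Mw := by
    intro f hf a ha
    obtain ⟨n, hn⟩ := hmem a ha
    exact hsub n ((seq n).good.app_mem f hf a (hn n le_rfl))
  have hpr : ∀ a ∈ Mw, ∀ b ∈ Mw, pr a b ∈ Mw := by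
    intro a ha b hb
    obtain ⟨n, hn⟩ := hmem a ha
    obtain ⟨n', hn'⟩ := hmem b hb
    exact hsub (max n n') ((seq (max n n')).good.pr_mem a (hn _ (le_max_left _ _)) b
      (hn' _ (le_max_right _ _)))
  have hgood : ∀ n, Good Mw (seq n).r (seq n).τ := fun n =>
    (seq n).good.ext (hsub n) hH happ hpr
  have hsg : ∀ n A, Sg Mw (seq n).r A → ∃ m, ∀ k, m ≤ k → Sg (seq k).M (seq k).r A := by
    rintro n A ⟨P, hP, p, hp, h⟩
    obtain ⟨m, hm⟩ := hmem p hp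
    refine ⟨max n m, fun k hk => ?_⟩
    have h1 : Sg (seq k).M (seq n).r A := ⟨P, hP, p, hm k ((le_max_right _ _).trans hk), h⟩
    exact h1.up Set.Subset.rfl (hle n k ((le_max_left _ _).trans hk)).r
  have hdl : ∀ n A, Dl Mw (seq n).r A → ∃ m, ∀ k, m ≤ k → Dl (seq k).M (seq k).r A := by
    intro n A hA
    obtain ⟨m, hm⟩ := hsg n A hA.pos
    obtain ⟨m', hm'⟩ := hsg n _ hA.neg
    exact ⟨max m m', fun k hk => ⟨hm k ((le_max_left _ _).trans hk),
      hm' k ((le_max_right _ _).trans hk)⟩⟩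
  refine ⟨Mw, fun n => (seq n).r, fun n => (seq n).τ, Set.countable_iUnion fun n => (seq n).cM,
    hgood, fun m n h => (hle m n h).r, (seq 0).rdf, ?_, ?_⟩
  · intro n X L hXL
    obtain ⟨m1, h1⟩ := hdl n _ hXL.dX
    obtain ⟨m2, h2⟩ := hdl n _ hXL.dL
    set m := max m1 m2 with hm
    have hlin : LinM (seq m).M (seq m).r X L :=
      ⟨h1 m (le_max_left _ _), h2 m (le_max_right _ _), fun s hs => hXL.unb s (hsub m hs),
        fun x hx y hy => hXL.anti x (hsub m hx) y (hsub m hy),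
        fun x hx y hy z hz => hXL.trans x (hsub m hx) y (hsub m hy) z (hsub m hz),
        fun x hx y hy => hXL.total x (hsub m hx) y (hsub m hy)⟩
    obtain ⟨c, p, hp, h3⟩ := hlin.dX.pos.name
    obtain ⟨c', p', hp', h4⟩ := hlin.dL.pos.name
    obtain ⟨k, hk⟩ := hen (seq m) c p hp c' p' hp'
    obtain ⟨l, hml, h5, -⟩ := htask m k
    rw [hk] at h5
    set X' := (tsk (seq m).r ((c, p), (c', p'))).1 with hX'
    set L' := (tsk (seq m).r ((c, p), (c', p'))).2 with hL'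
    have hXX : ∀ x ∈ HH, (X' x ↔ X x) := fun x hx => (h3 x hx).symm
    have hLL : ∀ x ∈ HH, ∀ y ∈ HH, (L' x y ↔ L x y) := fun x hx y hy => by
      have := h4 (pr x y) (HH_pr hx hy)
      simp only [fs_pr, sn_pr] at this
      exact this.symm
    have hlinl : LinM (seq l).M (seq l).r X L :=
      ⟨h1 l ((le_max_left _ _).trans hml), h2 l ((le_max_right _ _).trans hml),
        fun s hs => hXL.unb s (hsub l hs),
        fun x hx y hy => hXL.anti x (hsub l hx) y (hsub l hy),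
        fun x hx y hy z hz => hXL.trans x (hsub l hx) y (hsub l hy) z (hsub l hz),
        fun x hx y hy => hXL.total x (hsub l hx) y (hsub l hy)⟩
    obtain ⟨Z, I, hZ, hgap, hI, hZX, hZu, hZI⟩ := h5 (hlinl.congr (seq l).good hXX hLL)
    refine ⟨Z, l + 1, hZ.up (hsub (l + 1)) (Red.refl _), fun y hy hyZ => (hXX y hy).1
      (hZX y hy hyZ), ?_, ?_⟩
    · intro s hs
      obtain ⟨s', hs', h6⟩ := (seq l).good.cof (hH hs)
      obtain ⟨y, hy, h7, h8⟩ := hZu s' hs'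
      exact ⟨y, hy, h6.le.trans h7, h8⟩
    · intro x hx hXx
      have hxH := hH hx
      obtain ⟨n1, hn1⟩ := hmem x hx
      set q := max n1 (l + 1) with hq
      have hgq : (⟨leX X' L', I⟩ : Gap) ∈ (seq q).Γ := (hle (l + 1) q (le_max_right _ _)).Γ hgap
      obtain ⟨j, hj⟩ := ((seq q).ok _ hgq).unf x (hn1 q (le_max_left _ _))
      obtain ⟨m', hm', h6⟩ := hZI j
      refine ⟨m', hsub l hm', ?_⟩
      by_contra hcon
      push Not at hcon
      obtain ⟨⟨y1, hy1, h7, h8, h9⟩, ⟨y2, hy2, h10, h11, h12⟩⟩ := hcon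
      apply hj
      refine (hI j).conv y1 hy1 x hxH y2 hy2 ?_ ?_ (h6 y1 hy1 h7 h8) (h6 y2 hy2 h10 h11)
      · exact Or.inr ⟨(hXX x hxH).2 hXx, (hLL y1 hy1 x hxH).2 h9⟩
      · exact Or.inr ⟨hZX y2 hy2 h11, (hLL x hxH y2 hy2).2 h12⟩
  · intro n C hC hU
    obtain ⟨m, hm⟩ := hdl n C hC
    -- a new index after stage `m`
    obtain ⟨l, hml, -, i, hi, hik, hiD⟩ := htask m 0
    have hiM := hsub (l + 1) hi
    refine ⟨i, hiM, fun s hs => ?_⟩
    obtain ⟨s', hs', h1⟩ := (seq l).good.cof (hH hs)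
    obtain ⟨y, hy, h2, h3, y', hy', h4, h5, h6, h7⟩ := kill (seq l).good (seq l).rdf
      (seq l).scat (hm l hml) (fun t ht => hU t (hsub l ht)) hik hiD hs'
    have hGw := hgood l
    have hid := Fn.id hGw
    have hCl : Dl Mw (seq l).r C := (hm l hml).up (hsub l) (Red.refl _)
    have hsw : Df (fun n => n.unpair.2.testBit n.unpair.1 = true) := by
      have := df_testBit.comp (Ar.snd'.pair Ar.fst')
      simpa only [Nat.unpair_pair] using this
    have hBT : ∀ {f g : NN → NN}, Fn Mw f → Fn Mw g →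
        Dl Mw (seq l).r (fun x => BT (RR (g x)) (f x)) := by
      intro f g hf hg
      refine (Dl.rdf hGw (seq l).rdf hsw hf hg).congr fun x _ => ?_
      generalize RR (g x) = u
      generalize f x = v
      obtain ⟨u, rfl⟩ := ex_rep u
      obtain ⟨v, rfl⟩ := ex_rep v
      simp only [BT_coe, pr_coe, T_coe, Nat.unpair_pair]
    have hS : Sg Mw (seq l).r (fun a => s ≤ fs a ∧ s ≤ sn a ∧ C (fs a) ∧ C (sn a) ∧
        BT (RR (fs a)) i ∧ ¬ BT (RR (sn a)) i) :=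
      (Dl.le hGw (Fn.const hs) hid.fs).pos.and hGw ((Dl.le hGw (Fn.const hs) hid.sn).pos.and hGw
        ((hCl.pos.sub hGw hid.fs).and hGw ((hCl.pos.sub hGw hid.sn).and hGw
          ((hBT (Fn.const hiM) hid.fs).pos.and hGw (hBT (Fn.const hiM) hid.sn).neg))))
    obtain ⟨a, ha, h8, h9, h10, h11, h12, h13⟩ := hS.elem hGw ⟨pr y y', HH_pr hy hy', by
      simp only [fs_pr, sn_pr]
      exact ⟨h1.le.trans h2, h1.le.trans h4, h3, h5, h6, h7⟩⟩
    exact ⟨fs a, hid.fs.memM hGw ha, sn a, hid.sn.memM hGw ha, h8, h9, h10, h11, h12, h13⟩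

end Pool.Agent.Lib.MP_82b75a_lc
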