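import Mathlib

/-!
# A countable class of functions closed under search and bounded counting
-/

namespace Pool.Agent.Lib.MP_82b75a_lc

open Classical

/-- names for functions -/
inductive Cd : Type
  | base (c : Nat.Partrec.Code) : Cd
  | comp (f g : Cd) : Cd
  | pair (f g : Cd) : Cd
  | mu (f : Cd) : Cd
  | cnt (f : Cd) : Cd
deriving Countable

/-- the function named by a code -/
noncomputable def Cd.ev : Cd → ℕ → ℕ
  | .base c, n => if h : (c.eval n).Dom then (c.eval n).get h else 0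
  | .comp f g, n => f.ev (g.ev n)
  | .pair f g, n => Nat.pair (f.ev n) (g.ev n)
  | .mu f, n => if h : ∃ y, f.ev (Nat.pair n y) = 0 then Nat.find h else 0
  | .cnt f, n =>
    ((Finset.range n.unpair.2).filter (fun a => f.ev (Nat.pair n.unpair.1 a) = 0)).card

/-- `f` is in the class -/
def Ar (f : ℕ → ℕ) : Prop := ∃ c : Cd, c.ev = f

/-- the relation `P` is in the class -/
def Df (P : ℕ → Prop) : Prop := ∃ c : Cd, ∀ n, P n ↔ c.ev n = 0

theorem Ar.of_computable {f : ℕ → ℕ} (hf : Computable f) : Ar f := by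
  have h1 : Nat.Partrec (f : ℕ →. ℕ) := Partrec.nat_iff.1 hf
  obtain ⟨c, hc⟩ := Nat.Partrec.Code.exists_code.1 h1
  refine ⟨.base c, ?_⟩
  funext n
  simp [Cd.ev, hc]

theorem Ar.of_primrec {f : ℕ → ℕ} (hf : Primrec f) : Ar f := Ar.of_computable hf.to_comp

theorem Ar.comp {f g : ℕ → ℕ} (hf : Ar f) (hg : Ar g) : Ar (fun n => f (g n)) := by
  obtain ⟨c, rfl⟩ := hf
  obtain ⟨d, rfl⟩ := hg
  exact ⟨.comp c d, rfl⟩

theorem Ar.pair {f g : ℕ → ℕ} (hf : Ar f) (hg : Ar g) : Ar (fun n => Nat.pair (f n) (g n)) := by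
  obtain ⟨c, rfl⟩ := hf
  obtain ⟨d, rfl⟩ := hg
  exact ⟨.pair c d, rfl⟩

theorem Ar.id : Ar (fun n => n) := Ar.of_primrec Primrec.id

theorem Ar.const (k : ℕ) : Ar (fun _ => k) := Ar.of_primrec (Primrec.const k)

theorem Ar.fst' : Ar (fun n => n.unpair.1) :=
  Ar.of_primrec (Primrec.fst.comp Primrec.unpair)

theorem Ar.snd' : Ar (fun n => n.unpair.2) :=
  Ar.of_primrec (Primrec.snd.comp Primrec.unpair)

theorem Ar.fst {f : ℕ → ℕ} (hf : Ar f) : Ar (fun n => (f n).unpair.1) := Ar.fst'.comp hf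
theorem Ar.snd {f : ℕ → ℕ} (hf : Ar f) : Ar (fun n => (f n).unpair.2) := Ar.snd'.comp hf

/-- lift of a binary computable function -/
theorem Ar.comp₂ {F : ℕ → ℕ → ℕ} (hF : Ar (fun n => F n.unpair.1 n.unpair.2)) {f g : ℕ → ℕ}
    (hf : Ar f) (hg : Ar g) : Ar (fun n => F (f n) (g n)) := by
  have := hF.comp (hf.pair hg)
  simpa using this

theorem Ar.of_primrec₂ {F : ℕ → ℕ → ℕ} (hF : Primrec₂ F) {f g : ℕ → ℕ}
    (hf : Ar f) (hg : Ar g) : Ar (fun n => F (f n) (g n)) := by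
  refine Ar.comp₂ (F := F) ?_ hf hg
  exact Ar.of_primrec (hF.comp (Primrec.fst.comp Primrec.unpair) (Primrec.snd.comp Primrec.unpair))

theorem Ar.add {f g : ℕ → ℕ} (hf : Ar f) (hg : Ar g) : Ar (fun n => f n + g n) :=
  Ar.of_primrec₂ Primrec.nat_add hf hg
theorem Ar.mul {f g : ℕ → ℕ} (hf : Ar f) (hg : Ar g) : Ar (fun n => f n * g n) :=
  Ar.of_primrec₂ Primrec.nat_mul hf hg
theorem Ar.sub {f g : ℕ → ℕ} (hf : Ar f) (hg : Ar g) : Ar (fun n => f n - g n) :=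
  Ar.of_primrec₂ Primrec.nat_sub hf hg
theorem Ar.div {f g : ℕ → ℕ} (hf : Ar f) (hg : Ar g) : Ar (fun n => f n / g n) :=
  Ar.of_primrec₂ Primrec.nat_div hf hg
theorem Ar.mod {f g : ℕ → ℕ} (hf : Ar f) (hg : Ar g) : Ar (fun n => f n % g n) :=
  Ar.of_primrec₂ Primrec.nat_mod hf hg

theorem Ar.pow {f g : ℕ → ℕ} (hf : Ar f) (hg : Ar g) : Ar (fun n => f n ^ g n) := by
  refine Ar.of_primrec₂ (F := fun a b => a ^ b) ?_ hf hg
  have h : Primrec₂ (fun (a : ℕ) (p : ℕ × ℕ) => p.2 * a) :=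
    Primrec.nat_mul.comp (Primrec.snd.comp Primrec.snd) Primrec.fst
  have := Primrec.nat_rec (f := fun _ : ℕ => 1) (g := fun a p => p.2 * a) (Primrec.const 1) h
  refine this.of_eq ?_
  intro a b
  induction b with
  | zero => simp
  | succ b ih => simp [pow_succ, ← ih]

theorem Df.iff {P Q : ℕ → Prop} (hP : Df P) (h : ∀ n, Q n ↔ P n) : Df Q := by
  obtain ⟨c, hc⟩ := hP
  exact ⟨c, fun n => (h n).trans (hc n)⟩

theorem Df.of_ar {f : ℕ → ℕ} (hf : Ar f) : Df (fun n => f n = 0) := by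
  obtain ⟨c, rfl⟩ := hf
  exact ⟨c, fun n => Iff.rfl⟩

theorem Df.comp {P : ℕ → Prop} (hP : Df P) {f : ℕ → ℕ} (hf : Ar f) : Df (fun n => P (f n)) := by
  obtain ⟨c, hc⟩ := hP
  obtain ⟨d, rfl⟩ := hf
  exact ⟨.comp c d, fun n => hc _⟩

theorem Df.not {P : ℕ → Prop} (hP : Df P) : Df (fun n => ¬ P n) := by
  obtain ⟨c, hc⟩ := hP
  refine (Df.of_ar ((Ar.const 1).sub ⟨c, rfl⟩)).iff fun n => ?_
  rw [hc n]
  constructor
  · intro h; omega
  · intro h; omega

theorem Df.and {P Q : ℕ → Prop} (hP : Df P) (hQ : Df Q) : Df (fun n => P n ∧ Q n) := by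
  obtain ⟨c, hc⟩ := hP
  obtain ⟨d, hd⟩ := hQ
  refine (Df.of_ar (Ar.add ⟨c, rfl⟩ ⟨d, rfl⟩)).iff fun n => ?_
  rw [hc n, hd n]
  constructor
  · intro h; omega
  · intro h; omega

theorem Df.or {P Q : ℕ → Prop} (hP : Df P) (hQ : Df Q) : Df (fun n => P n ∨ Q n) :=
  (hP.not.and hQ.not).not.iff fun n => by tauto

theorem Df.imp {P Q : ℕ → Prop} (hP : Df P) (hQ : Df Q) : Df (fun n => P n → Q n) :=
  (hP.not.or hQ).iff fun n => by tauto

theorem Df.true : Df (fun _ => True) := ((Df.of_ar (Ar.const 0))).iff fun n => by simp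

theorem Df.eq {f g : ℕ → ℕ} (hf : Ar f) (hg : Ar g) : Df (fun n => f n = g n) := by
  refine (Df.of_ar ((hf.sub hg).add (hg.sub hf))).iff fun n => ?_
  constructor
  · intro h; omega
  · intro h; omega

theorem Df.lt {f g : ℕ → ℕ} (hf : Ar f) (hg : Ar g) : Df (fun n => f n < g n) := by
  refine (Df.of_ar ((hf.add (Ar.const 1)).sub hg)).iff fun n => ?_
  constructor
  · intro h; omega
  · intro h; omega

theorem Df.le {f g : ℕ → ℕ} (hf : Ar f) (hg : Ar g) : Df (fun n => f n ≤ g n) := by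
  refine (Df.of_ar (hf.sub hg)).iff fun n => ?_
  constructor
  · intro h; omega
  · intro h; omega

/-- search -/
theorem Ar.mu {P : ℕ → ℕ → Prop} (hP : Df (fun n => P n.unpair.1 n.unpair.2)) :
    ∃ g, Ar g ∧ ∀ n, (∃ y, P n y) → P n (g n) ∧ ∀ y, P n y → g n ≤ y := by
  obtain ⟨c, hc⟩ := hP
  refine ⟨(Cd.mu c).ev, ⟨_, rfl⟩, fun n hn => ?_⟩
  have h : ∃ y, c.ev (Nat.pair n y) = 0 := by
    obtain ⟨y, hy⟩ := hn
    refine ⟨y, (hc _).1 ?_⟩
    simpa using hy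
  have h2 : (Cd.mu c).ev n = Nat.find h := by
    rw [Cd.ev, dif_pos h]
  rw [h2]
  constructor
  · have := (hc _).2 (Nat.find_spec h)
    simpa using this
  · intro y hy
    apply Nat.find_min' h
    apply (hc _).1
    simpa using hy

theorem Df.ex {P : ℕ → ℕ → Prop} (hP : Df (fun n => P n.unpair.1 n.unpair.2)) :
    Df (fun n => ∃ y, P n y) := by
  obtain ⟨g, hg, h⟩ := Ar.mu hP
  have := hP.comp (Ar.id.pair hg)
  refine this.iff fun n => ?_
  simp only [Nat.unpair_pair]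
  exact ⟨fun h' => (h n h').1, fun h' => ⟨_, h'⟩⟩

theorem Df.all {P : ℕ → ℕ → Prop} (hP : Df (fun n => P n.unpair.1 n.unpair.2)) :
    Df (fun n => ∀ y, P n y) :=
  (Df.ex (P := fun n y => ¬ P n y) hP.not).not.iff fun n => by simp

theorem Df.ball {P : ℕ → ℕ → Prop} {f : ℕ → ℕ} (hf : Ar f)
    (hP : Df (fun n => P n.unpair.1 n.unpair.2)) :
    Df (fun n => ∀ y < f n, P n y) := by
  have := Df.all (P := fun n y => y < f n → P n y)
    ((Df.lt Ar.snd' (hf.comp Ar.fst')).imp hP)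
  exact this

theorem Df.bex {P : ℕ → ℕ → Prop} {f : ℕ → ℕ} (hf : Ar f)
    (hP : Df (fun n => P n.unpair.1 n.unpair.2)) :
    Df (fun n => ∃ y < f n, P n y) := by
  have := Df.ex (P := fun n y => y < f n ∧ P n y)
    ((Df.lt Ar.snd' (hf.comp Ar.fst')).and hP)
  exact this

theorem Ar.cnt {P : ℕ → ℕ → Prop} (hP : Df (fun n => P n.unpair.1 n.unpair.2)) {f : ℕ → ℕ}
    (hf : Ar f) : Ar (fun n => ((Finset.range (f n)).filter (fun a => P n a)).card) := by
  obtain ⟨c, hc⟩ := hP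
  have h1 : Ar (Cd.cnt c).ev := ⟨_, rfl⟩
  have h2 := h1.comp (Ar.id.pair hf)
  obtain ⟨d, hd⟩ := h2
  refine ⟨d, ?_⟩
  rw [hd]
  funext n
  simp only [Cd.ev, Nat.unpair_pair]
  congr 1
  apply Finset.filter_congr
  intro a _
  rw [← hc]
  simp

/-- coding of finite sequences: every function has codes on initial segments -/
def get (c y : ℕ) : ℕ := (Denumerable.ofNat (List ℕ) c).getD y 0

theorem Ar.get {f g : ℕ → ℕ} (hf : Ar f) (hg : Ar g) : Ar (fun n => get (f n) (g n)) := by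
  refine Ar.of_primrec₂ (F := MP_82b75a_lc.get) ?_ hf hg
  have h1 : Primrec₂ (fun (l : List ℕ) (n : ℕ) => l.getD n 0) := Primrec.list_getD 0
  exact h1.comp ((Primrec.ofNat (List ℕ)).comp Primrec.fst) Primrec.snd

theorem exists_get (f : ℕ → ℕ) (t : ℕ) : ∃ c, ∀ y < t, get c y = f y := by
  refine ⟨Encodable.encode ((List.range t).map f), fun y hy => ?_⟩
  simp [get, hy]

end Pool.Agent.Lib.MP_82b75a_lc
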