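import Mathlib

/-!
# Structures for second-order arithmetic, RCA_0, CADS and COH

The statement-level definitions used by the hand-in of this problem.
-/

namespace Pool.Agent.Lib.MP_82b75a_lc

/-- A structure for the language of second-order arithmetic: a first-order part `N` with
`0, 1, +, ·, <` and a nonempty collection `Sets` of subsets of `N` over which the set variables
range. -/
structure L2 where
  /-- the first-order part -/
  N : Type
  zero : N
  one : N
  add : N → N → N
  mul : N → N → N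
  lt : N → N → Prop
  /-- the second-order part -/
  Sets : Set (Set N)
  sets_nonempty : Sets.Nonempty

/-- Numerical terms, with number variables indexed by `ℕ`. -/
inductive Tm : Type
  | var (i : ℕ) : Tm
  | zero : Tm
  | one : Tm
  | add (s t : Tm) : Tm
  | mul (s t : Tm) : Tm

/-- The value of a term under an assignment `v` of the number variables. -/
def Tm.val (A : L2) (v : ℕ → A.N) : Tm → A.N
  | .var i => v i
  | .zero => A.zero
  | .one => A.one
  | .add s t => A.add (s.val A v) (t.val A v)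
  | .mul s t => A.mul (s.val A v) (t.val A v)

/-- Bounded quantifier formulas: `s = t`, `s < t`, `t ∈ X_i`, `¬ φ`, `φ ∧ ψ` and
`∀ x_i < t, φ`. (The other connectives and the bounded existential quantifier are
definable from these.) -/
inductive BFm : Type
  | eq (s t : Tm) : BFm
  | lt (s t : Tm) : BFm
  | mem (t : Tm) (i : ℕ) : BFm
  | neg (φ : BFm) : BFm
  | and (φ ψ : BFm) : BFm
  | ball (i : ℕ) (t : Tm) (φ : BFm) : BFm

/-- Satisfaction of a bounded quantifier formula; `S i` is the value of the set variable `X_i`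
and `v i` is the value of the number variable `x_i`. -/
def BFm.Sat (A : L2) (S : ℕ → Set A.N) : BFm → (ℕ → A.N) → Prop
  | .eq s t, v => s.val A v = t.val A v
  | .lt s t, v => A.lt (s.val A v) (t.val A v)
  | .mem t i, v => t.val A v ∈ S i
  | .neg φ, v => ¬ φ.Sat A S v
  | .and φ ψ, v => φ.Sat A S v ∧ ψ.Sat A S v
  | .ball i t φ, v => ∀ x, A.lt x (t.val A v) → φ.Sat A S (Function.update v i x)

/-- `P` is defined in `A` by a `Σ⁰₁` formula `∃ x_1, θ(x_0, x_1, parameters)`, with free variable
`x_0`, `θ` a bounded quantifier formula, and number and set parameters from `A`. -/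
def Sigma01 (A : L2) (P : A.N → Prop) : Prop :=
  ∃ (θ : BFm) (S : ℕ → Set A.N) (v : ℕ → A.N), (∀ i, S i ∈ A.Sets) ∧
    ∀ x, P x ↔ ∃ z, θ.Sat A S (Function.update (Function.update v 0 x) 1 z)

/-- The basic axioms of second-order arithmetic. -/
structure Basic (A : L2) : Prop where
  succ_ne_zero : ∀ n, A.add n A.one ≠ A.zero
  succ_inj : ∀ m n, A.add m A.one = A.add n A.one → m = n
  add_zero : ∀ m, A.add m A.zero = m
  add_succ : ∀ m n, A.add m (A.add n A.one) = A.add (A.add m n) A.one
  mul_zero : ∀ m, A.mul m A.zero = A.zero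
  mul_succ : ∀ m n, A.mul m (A.add n A.one) = A.add (A.mul m n) m
  not_lt_zero : ∀ m, ¬ A.lt m A.zero
  lt_succ : ∀ m n, A.lt m (A.add n A.one) ↔ A.lt m n ∨ m = n

/-- `A` is a model of `RCA₀`: basic axioms, `Σ⁰₁` induction and `Δ⁰₁` comprehension. -/
structure RCA0 (A : L2) : Prop where
  basic : Basic A
  induction : ∀ P : A.N → Prop, Sigma01 A P → P A.zero → (∀ n, P n → P (A.add n A.one)) →
    ∀ n, P n
  comprehension : ∀ P : A.N → Prop, Sigma01 A P → Sigma01 A (fun x => ¬ P x) →
    {x | P x} ∈ A.Sets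

/-- `X` is finite in the sense of `A`, that is, bounded: some `m` is above all elements. -/
def Fin' (A : L2) (X : Set A.N) : Prop := ∃ m, ∀ x ∈ X, A.lt x m

/-- The code of the pair `(x, y)`, which is `(x + y)² + x`. -/
def pc (A : L2) (x y : A.N) : A.N := A.add (A.mul (A.add x y) (A.add x y)) x

/-- The linear order on the domain `D` whose relation is given by the set `E` of codes of pairs:
`x ≼ y` if and only if `pc x y ∈ E`. -/
structure LinOrd (A : L2) (D E : Set A.N) : Prop where
  refl : ∀ x ∈ D, pc A x x ∈ E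
  antisymm : ∀ x ∈ D, ∀ y ∈ D, pc A x y ∈ E → pc A y x ∈ E → x = y
  trans : ∀ x ∈ D, ∀ y ∈ D, ∀ z ∈ D, pc A x y ∈ E → pc A y z ∈ E → pc A x z ∈ E
  total : ∀ x ∈ D, ∀ y ∈ D, pc A x y ∈ E ∨ pc A y x ∈ E

/-- strict inequality in the order given by `E` -/
def Lt' (A : L2) (E : Set A.N) (x y : A.N) : Prop := pc A x y ∈ E ∧ x ≠ y

/-- The order `(D, E)` is discrete: each element other than a first element has an immediate
predecessor, and each element other than a last element has an immediate successor. -/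
def Discrete' (A : L2) (D E : Set A.N) : Prop :=
  (∀ x ∈ D, (∃ y ∈ D, Lt' A E y x) →
    ∃ y ∈ D, Lt' A E y x ∧ ∀ z ∈ D, ¬ (Lt' A E y z ∧ Lt' A E z x)) ∧
  (∀ x ∈ D, (∃ y ∈ D, Lt' A E x y) →
    ∃ y ∈ D, Lt' A E x y ∧ ∀ z ∈ D, ¬ (Lt' A E x z ∧ Lt' A E z y))

/-- The set of predecessors of `x` in `(D, E)`. -/
def Pred' (A : L2) (D E : Set A.N) (x : A.N) : Set A.N := {y | y ∈ D ∧ Lt' A E y x}

/-- The set of successors of `x` in `(D, E)`. -/
def Succ' (A : L2) (D E : Set A.N) (x : A.N) : Set A.N := {y | y ∈ D ∧ Lt' A E x y}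

/-- The order `(D, E)` is stable: infinite, discrete, with at least two elements, and each element
has either only finitely many predecessors or only finitely many successors, but not both. -/
structure Stable (A : L2) (D E : Set A.N) : Prop where
  infinite : ¬ Fin' A D
  discrete : Discrete' A D E
  two : ∃ x ∈ D, ∃ y ∈ D, x ≠ y
  stable : ∀ x ∈ D, (Fin' A (Pred' A D E x) ∧ ¬ Fin' A (Succ' A D E x)) ∨
    (¬ Fin' A (Pred' A D E x) ∧ Fin' A (Succ' A D E x))

/-- `A` satisfies `CADS`: every infinite linear order has a stable suborder. -/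
def CADS (A : L2) : Prop :=
  ∀ D ∈ A.Sets, ∀ E ∈ A.Sets, LinOrd A D E → ¬ Fin' A D →
    ∃ D' ∈ A.Sets, D' ⊆ D ∧ Stable A D' E

/-- `A` satisfies `COH`: for every sequence of sets `R_i = {x | pc i x ∈ R}` there is an infinite
set `C` such that for each `i`, `C \ R_i` or `C ∩ R_i` is finite. -/
def COH (A : L2) : Prop :=
  ∀ R ∈ A.Sets, ∃ C ∈ A.Sets, ¬ Fin' A C ∧
    ∀ i, Fin' A {x | x ∈ C ∧ pc A i x ∉ R} ∨ Fin' A {x | x ∈ C ∧ pc A i x ∈ R}

end Pool.Agent.Lib.MP_82b75a_lc
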