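import Pool.Agent.Lib.MP_82b75a_lc.Sigma

/-!
# Delta-1 relations, internalisation, induction
-/

namespace Pool.Agent.Lib.MP_82b75a_lc

open Classical Filter

variable {M : Set NN} {r : NN → NN} {τ : ℕ → ℕ}

/-- on a bounded domain a Sigma-1 relation is internal -/
theorem Sg.intern (hG : Good M r τ) {A : NN → Prop} (hA : Sg M r A) {t : NN} (ht : t ∈ HH) :
    ∃ P, Df P ∧ ∃ q ∈ M, ∀ x ≤ t, (A x ↔ T P (pr q x)) := by
  obtain ⟨P, hP, p, hp, h2, h2'⟩ := hA.mono hG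
  obtain ⟨s, hs, h3⟩ := hG.coll hP hp ht h2'
  refine ⟨fun n => P (Nat.pair n.unpair.1.unpair.1 (Nat.pair n.unpair.2 n.unpair.1.unpair.2)),
    hP.comp (Ar.fst'.fst.pair (Ar.snd'.pair Ar.fst'.snd)), pr p (pr s (r s)),
    hG.pr_mem _ hp _ (hG.pr_mem _ hs _ (hG.mem _ hs)), fun x hx => ?_⟩
  have key : T (fun n => P (Nat.pair n.unpair.1.unpair.1
      (Nat.pair n.unpair.2 n.unpair.1.unpair.2))) (pr (pr p (pr s (r s))) x) ↔ Mx r P p x s := by
    unfold Mx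
    generalize r s = c
    obtain ⟨p, rfl⟩ := ex_rep p
    obtain ⟨x, rfl⟩ := ex_rep x
    obtain ⟨s, rfl⟩ := ex_rep s
    obtain ⟨c, rfl⟩ := ex_rep c
    simp only [pr_coe, T_coe, Nat.unpair_pair]
  rw [key, h2 x (HH_down ht hx)]
  exact ⟨h3 x hx, fun h => ⟨s, hG.sub hs, h⟩⟩

theorem zero_le_NN (x : NN) : (0 : NN) ≤ x := by
  obtain ⟨x, rfl⟩ := ex_rep x
  show ((fun _ => 0 : ℕ → ℕ) : NN) ≤ _
  rw [Germ.coe_le]
  exact Eventually.of_forall fun i => Nat.zero_le _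

theorem const_mem_M0 (k : ℕ) : ((fun _ => k : ℕ → ℕ) : NN) ∈ M0 :=
  ⟨_, Ar.const k, rfl⟩

theorem zero_mem_M0 : (0 : NN) ∈ M0 := const_mem_M0 0
theorem one_mem_M0 : (1 : NN) ∈ M0 := const_mem_M0 1

theorem Good.add_mem (hG : Good M r τ) {a b : NN} (ha : a ∈ M) (hb : b ∈ M) : a + b ∈ M := by
  rw [add_eq]
  exact hG.app_mem _ (Ar.fst'.add Ar.snd') _ (hG.pr_mem _ ha _ hb)

theorem Good.mul_mem (hG : Good M r τ) {a b : NN} (ha : a ∈ M) (hb : b ∈ M) : a * b ∈ M := by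
  rw [mul_eq]
  exact hG.app_mem _ (Ar.fst'.mul Ar.snd') _ (hG.pr_mem _ ha _ hb)

theorem lt_add_one_iff_NN (a b : NN) : a < b + 1 ↔ a ≤ b := by
  obtain ⟨a, rfl⟩ := ex_rep a
  obtain ⟨b, rfl⟩ := ex_rep b
  have h : ((b : NN) + 1) = ((fun i => b i + 1 : ℕ → ℕ) : NN) := rfl
  rw [h, Germ.coe_lt, Germ.coe_le]
  constructor
  · intro h; exact h.mono fun i hi => Nat.lt_succ_iff.1 hi
  · intro h; exact h.mono fun i hi => Nat.lt_succ_iff.2 hi

theorem exists_pred_NN {a : NN} (ha : a ≠ 0) :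
    a = app (fun n => n - 1) a + 1 := by
  obtain ⟨a, rfl⟩ := ex_rep a
  have h : (app (fun n => n - 1) (a : NN) + 1) = ((fun i => a i - 1 + 1 : ℕ → ℕ) : NN) := rfl
  rw [h, coe_eq_coe]
  have h2 : ¬ ∀ᶠ i in (UU : Filter ℕ), a i = 0 := fun h3 => ha (coe_eq_coe.2 h3)
  rw [← Ultrafilter.eventually_not] at h2
  refine h2.mono fun i hi => ?_
  omega

/-- induction for Sigma-1 relations in the model -/
theorem Good.induct (hG : Good M r τ) {A : NN → Prop} (hA : Sg M r A) (h0 : A 0)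
    (hs : ∀ x ∈ M, A x → A (x + 1)) : ∀ x ∈ M, A x := by
  intro t ht
  by_contra hAt
  obtain ⟨P, hP, q, hq, h2⟩ := hA.intern hG (hG.sub ht)
  have hD : Df (fun n => ¬ P (Nat.pair n.unpair.1.unpair.1 n.unpair.2) ∧
      n.unpair.2 < n.unpair.1.unpair.2 + 1) :=
    (hP.comp (Ar.fst'.fst.pair Ar.snd')).not.and (Df.lt Ar.snd' (Ar.fst'.snd.add (Ar.const 1)))
  have key : ∀ y : NN, T (fun n => ¬ P (Nat.pair n.unpair.1.unpair.1 n.unpair.2) ∧
      n.unpair.2 < n.unpair.1.unpair.2 + 1) (pr (pr q t) y) ↔ ¬ T P (pr q y) ∧ y ≤ t := by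
    intro y
    obtain ⟨q, rfl⟩ := ex_rep q
    obtain ⟨y, rfl⟩ := ex_rep y
    obtain ⟨t, rfl⟩ := ex_rep t
    simp only [pr_coe, T_coe, Nat.unpair_pair, Nat.lt_succ_iff, eventually_and,
      Ultrafilter.eventually_not, Germ.coe_le]
    rfl
  obtain ⟨y, hyM, hy, hmin⟩ := hG.search hD (hG.pr_mem _ hq _ ht) ⟨t, (key t).2
    ⟨fun h => hAt ((h2 t le_rfl).2 h), le_rfl⟩⟩
  obtain ⟨h3, h4⟩ := (key y).1 hy
  have h5 : ¬ A y := fun h => h3 ((h2 y h4).1 h)
  have hy0 : y ≠ 0 := by rintro rfl; exact h5 h0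
  have h6 := exists_pred_NN hy0
  have hy' : app (fun n => n - 1) y ∈ M := hG.app_mem _ (Ar.id.sub (Ar.const 1)) _ hyM
  have hlt : app (fun n => n - 1) y < y := by
    conv_rhs => rw [h6]
    exact (lt_add_one_iff_NN _ _).2 le_rfl
  apply h5
  rw [h6]
  apply hs _ hy'
  by_contra h7
  have h8 := hmin _ ((key _).2 ⟨fun h => h7 ((h2 _ (hlt.le.trans h4)).2 h), hlt.le.trans h4⟩)
  exact absurd hlt (not_lt.2 h8)

/-- the maximum principle -/
theorem Good.maxp (hG : Good M r τ) {A : NN → Prop} (hA : Sg M r A) {t : NN} (ht : t ∈ M)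
    (h0 : A 0) : ∃ x ∈ M, x ≤ t ∧ A x ∧ ∀ y ≤ t, A y → y ≤ x := by
  obtain ⟨P, hP, q, hq, h2⟩ := hA.intern hG (hG.sub ht)
  have hD : Df (fun n => (P (Nat.pair n.unpair.1.unpair.1 n.unpair.2) ∧
      n.unpair.2 < n.unpair.1.unpair.2 + 1) ∧ ∀ y < n.unpair.1.unpair.2 + 1,
        P (Nat.pair n.unpair.1.unpair.1 y) → y ≤ n.unpair.2) := by
    refine ((hP.comp (Ar.fst'.fst.pair Ar.snd')).and
      (Df.lt Ar.snd' (Ar.fst'.snd.add (Ar.const 1)))).and ?_
    refine Df.ball (P := fun n y => P (Nat.pair n.unpair.1.unpair.1 y) → y ≤ n.unpair.2)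
      (Ar.fst'.snd.add (Ar.const 1)) ?_
    exact (hP.comp (Ar.fst'.fst.fst.pair Ar.snd')).imp (Df.le Ar.snd' Ar.fst'.snd)
  have key : ∀ x : NN, T (fun n => (P (Nat.pair n.unpair.1.unpair.1 n.unpair.2) ∧
      n.unpair.2 < n.unpair.1.unpair.2 + 1) ∧ ∀ y < n.unpair.1.unpair.2 + 1,
        P (Nat.pair n.unpair.1.unpair.1 y) → y ≤ n.unpair.2) (pr (pr q t) x) ↔
        (T P (pr q x) ∧ x ≤ t) ∧ ∀ y, y ≤ t → T P (pr q y) → y ≤ x := by
    intro x
    obtain ⟨q, rfl⟩ := ex_rep q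
    obtain ⟨x, rfl⟩ := ex_rep x
    obtain ⟨t, rfl⟩ := ex_rep t
    rw [los_all (Q := fun i y => y ≤ t i → P (Nat.pair (q i) y) → y ≤ x i) (fun f => by
      simp only [pr_coe, T_coe, Ultrafilter.eventually_imp, Germ.coe_le]; rfl)]
    simp only [pr_coe, T_coe, Nat.unpair_pair, Nat.lt_succ_iff, eventually_and, Germ.coe_le]
    rfl
  have hex : ∃ x : NN, T (fun n => (P (Nat.pair n.unpair.1.unpair.1 n.unpair.2) ∧
      n.unpair.2 < n.unpair.1.unpair.2 + 1) ∧ ∀ y < n.unpair.1.unpair.2 + 1,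
        P (Nat.pair n.unpair.1.unpair.1 y) → y ≤ n.unpair.2) (pr (pr q t) x) := by
    have h0' : T P (pr q 0) := (h2 0 (zero_le_NN t)).1 h0
    obtain ⟨q, rfl⟩ := ex_rep q
    obtain ⟨t, rfl⟩ := ex_rep t
    have h0'' : ∀ᶠ i in (UU : Filter ℕ), P (Nat.pair (q i) 0) := h0'
    rw [los_ex (Q := fun i x => (P (Nat.pair (q i) x) ∧ x < t i + 1) ∧ ∀ y < t i + 1,
        P (Nat.pair (q i) y) → y ≤ x) (fun f => by
        simp only [pr_coe, T_coe, Nat.unpair_pair])]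
    refine h0''.mono fun i hi => ?_
    have hne : ((Finset.range (t i + 1)).filter (fun y => P (Nat.pair (q i) y))).Nonempty :=
      ⟨0, Finset.mem_filter.2 ⟨Finset.mem_range.2 (Nat.succ_pos _), hi⟩⟩
    have hm := Finset.max'_mem _ hne
    rw [Finset.mem_filter, Finset.mem_range] at hm
    refine ⟨_, ⟨hm.2, hm.1⟩, fun y hy hPy => ?_⟩
    exact Finset.le_max' _ _ (Finset.mem_filter.2 ⟨Finset.mem_range.2 hy, hPy⟩)
  obtain ⟨x, hxM, hx, -⟩ := hG.search hD (hG.pr_mem _ hq _ ht) hex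
  obtain ⟨⟨h3, h4⟩, h5⟩ := (key x).1 hx
  exact ⟨x, hxM, h4, (h2 x h4).2 h3, fun y hy hAy => h5 y hy ((h2 y hy).1 hAy)⟩

/-- Delta-1 relations -/
structure Dl (M : Set NN) (r : NN → NN) (A : NN → Prop) : Prop where
  pos : Sg M r A
  neg : Sg M r (fun x => ¬ A x)

theorem Dl.congr {A B : NN → Prop} (hA : Dl M r A) (h : ∀ x ∈ HH, (B x ↔ A x)) : Dl M r B :=
  ⟨hA.pos.congr h, hA.neg.congr fun x hx => not_congr (h x hx)⟩

theorem Dl.not {A : NN → Prop} (hA : Dl M r A) : Dl M r (fun x => ¬ A x) :=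
  ⟨hA.neg, hA.pos.congr fun _ _ => not_not⟩

theorem Dl.and (hG : Good M r τ) {A B : NN → Prop} (hA : Dl M r A) (hB : Dl M r B) :
    Dl M r (fun x => A x ∧ B x) :=
  ⟨hA.pos.and hG hB.pos, (hA.neg.or hG hB.neg).congr fun x _ => by tauto⟩

theorem Dl.or (hG : Good M r τ) {A B : NN → Prop} (hA : Dl M r A) (hB : Dl M r B) :
    Dl M r (fun x => A x ∨ B x) :=
  ⟨hA.pos.or hG hB.pos, (hA.neg.and hG hB.neg).congr fun x _ => by tauto⟩

theorem Dl.imp (hG : Good M r τ) {A B : NN → Prop} (hA : Dl M r A) (hB : Dl M r B) :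
    Dl M r (fun x => A x → B x) :=
  (hA.not.or hG hB).congr fun x _ => by tauto

theorem Dl.sub (hG : Good M r τ) {A : NN → Prop} (hA : Dl M r A) {f : NN → NN} (hf : Fn M f) :
    Dl M r (fun x => A (f x)) :=
  ⟨hA.pos.sub hG hf, hA.neg.sub hG hf⟩

theorem Dl.base (hG : Good M r τ) {P : ℕ → Prop} (hP : Df P) {f g : NN → NN} (hf : Fn M f)
    (hg : Fn M g) : Dl M r (fun x => T P (pr (f x) (r (g x)))) :=
  ⟨Sg.base hG hP hf hg, (Sg.base hG hP.not hf hg).congr fun _ _ => (T_not P _).symm⟩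

theorem Dl.int (hG : Good M r τ) {P : ℕ → Prop} (hP : Df P) {f : NN → NN} (hf : Fn M f) :
    Dl M r (fun x => T P (f x)) :=
  ⟨Sg.int hG hP hf, (Sg.int hG hP.not hf).congr fun _ _ => (T_not P _).symm⟩

theorem Dl.lt (hG : Good M r τ) {f g : NN → NN} (hf : Fn M f) (hg : Fn M g) :
    Dl M r (fun x => f x < g x) :=
  (Dl.int hG (Df.lt Ar.fst' Ar.snd') (Fn.pr hG hf hg)).congr fun _ _ => lt_iff_T _ _

theorem Dl.le (hG : Good M r τ) {f g : NN → NN} (hf : Fn M f) (hg : Fn M g) :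
    Dl M r (fun x => f x ≤ g x) :=
  (Dl.int hG (Df.le Ar.fst' Ar.snd') (Fn.pr hG hf hg)).congr fun _ _ => le_iff_T _ _

theorem Dl.eq (hG : Good M r τ) {f g : NN → NN} (hf : Fn M f) (hg : Fn M g) :
    Dl M r (fun x => f x = g x) :=
  (Dl.int hG (Df.eq Ar.fst' Ar.snd') (Fn.pr hG hf hg)).congr fun _ _ => eq_iff_T _ _

theorem Sg.bex (hG : Good M r τ) {A : NN → NN → Prop} (hA : Sg M r (fun a => A (fs a) (sn a)))
    {f : NN → NN} (hf : Fn M f) : Sg M r (fun x => ∃ y < f x, A x y) := by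
  have h1 : Sg M r (fun a => sn a < f (fs a) ∧ A (fs a) (sn a)) :=
    (Dl.lt hG (Fn.id hG).sn (Fn.comp hG hf (Fn.id hG).fs)).pos.and hG hA
  refine (Sg.ex (A := fun x y => y < f x ∧ A x y) hG h1).congr fun x hx => ?_
  constructor
  · rintro ⟨y, hy, h⟩
    exact ⟨y, HH_down (hf.memH hG hx) hy.le, hy, h⟩
  · rintro ⟨y, _, hy, h⟩
    exact ⟨y, hy, h⟩

theorem Dl.ball (hG : Good M r τ) {A : NN → NN → Prop} (hA : Dl M r (fun a => A (fs a) (sn a)))
    {f : NN → NN} (hf : Fn M f) : Dl M r (fun x => ∀ y < f x, A x y) :=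
  ⟨hA.pos.ball hG hf, (Sg.bex (A := fun x y => ¬ A x y) hG hA.neg hf).congr fun x _ => by
    push Not; rfl⟩

theorem Dl.bex (hG : Good M r τ) {A : NN → NN → Prop} (hA : Dl M r (fun a => A (fs a) (sn a)))
    {f : NN → NN} (hf : Fn M f) : Dl M r (fun x => ∃ y < f x, A x y) :=
  (Dl.ball (A := fun x y => ¬ A x y) hG hA.not hf).not.congr fun x _ => by
    push Not; rfl

/-! ### sequences -/

/-- entry of a coded sequence -/
noncomputable def gt (c y : NN) : NN := app (fun n => get n.unpair.1 n.unpair.2) (pr c y)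

theorem ar_get : Ar (fun n => get n.unpair.1 n.unpair.2) := Ar.get Ar.fst' Ar.snd'

theorem Fn.gt (hG : Good M r τ) {f g : NN → NN} (hf : Fn M f) (hg : Fn M g) :
    Fn M (fun x => gt (f x) (g x)) := (Fn.pr hG hf hg).app ar_get

theorem gt_coe (c y : ℕ → ℕ) :
    gt (c : NN) (y : NN) = ((fun i => get (c i) (y i) : ℕ → ℕ) : NN) := by
  rw [gt, pr_coe, app_coe]
  simp only [Nat.unpair_pair]

/-- least code with the same first `z` entries -/
noncomputable def cut (c z : ℕ) : ℕ := sInf {c' | ∀ y < z, get c' y = get c y}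

theorem cut_spec (c z : ℕ) : ∀ y < z, get (cut c z) y = get c y :=
  Nat.sInf_mem (s := {c' | ∀ y < z, get c' y = get c y}) ⟨c, fun _ _ => rfl⟩

theorem cut_congr {c c' z : ℕ} (h : ∀ y < z, get c y = get c' y) : cut c z = cut c' z := by
  unfold cut
  congr 1
  ext d
  constructor
  · intro h2 y hy
    rw [h2 y hy, h y hy]
  · intro h2 y hy
    rw [h2 y hy, h y hy]

theorem ar_cut : Ar (fun n => cut n.unpair.1 n.unpair.2) := by
  have hD : Df (fun n => ∀ y < n.unpair.1.unpair.2,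
      get n.unpair.2 y = get n.unpair.1.unpair.1 y) := by
    refine Df.ball (P := fun n y => get n.unpair.2 y = get n.unpair.1.unpair.1 y) Ar.fst'.snd ?_
    exact Df.eq (Ar.get Ar.fst'.snd Ar.snd') (Ar.get Ar.fst'.fst.fst Ar.snd')
  obtain ⟨g, hg, h⟩ := Ar.mu (P := fun n c => ∀ y < n.unpair.2, get c y = get n.unpair.1 y) hD
  have : (fun n => cut n.unpair.1 n.unpair.2) = g := by
    funext n
    obtain ⟨h1, h2⟩ := h n ⟨n.unpair.1, fun _ _ => rfl⟩
    apply le_antisymm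
    · exact Nat.sInf_le h1
    · exact h2 _ (cut_spec _ _)
  rw [this]
  exact hg

/-- truncation -/
noncomputable def ct (c z : NN) : NN := app (fun n => cut n.unpair.1 n.unpair.2) (pr c z)

theorem ct_coe (c z : ℕ → ℕ) :
    ct (c : NN) (z : NN) = ((fun i => cut (c i) (z i) : ℕ → ℕ) : NN) := by
  rw [ct, pr_coe, app_coe]
  simp only [Nat.unpair_pair]

theorem Fn.ct (hG : Good M r τ) {f g : NN → NN} (hf : Fn M f) (hg : Fn M g) :
    Fn M (fun x => ct (f x) (g x)) := (Fn.pr hG hf hg).app ar_cut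

theorem ct_spec (c z : NN) : ∀ y < z, gt (ct c z) y = gt c y := by
  obtain ⟨c, rfl⟩ := ex_rep c
  obtain ⟨z, rfl⟩ := ex_rep z
  rw [los_all (Q := fun i y => y < z i → get (cut (c i) (z i)) y = get (c i) y) (fun f => by
    simp only [ct_coe, gt_coe, Germ.coe_lt, coe_eq_coe, Ultrafilter.eventually_imp])]
  exact Eventually.of_forall fun i y hy => cut_spec _ _ _ hy

theorem ct_congr {c c' z : NN} (h : ∀ y < z, gt c y = gt c' y) : ct c z = ct c' z := by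
  obtain ⟨c, rfl⟩ := ex_rep c
  obtain ⟨c', rfl⟩ := ex_rep c'
  obtain ⟨z, rfl⟩ := ex_rep z
  rw [los_all (Q := fun i y => y < z i → get (c i) y = get (c' i) y) (fun f => by
    simp only [gt_coe, Germ.coe_lt, coe_eq_coe, Ultrafilter.eventually_imp])] at h
  rw [ct_coe, ct_coe, coe_eq_coe]
  exact h.mono fun i hi => cut_congr hi

/-- internal choice of sequences -/
theorem seq_choice {P : ℕ → Prop} (hP : Df P) : ∃ g, Ar g ∧ ∀ q t : NN,
    (∀ y < t, ∃ v, T P (pr q (pr y v))) →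
    ∀ y < t, T P (pr q (pr y (gt (app g (pr q t)) y))) := by
  have hD : Df (fun n => ∀ y < n.unpair.1.unpair.2,
      P (Nat.pair n.unpair.1.unpair.1 (Nat.pair y (get n.unpair.2 y)))) := by
    refine Df.ball (P := fun n y => P (Nat.pair n.unpair.1.unpair.1
      (Nat.pair y (get n.unpair.2 y)))) Ar.fst'.snd ?_
    exact hP.comp (Ar.fst'.fst.fst.pair (Ar.snd'.pair (Ar.get Ar.fst'.snd Ar.snd')))
  obtain ⟨g, hg, h⟩ := Ar.mu (P := fun n c => ∀ y < n.unpair.2,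
    P (Nat.pair n.unpair.1 (Nat.pair y (get c y)))) hD
  refine ⟨g, hg, fun q t => ?_⟩
  obtain ⟨q, rfl⟩ := ex_rep q
  obtain ⟨t, rfl⟩ := ex_rep t
  intro h1
  rw [los_all (Q := fun i y => y < t i → ∃ v, P (Nat.pair (q i) (Nat.pair y v))) (fun f => by
    rw [los_ex (Q := fun i v => P (Nat.pair (q i) (Nat.pair (f i) v)))
      (fun v => by simp only [pr_coe, T_coe])]
    simp only [Germ.coe_lt, Ultrafilter.eventually_imp])] at h1
  rw [los_all (Q := fun i y => y < t i →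
      P (Nat.pair (q i) (Nat.pair y (get (g (Nat.pair (q i) (t i))) y)))) (fun f => by
    simp only [pr_coe, app_coe, gt_coe, T_coe, Germ.coe_lt, Ultrafilter.eventually_imp])]
  refine h1.mono fun i hi => ?_
  have h2 : ∃ c, ∀ y < t i, P (Nat.pair (q i) (Nat.pair y (get c y))) := by
    obtain ⟨c, hc⟩ := exists_get (fun y => if h : ∃ v, P (Nat.pair (q i) (Nat.pair y v)) then
      h.choose else 0) (t i)
    refine ⟨c, fun y hy => ?_⟩
    rw [hc y hy, dif_pos (hi y hy)]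
    exact (hi y hy).choose_spec
  have h3 := (h (Nat.pair (q i) (t i)) (by simpa using h2)).1
  simpa using h3

end Pool.Agent.Lib.MP_82b75a_lc
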