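import Pool.Agent.Lib.MP_82b75a_lc.Force

/-!
# The extension lemma
-/

namespace Pool.Agent.Lib.MP_82b75a_lc

open Classical Filter

variable {M : Set NN} {r : NN → NN} {τ : ℕ → ℕ}

/-- the square of the nonstandard number -/
noncomputable def kk : NN := app (fun n => n ^ 2) bb

theorem kk_mem : kk ∈ M0 := ⟨_, Ar.id.pow (Ar.const 2), rfl⟩

theorem kk_coe : kk = ((fun i => i ^ 2 : ℕ → ℕ) : NN) := rfl

/-- internal subset of `[0, b^2)` -/
noncomputable def ss (P : ℕ → Prop) (p b : ℕ) : Finset ℕ :=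
  (Finset.range (b ^ 2)).filter (fun i => P (Nat.pair p i))

theorem mem_ss {P : ℕ → Prop} {p b i : ℕ} : i ∈ ss P p b ↔ i < b ^ 2 ∧ P (Nat.pair p i) := by
  rw [ss, Finset.mem_filter, Finset.mem_range]

/-- size of an internal subset of `[0, b^2)` -/
noncomputable def sz (P : ℕ → Prop) (p b : ℕ) : ℕ := (ss P p b).card

theorem ar_sz {P : ℕ → Prop} (hP : Df P) {f g : ℕ → ℕ} (hf : Ar f) (hg : Ar g) :
    Ar (fun n => sz P (f n) (g n)) := by
  have h := Ar.cnt (P := fun n a => P (Nat.pair n.unpair.1 a)) (f := fun n => n.unpair.2 ^ 2)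
    (hP.comp (Ar.fst'.fst.pair Ar.snd')) (Ar.snd'.pow (Ar.const 2))
  have h2 := h.comp (hf.pair hg)
  simp only [Nat.unpair_pair] at h2
  exact h2

/-- large internal sets -/
def Lg (P : ℕ → Prop) (p : NN) : Prop :=
  ∀ l : ℕ, T (fun m => l * m.unpair.2 < sz P m.unpair.1 m.unpair.2) (pr p bb)

/-- small internal sets -/
def Sm (P : ℕ → Prop) (p : NN) : Prop :=
  T (fun m => sz P m.unpair.1 m.unpair.2 ≤ m.unpair.2) (pr p bb)

theorem Lg_coe (P : ℕ → Prop) (p : ℕ → ℕ) :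
    Lg P (p : NN) ↔ ∀ l : ℕ, ∀ᶠ i in (UU : Filter ℕ), l * i < sz P (p i) i := by
  simp only [Lg, bb, pr_coe, T_coe, Nat.unpair_pair]

theorem Sm_coe (P : ℕ → Prop) (p : ℕ → ℕ) :
    Sm P (p : NN) ↔ ∀ᶠ i in (UU : Filter ℕ), sz P (p i) i ≤ i := by
  simp only [Sm, bb, pr_coe, T_coe, Nat.unpair_pair]

/-- half of the median lemma -/
theorem median_aux (U : Finset ℕ) (R : ℕ → ℕ → Prop) (hne : U.Nonempty)
    (htot : ∀ i ∈ U, ∀ j ∈ U, R i j ∨ R j i)
    (htr : ∀ i ∈ U, ∀ j ∈ U, ∀ k ∈ U, R i j → R j k → R i k) :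
    4 * (U.filter (fun i => 4 * (U.filter (fun j => R j i)).card < U.card)).card < U.card := by
  set A := U.filter (fun i => 4 * (U.filter (fun j => R j i)).card < U.card) with hA
  rcases A.eq_empty_or_nonempty with h | h
  · rw [h]
    simpa using hne
  · obtain ⟨m, hm, hmax⟩ := A.exists_max_image (fun i => (U.filter (fun j => R j i)).card) h
    have hmU : m ∈ U := (Finset.mem_filter.1 hm).1
    have hsub : A ⊆ U.filter (fun j => R j m) := by
      intro i hi
      have hiU : i ∈ U := (Finset.mem_filter.1 hi).1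
      rw [Finset.mem_filter]
      refine ⟨hiU, ?_⟩
      rcases htot i hiU m hmU with h1 | h1
      · exact h1
      · have h2 : U.filter (fun j => R j m) ⊆ U.filter (fun j => R j i) := by
          intro j hj
          rw [Finset.mem_filter] at hj ⊢
          exact ⟨hj.1, htr j hj.1 m hmU i hiU hj.2 h1⟩
        have h3 := Finset.eq_of_subset_of_card_le h2 (hmax i hi)
        have h4 : i ∈ U.filter (fun j => R j i) := by
          rw [Finset.mem_filter]
          exact ⟨hiU, (htot i hiU i hiU).elim id id⟩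
        rw [← h3, Finset.mem_filter] at h4
        exact h4.2
    have h5 := Finset.card_le_card hsub
    have h6 := (Finset.mem_filter.1 hm).2
    omega

/-- a median exists -/
theorem median (U : Finset ℕ) (R : ℕ → ℕ → Prop) (hne : U.Nonempty)
    (htot : ∀ i ∈ U, ∀ j ∈ U, R i j ∨ R j i)
    (htr : ∀ i ∈ U, ∀ j ∈ U, ∀ k ∈ U, R i j → R j k → R i k) :
    ∃ i0 ∈ U, U.card ≤ 4 * (U.filter (fun j => R j i0)).card ∧
      U.card ≤ 4 * (U.filter (fun j => R i0 j)).card := by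
  have h1 := median_aux U R hne htot htr
  have h2 := median_aux U (fun i j => R j i) hne (fun i hi j hj => (htot i hi j hj).symm)
    (fun i hi j hj k hk h h' => htr k hk j hj i hi h' h)
  by_contra h3
  push Not at h3
  have h4 : U ⊆ U.filter (fun i => 4 * (U.filter (fun j => R j i)).card < U.card) ∪
      U.filter (fun i => 4 * (U.filter (fun j => R i j)).card < U.card) := by
    intro i hi
    rw [Finset.mem_union, Finset.mem_filter, Finset.mem_filter]
    by_cases h5 : 4 * (U.filter (fun j => R j i)).card < U.card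
    · exact Or.inl ⟨hi, h5⟩
    · exact Or.inr ⟨hi, h3 i hi (not_lt.1 h5)⟩
  have h5 := (Finset.card_le_card h4).trans (Finset.card_union_le _ _)
  have h6 : 0 < U.card := Finset.card_pos.2 hne
  omega

/-- a gap: a preorder and a sequence of convex sets -/
structure Gap where
  le : NN → NN → Prop
  I : ℕ → NN → Prop

/-- the gap is not filled by `M` -/
structure GapOK (M : Set NN) (r : NN → NN) (G : Gap) : Prop where
  dl : Dl M r (fun a => G.le (fs a) (sn a))
  total : ∀ x ∈ HH, ∀ y ∈ HH, G.le x y ∨ G.le y x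
  trans : ∀ x ∈ HH, ∀ y ∈ HH, ∀ z ∈ HH, G.le x y → G.le y z → G.le x z
  conv : ∀ n, ∀ x ∈ HH, ∀ y ∈ HH, ∀ z ∈ HH, G.le x y → G.le y z → G.I n x → G.I n z → G.I n y
  unf : ∀ x ∈ M, ∃ n, ¬ G.I n x

theorem shrink_gap (hG : Good M r τ) {G : Gap} (hO : GapOK M r G) {P : ℕ → Prop} (hP : Df P)
    {p : NN} (hp : p ∈ M) (hL : Lg P p) {f : ℕ → ℕ} (hf : Ar f) {m : NN} (hm : m ∈ M) :
    ∃ P', Df P' ∧ ∃ p' ∈ M, Lg P' p' ∧ (∀ i, T P' (pr p' i) → T P (pr p i)) ∧
      ∃ n, ∀ i < kk, T P' (pr p' i) → ¬ G.I n (app f (pr m i)) := by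
  obtain ⟨g, hg, -, hg2⟩ := exists_majorant hf
  set t := app g (pr m kk) with ht
  have htM : t ∈ M := hG.app_mem _ hg _ (hG.pr_mem _ hm _ (hG.sup kk_mem))
  have hft : ∀ i < kk, app f (pr m i) ≤ t := fun i hi =>
    app_le_app (pr_le_pr le_rfl hi.le) hg2
  obtain ⟨PL, hPL, q, hq, h1⟩ := hO.dl.pos.intern hG (HH_pr (hG.sub htM) (hG.sub htM))
  have hle : ∀ i < kk, ∀ j < kk, (G.le (app f (pr m i)) (app f (pr m j)) ↔
      T PL (pr q (pr (app f (pr m i)) (app f (pr m j))))) := by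
    intro i hi j hj
    have h2 := h1 (pr (app f (pr m i)) (app f (pr m j))) (pr_le_pr (hft i hi) (hft j hj))
    rwa [fs_pr, sn_pr] at h2
  have hfH : ∀ i < kk, app f (pr m i) ∈ HH := fun i hi => HH_down (hG.sub htM) (hft i hi)
  -- the relation in terms of indices, with parameter (p, (q, (m, b)))
  have hmem : pr p (pr q (pr m bb)) ∈ M := hG.pr_mem _ hp _ (hG.pr_mem _ hq _ (hG.pr_mem _ hm _
    hG.bbM))
  -- lower set and upper set as internal sets with parameter (p, (q, (m, i0)))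
  set PLo : ℕ → Prop := fun n => P (Nat.pair n.unpair.1.unpair.1 n.unpair.2) ∧
    PL (Nat.pair n.unpair.1.unpair.2.unpair.1 (Nat.pair
      (f (Nat.pair n.unpair.1.unpair.2.unpair.2.unpair.1 n.unpair.2))
      (f (Nat.pair n.unpair.1.unpair.2.unpair.2.unpair.1
        n.unpair.1.unpair.2.unpair.2.unpair.2)))) with hPLo
  set PHi : ℕ → Prop := fun n => P (Nat.pair n.unpair.1.unpair.1 n.unpair.2) ∧
    PL (Nat.pair n.unpair.1.unpair.2.unpair.1 (Nat.pair
      (f (Nat.pair n.unpair.1.unpair.2.unpair.2.unpair.1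
        n.unpair.1.unpair.2.unpair.2.unpair.2))
      (f (Nat.pair n.unpair.1.unpair.2.unpair.2.unpair.1 n.unpair.2)))) with hPHi
  have hDLo : Df PLo := (hP.comp (Ar.fst'.fst.pair Ar.snd')).and (hPL.comp
    (Ar.fst'.snd.fst.pair ((hf.comp (Ar.fst'.snd.snd.fst.pair Ar.snd')).pair
      (hf.comp (Ar.fst'.snd.snd.fst.pair Ar.fst'.snd.snd.snd)))))
  have hDHi : Df PHi := (hP.comp (Ar.fst'.fst.pair Ar.snd')).and (hPL.comp
    (Ar.fst'.snd.fst.pair ((hf.comp (Ar.fst'.snd.snd.fst.pair Ar.fst'.snd.snd.snd)).pair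
      (hf.comp (Ar.fst'.snd.snd.fst.pair Ar.snd')))))
  have hTLo : ∀ i0 i, T PLo (pr (pr p (pr q (pr m i0))) i) ↔ T P (pr p i) ∧
      T PL (pr q (pr (app f (pr m i)) (app f (pr m i0)))) := by
    intro i0 i
    obtain ⟨p, rfl⟩ := ex_rep p
    obtain ⟨q, rfl⟩ := ex_rep q
    obtain ⟨m, rfl⟩ := ex_rep m
    obtain ⟨i0, rfl⟩ := ex_rep i0
    obtain ⟨i, rfl⟩ := ex_rep i
    simp only [hPLo, pr_coe, app_coe, T_coe, Nat.unpair_pair, eventually_and]
  have hTHi : ∀ i0 i, T PHi (pr (pr p (pr q (pr m i0))) i) ↔ T P (pr p i) ∧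
      T PL (pr q (pr (app f (pr m i0)) (app f (pr m i)))) := by
    intro i0 i
    obtain ⟨p, rfl⟩ := ex_rep p
    obtain ⟨q, rfl⟩ := ex_rep q
    obtain ⟨m, rfl⟩ := ex_rep m
    obtain ⟨i0, rfl⟩ := ex_rep i0
    obtain ⟨i, rfl⟩ := ex_rep i
    simp only [hPHi, pr_coe, app_coe, T_coe, Nat.unpair_pair, eventually_and]
  -- the median relation
  set Med : ℕ → Prop := fun n =>
    n.unpair.2 < n.unpair.1.unpair.2.unpair.2.unpair.2 ^ 2 ∧
    sz P n.unpair.1.unpair.1 n.unpair.1.unpair.2.unpair.2.unpair.2 ≤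
      4 * sz PLo (Nat.pair n.unpair.1.unpair.1 (Nat.pair n.unpair.1.unpair.2.unpair.1
        (Nat.pair n.unpair.1.unpair.2.unpair.2.unpair.1 n.unpair.2)))
        n.unpair.1.unpair.2.unpair.2.unpair.2 ∧
    sz P n.unpair.1.unpair.1 n.unpair.1.unpair.2.unpair.2.unpair.2 ≤
      4 * sz PHi (Nat.pair n.unpair.1.unpair.1 (Nat.pair n.unpair.1.unpair.2.unpair.1
        (Nat.pair n.unpair.1.unpair.2.unpair.2.unpair.1 n.unpair.2)))
        n.unpair.1.unpair.2.unpair.2.unpair.2 with hMed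
  have hDMed : Df Med := by
    have hb : Ar (fun n => n.unpair.1.unpair.2.unpair.2.unpair.2) := Ar.fst'.snd.snd.snd
    have ht : Ar (fun n => Nat.pair n.unpair.1.unpair.1 (Nat.pair n.unpair.1.unpair.2.unpair.1
        (Nat.pair n.unpair.1.unpair.2.unpair.2.unpair.1 n.unpair.2))) :=
      Ar.fst'.fst.pair (Ar.fst'.snd.fst.pair (Ar.fst'.snd.snd.fst.pair Ar.snd'))
    exact (Df.lt Ar.snd' (hb.pow (Ar.const 2))).and
      ((Df.le (ar_sz hP Ar.fst'.fst hb) ((Ar.const 4).mul (ar_sz hDLo ht hb))).and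
      (Df.le (ar_sz hP Ar.fst'.fst hb) ((Ar.const 4).mul (ar_sz hDHi ht hb))))
  -- existence of the median
  have hex : ∃ i0 : NN, T Med (pr (pr p (pr q (pr m bb))) i0) := by
    have htotN : ∀ i, i < kk → ∀ j, j < kk → T PL (pr q (pr (app f (pr m i)) (app f (pr m j)))) ∨
        T PL (pr q (pr (app f (pr m j)) (app f (pr m i)))) := by
      intro i hi j hj
      rw [← hle i hi j hj, ← hle j hj i hi]
      exact hO.total _ (hfH i hi) _ (hfH j hj)
    have htrN : ∀ i, i < kk → ∀ j, j < kk → ∀ k, k < kk →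
        T PL (pr q (pr (app f (pr m i)) (app f (pr m j)))) →
        T PL (pr q (pr (app f (pr m j)) (app f (pr m k)))) →
        T PL (pr q (pr (app f (pr m i)) (app f (pr m k)))) := by
      intro i hi j hj k hk
      rw [← hle i hi j hj, ← hle j hj k hk, ← hle i hi k hk]
      exact hO.trans _ (hfH i hi) _ (hfH j hj) _ (hfH k hk)
    clear_value PLo PHi Med t
    clear hle hfH hft h1 hTLo hTHi hDMed
    obtain ⟨p, rfl⟩ := ex_rep p
    obtain ⟨q, rfl⟩ := ex_rep q
    obtain ⟨m, rfl⟩ := ex_rep m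
    rw [kk_coe] at htotN htrN
    rw [Lg_coe] at hL
    rw [los_all (Q := fun x i => i < x ^ 2 → ∀ j, j < x ^ 2 →
        PL (Nat.pair (q x) (Nat.pair (f (Nat.pair (m x) i)) (f (Nat.pair (m x) j)))) ∨
        PL (Nat.pair (q x) (Nat.pair (f (Nat.pair (m x) j)) (f (Nat.pair (m x) i)))))
      (fun i => by
        rw [los_all (Q := fun x j => j < x ^ 2 →
          PL (Nat.pair (q x) (Nat.pair (f (Nat.pair (m x) (i x))) (f (Nat.pair (m x) j)))) ∨
          PL (Nat.pair (q x) (Nat.pair (f (Nat.pair (m x) j)) (f (Nat.pair (m x) (i x))))))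
          (fun j => by simp only [pr_coe, app_coe, T_coe, Germ.coe_lt,
            Ultrafilter.eventually_imp, Ultrafilter.eventually_or])]
        simp only [Germ.coe_lt, Ultrafilter.eventually_imp])] at htotN
    rw [los_all (Q := fun x i => i < x ^ 2 → ∀ j, j < x ^ 2 → ∀ k, k < x ^ 2 →
        PL (Nat.pair (q x) (Nat.pair (f (Nat.pair (m x) i)) (f (Nat.pair (m x) j)))) →
        PL (Nat.pair (q x) (Nat.pair (f (Nat.pair (m x) j)) (f (Nat.pair (m x) k)))) →
        PL (Nat.pair (q x) (Nat.pair (f (Nat.pair (m x) i)) (f (Nat.pair (m x) k)))))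
      (fun i => by
        rw [los_all (Q := fun x j => j < x ^ 2 → ∀ k, k < x ^ 2 →
          PL (Nat.pair (q x) (Nat.pair (f (Nat.pair (m x) (i x))) (f (Nat.pair (m x) j)))) →
          PL (Nat.pair (q x) (Nat.pair (f (Nat.pair (m x) j)) (f (Nat.pair (m x) k)))) →
          PL (Nat.pair (q x) (Nat.pair (f (Nat.pair (m x) (i x))) (f (Nat.pair (m x) k)))))
          (fun j => by
            rw [los_all (Q := fun x k => k < x ^ 2 →
              PL (Nat.pair (q x) (Nat.pair (f (Nat.pair (m x) (i x))) (f (Nat.pair (m x) (j x))))) →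
              PL (Nat.pair (q x) (Nat.pair (f (Nat.pair (m x) (j x))) (f (Nat.pair (m x) k)))) →
              PL (Nat.pair (q x) (Nat.pair (f (Nat.pair (m x) (i x))) (f (Nat.pair (m x) k)))))
              (fun k => by simp only [pr_coe, app_coe, T_coe, Germ.coe_lt,
                Ultrafilter.eventually_imp])]
            simp only [Germ.coe_lt, Ultrafilter.eventually_imp])]
        simp only [Germ.coe_lt, Ultrafilter.eventually_imp])] at htrN
    rw [los_ex (Q := fun x i0 => i0 < x ^ 2 ∧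
        sz P (p x) x ≤ 4 * sz PLo (Nat.pair (p x) (Nat.pair (q x) (Nat.pair (m x) i0))) x ∧
        sz P (p x) x ≤ 4 * sz PHi (Nat.pair (p x) (Nat.pair (q x) (Nat.pair (m x) i0))) x)
        (fun i0 => by
          rw [hMed]
          simp only [bb, pr_coe, T_coe, Nat.unpair_pair])]
    filter_upwards [htotN, htrN, hL 0] with x h1 h2 h3
    set U := ss P (p x) x with hU
    have hcard : U.card = sz P (p x) x := rfl
    have hne : U.Nonempty := by
      rw [← Finset.card_pos, hcard]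
      omega
    have hUr : ∀ i ∈ U, i < x ^ 2 := fun i hi => (mem_ss.1 hi).1
    obtain ⟨i0, hi0, h4, h5⟩ := median U
      (fun i j => PL (Nat.pair (q x) (Nat.pair (f (Nat.pair (m x) i)) (f (Nat.pair (m x) j)))))
      hne (fun i hi j hj => h1 i (hUr i hi) j (hUr j hj))
      (fun i hi j hj k hk => h2 i (hUr i hi) j (hUr j hj) k (hUr k hk))
    refine ⟨i0, hUr i0 hi0, ?_, ?_⟩
    · rw [← hcard]
      refine h4.trans (Nat.mul_le_mul le_rfl (le_of_eq ?_))
      congr 1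
      ext j
      rw [Finset.mem_filter, mem_ss, mem_ss, hPLo]
      simp only [Nat.unpair_pair]
      tauto
    · rw [← hcard]
      refine h5.trans (Nat.mul_le_mul le_rfl (le_of_eq ?_))
      congr 1
      ext j
      rw [Finset.mem_filter, mem_ss, mem_ss, hPHi]
      simp only [Nat.unpair_pair]
      tauto
  obtain ⟨i0, hi0M, hi0, -⟩ := hG.search hDMed hmem hex
  have hi0' : i0 < kk ∧
      (∀ l : ℕ, (∀ j : ℕ, T (fun m => j * m.unpair.2 < sz P m.unpair.1 m.unpair.2) (pr p bb)) →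
        T (fun m => l * m.unpair.2 < sz PLo m.unpair.1 m.unpair.2)
          (pr (pr p (pr q (pr m i0))) bb)) ∧
      (∀ l : ℕ, (∀ j : ℕ, T (fun m => j * m.unpair.2 < sz P m.unpair.1 m.unpair.2) (pr p bb)) →
        T (fun m => l * m.unpair.2 < sz PHi m.unpair.1 m.unpair.2)
          (pr (pr p (pr q (pr m i0))) bb)) := by
    clear_value PLo PHi Med t
    clear hle hfH hft h1 hTLo hTHi hDMed hex
    obtain ⟨p, rfl⟩ := ex_rep p
    obtain ⟨q, rfl⟩ := ex_rep q
    obtain ⟨m, rfl⟩ := ex_rep m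
    obtain ⟨i0, rfl⟩ := ex_rep i0
    rw [hMed] at hi0
    simp only [bb, pr_coe, T_coe, Nat.unpair_pair] at hi0
    refine ⟨?_, fun l hl => ?_, fun l hl => ?_⟩
    · rw [kk_coe, Germ.coe_lt]
      exact hi0.mono fun x hx => hx.1
    · have hl' := hl (4 * l)
      simp only [bb, pr_coe, T_coe, Nat.unpair_pair] at hl' ⊢
      filter_upwards [hl', hi0] with x h1 h2
      have := h2.2.1
      by_contra h3
      push Not at h3
      have h4 : 4 * l * x = 4 * (l * x) := by ring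
      omega
    · have hl' := hl (4 * l)
      simp only [bb, pr_coe, T_coe, Nat.unpair_pair] at hl' ⊢
      filter_upwards [hl', hi0] with x h1 h2
      have := h2.2.2
      by_contra h3
      push Not at h3
      have h4 : 4 * l * x = 4 * (l * x) := by ring
      omega
  obtain ⟨hi0k, hLLo, hLHi⟩ := hi0'
  have hx0M : app f (pr m i0) ∈ M := hG.app_mem _ hf _ (hG.pr_mem _ hm _ hi0M)
  obtain ⟨n, hn⟩ := hO.unf _ hx0M
  have hp'M : pr p (pr q (pr m i0)) ∈ M :=
    hG.pr_mem _ hp _ (hG.pr_mem _ hq _ (hG.pr_mem _ hm _ hi0M))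
  by_cases hcase : ∀ y ∈ HH, G.le y (app f (pr m i0)) → ¬ G.I n y
  · refine ⟨PLo, hDLo, _, hp'M, fun l => hLLo l hL, fun i hi => ((hTLo i0 i).1 hi).1, n,
      fun i hi hi2 => hcase _ (hfH i hi) ?_⟩
    exact (hle i hi i0 hi0k).2 ((hTLo i0 i).1 hi2).2
  · push Not at hcase
    obtain ⟨y, hy, h2, h3⟩ := hcase
    refine ⟨PHi, hDHi, _, hp'M, fun l => hLHi l hL, fun i hi => ((hTHi i0 i).1 hi).1, n,
      fun i hi hi2 hI => hn ?_⟩
    exact hO.conv n y hy _ (hG.sub hx0M) _ (hfH i hi) h2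
      ((hle i0 hi0k i hi).2 ((hTHi i0 i).1 hi2).2) h3 hI

theorem shrink_small (hG : Good M r τ) {P : ℕ → Prop} (hP : Df P)
    {p : NN} (hp : p ∈ M) (hL : Lg P p) {D : ℕ → Prop} (hD : Df D) {d : NN} (hd : d ∈ M)
    (hS : Sm D d) :
    ∃ P', Df P' ∧ ∃ p' ∈ M, Lg P' p' ∧ (∀ i, T P' (pr p' i) → T P (pr p i)) ∧
      ∀ i, T P' (pr p' i) → ¬ T D (pr d i) := by
  refine ⟨fun n => P (Nat.pair n.unpair.1.unpair.1 n.unpair.2) ∧
    ¬ D (Nat.pair n.unpair.1.unpair.2 n.unpair.2),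
    (hP.comp (Ar.fst'.fst.pair Ar.snd')).and (hD.comp (Ar.fst'.snd.pair Ar.snd')).not,
    pr p d, hG.pr_mem _ hp _ hd, ?_, ?_, ?_⟩
  · obtain ⟨p, rfl⟩ := ex_rep p
    obtain ⟨d, rfl⟩ := ex_rep d
    rw [pr_coe, Lg_coe]
    rw [Lg_coe] at hL
    rw [Sm_coe] at hS
    intro l
    filter_upwards [hL (l + 1), hS] with x h1 h2
    have h3 : sz P (p x) x ≤ sz (fun n => P (Nat.pair n.unpair.1.unpair.1 n.unpair.2) ∧
        ¬ D (Nat.pair n.unpair.1.unpair.2 n.unpair.2)) (Nat.pair (p x) (d x)) x +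
        sz D (d x) x := by
      unfold sz
      refine (Finset.card_le_card ?_).trans (Finset.card_union_le _ _)
      intro i hi
      rw [mem_ss] at hi
      rw [Finset.mem_union, mem_ss, mem_ss]
      simp only [Nat.unpair_pair]
      by_cases h4 : D (Nat.pair (d x) i)
      · exact Or.inr ⟨hi.1, h4⟩
      · exact Or.inl ⟨hi.1, hi.2, h4⟩
    have h4 : (l + 1) * x = l * x + x := by ring
    omega
  · intro i
    obtain ⟨p, rfl⟩ := ex_rep p
    obtain ⟨d, rfl⟩ := ex_rep d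
    obtain ⟨i, rfl⟩ := ex_rep i
    simp only [pr_coe, T_coe, Nat.unpair_pair]
    exact fun h => h.mono fun x hx => hx.1
  · intro i
    obtain ⟨p, rfl⟩ := ex_rep p
    obtain ⟨d, rfl⟩ := ex_rep d
    obtain ⟨i, rfl⟩ := ex_rep i
    simp only [pr_coe, T_coe, Nat.unpair_pair]
    intro h
    rw [← Ultrafilter.eventually_not]
    exact h.mono fun x hx => hx.2

/-- saturation -/
theorem saturate (P : ℕ → ℕ → Prop) (p : ℕ → NN) (hL : ∀ n, Lg (P n) (p n))
    (hdec : ∀ n i, T (P (n + 1)) (pr (p (n + 1)) i) → T (P n) (pr (p n) i)) :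
    ∃ i < kk, ∀ n, T (P n) (pr (p n) i) := by
  choose q hq using fun n => ex_rep (p n)
  have hdec' : ∀ n, ∀ᶠ x in (UU : Filter ℕ), ∀ i, P (n + 1) (Nat.pair (q (n + 1) x) i) →
      P n (Nat.pair (q n x) i) := by
    intro n
    have h := hdec n
    rw [← hq n, ← hq (n + 1)] at h
    rwa [los_all (Q := fun x i => P (n + 1) (Nat.pair (q (n + 1) x) i) →
      P n (Nat.pair (q n x) i)) (fun i => by
      simp only [pr_coe, T_coe, Ultrafilter.eventually_imp])] at h
  have hne : ∀ n, ∀ᶠ x in (UU : Filter ℕ), ∃ i < x ^ 2, P n (Nat.pair (q n x) i) := by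
    intro n
    have h := hL n
    rw [← hq n, Lg_coe] at h
    refine (h 0).mono fun x hx => ?_
    have h2 : 0 < sz (P n) (q n x) x := by omega
    obtain ⟨i, hi⟩ := Finset.card_pos.1 h2
    rw [mem_ss] at hi
    exact ⟨i, hi.1, hi.2⟩
  have hall : ∀ n, ∀ᶠ x in (UU : Filter ℕ), ∃ i < x ^ 2, ∀ m ≤ n, P m (Nat.pair (q m x) i) := by
    intro n
    have h1 : ∀ᶠ x in (UU : Filter ℕ), ∀ i, P n (Nat.pair (q n x) i) →
        ∀ m ≤ n, P m (Nat.pair (q m x) i) := by
      induction n with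
      | zero =>
        refine Eventually.of_forall fun x i hi m hm => ?_
        obtain rfl : m = 0 := by omega
        exact hi
      | succ n ih =>
        filter_upwards [ih, hdec' n] with x h1 h2 i hi m hm
        rcases Nat.lt_or_ge n m with h | h
        · obtain rfl : m = n + 1 := by omega
          exact hi
        · exact h1 i (h2 i hi) m h
    filter_upwards [h1, hne n] with x h2 h3
    obtain ⟨i, hi, h4⟩ := h3
    exact ⟨i, hi, h2 i h4⟩
  set N : ℕ → ℕ := fun x => Nat.findGreatest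
    (fun n => ∃ i < x ^ 2, ∀ m ≤ n, P m (Nat.pair (q m x) i)) x with hN
  set f : ℕ → ℕ := fun x => if h : ∃ i < x ^ 2, ∀ m ≤ N x, P m (Nat.pair (q m x) i) then
    h.choose else 0 with hf
  have hgood : ∀ n, ∀ᶠ x in (UU : Filter ℕ), f x < x ^ 2 ∧ P n (Nat.pair (q n x) (f x)) := by
    intro n
    have hcof : ∀ᶠ x in (UU : Filter ℕ), n ≤ x := by
      have : ∀ᶠ x in (cofinite : Filter ℕ), n ≤ x := by
        rw [Nat.cofinite_eq_atTop]
        exact eventually_ge_atTop n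
      exact hyperfilter_le_cofinite this
    filter_upwards [hall n, hcof] with x h1 h2
    have h3 : n ≤ N x := Nat.le_findGreatest h2 h1
    have h4 : ∃ i < x ^ 2, ∀ m ≤ N x, P m (Nat.pair (q m x) i) :=
      Nat.findGreatest_spec (P := fun n => ∃ i < x ^ 2, ∀ m ≤ n, P m (Nat.pair (q m x) i)) h2 h1
    have h5 : f x = h4.choose := by rw [hf]; exact dif_pos h4
    rw [h5]
    exact ⟨h4.choose_spec.1, h4.choose_spec.2 n h3⟩
  refine ⟨(f : NN), ?_, fun n => ?_⟩
  · rw [kk_coe, Germ.coe_lt]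
    exact (hgood 0).mono fun x hx => hx.1
  · rw [← hq n, pr_coe, T_coe]
    exact (hgood n).mono fun x hx => hx.2

theorem Lg_all : Lg (fun _ => True) bb := by
  have h : Lg (fun _ => True) ((fun i => i : ℕ → ℕ) : NN) := by
    rw [Lg_coe]
    intro l
    have : ∀ᶠ x in (cofinite : Filter ℕ), l + 1 ≤ x := by
      rw [Nat.cofinite_eq_atTop]
      exact eventually_ge_atTop _
    have h2 : ∀ᶠ x in (UU : Filter ℕ), l + 1 ≤ x := hyperfilter_le_cofinite this
    refine h2.mono fun x hx => ?_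
    have h3 : sz (fun _ => True) x x = x ^ 2 := by
      have h4 : ss (fun _ => True) x x = Finset.range (x ^ 2) := by
        ext i
        rw [mem_ss, Finset.mem_range]
        simp
      rw [sz, h4, Finset.card_range]
    rw [h3, pow_two]
    exact Nat.mul_lt_mul_of_pos_right hx (by omega)
  exact h

/-- the new element -/
theorem exists_new (hG : Good M r τ) (hcM : M.Countable) (Γ : Set Gap) (hΓ : Γ.Countable)
    (hOK : ∀ G ∈ Γ, GapOK M r G) :
    ∃ i < kk, (∀ D, Df D → ∀ d ∈ M, Sm D d → ¬ T D (pr d i)) ∧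
      ∀ G ∈ Γ, ∀ f, Ar f → ∀ m ∈ M, ∃ n, ¬ G.I n (app f (pr m i)) := by
  have : Countable M := hcM.to_subtype
  have : Nonempty M := ⟨⟨bb, hG.bbM⟩⟩
  have : Countable Γ := hΓ.to_subtype
  obtain ⟨e, he⟩ := exists_surjective_nat ((Cd × M) × Option (Γ))
  have hstep : ∀ (n : ℕ) (a : {x : (ℕ → Prop) × NN // Df x.1 ∧ x.2 ∈ M ∧ Lg x.1 x.2}),
      ∃ a' : {x : (ℕ → Prop) × NN // Df x.1 ∧ x.2 ∈ M ∧ Lg x.1 x.2},
        (∀ i, T a'.1.1 (pr a'.1.2 i) → T a.1.1 (pr a.1.2 i)) ∧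
        ((e n).2 = none → Sm (fun m => (e n).1.1.ev m = 0) (e n).1.2 →
          ∀ i, T a'.1.1 (pr a'.1.2 i) → ¬ T (fun m => (e n).1.1.ev m = 0) (pr (e n).1.2 i)) ∧
        (∀ G : Γ, (e n).2 = some G → ∃ j, ∀ i < kk, T a'.1.1 (pr a'.1.2 i) →
          ¬ G.1.I j (app (e n).1.1.ev (pr (e n).1.2 i))) := by
    intro n a
    rcases h : (e n).2 with _ | G
    · by_cases hS : Sm (fun m => (e n).1.1.ev m = 0) (e n).1.2
      · obtain ⟨P', h1, p', h2, h3, h4, h5⟩ := shrink_small hG a.2.1 a.2.2.1 a.2.2.2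
          (Df.of_ar ⟨(e n).1.1, rfl⟩) (e n).1.2.2 hS
        exact ⟨⟨(P', p'), h1, h2, h3⟩, h4, fun _ _ => h5, fun G hG' => by simp at hG'⟩
      · exact ⟨a, fun i h => h, fun _ h2 => absurd h2 hS, fun G hG' => by simp at hG'⟩
    · obtain ⟨P', h1, p', h2, h3, h4, h5⟩ := shrink_gap hG (hOK G.1 G.2) a.2.1 a.2.2.1 a.2.2.2
          ⟨(e n).1.1, rfl⟩ (e n).1.2.2
      refine ⟨⟨(P', p'), h1, h2, h3⟩, h4, fun h6 => by simp at h6, fun G' hG' => ?_⟩
      have : G = G' := by simpa using hG'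
      subst this
      exact h5
  choose nx hnx1 hnx2 hnx3 using hstep
  let a : ℕ → {x : (ℕ → Prop) × NN // Df x.1 ∧ x.2 ∈ M ∧ Lg x.1 x.2} := fun n =>
    Nat.rec ⟨(fun _ => True, bb), Df.true, hG.bbM, Lg_all⟩ (fun n b => nx n b) n
  have has : ∀ n, a (n + 1) = nx n (a n) := fun n => rfl
  obtain ⟨i, hik, hi⟩ := saturate (fun n => (a n).1.1) (fun n => (a n).1.2)
    (fun n => (a n).2.2.2) (fun n i h => hnx1 n (a n) i (by rw [← has]; exact h))
  refine ⟨i, hik, ?_, ?_⟩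
  · intro D hD d hd hS
    obtain ⟨c, hc⟩ := hD
    have hDc : D = fun m => c.ev m = 0 := funext fun m => propext (hc m)
    obtain ⟨n, hn⟩ := he ((c, ⟨d, hd⟩), none)
    have h1 := hnx2 n (a n)
    rw [hn, ← has] at h1
    rw [hDc] at hS ⊢
    exact h1 rfl hS i (hi (n + 1))
  · intro G hGΓ f hf m hm
    obtain ⟨c, rfl⟩ := hf
    obtain ⟨n, hn⟩ := he ((c, ⟨m, hm⟩), some ⟨G, hGΓ⟩)
    have h1 := hnx3 n (a n) ⟨G, hGΓ⟩
    rw [hn, ← has] at h1
    obtain ⟨j, hj⟩ := h1 rfl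
    exact ⟨j, hj i hik (hi (n + 1))⟩

end Pool.Agent.Lib.MP_82b75a_lc
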