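import Pool.Agent.Lib.MP_82b75a_lc.Delta

/-!
# The forcing lemma
-/

namespace Pool.Agent.Lib.MP_82b75a_lc

open Classical Filter

variable {M : Set NN} {r : NN → NN} {τ : ℕ → ℕ}

/-- `(c', s')` is a valid extension of `(c, s)` -/
def Val (K : NN) (Q : NN → NN → Prop) (c s c' s' : NN) : Prop :=
  s ≤ s' ∧ (∀ y < s, gt c' y = gt c y) ∧ ∀ y < s', s ≤ y → gt c' y < K ∧ Q y (gt c' y)

theorem Val.refl (K : NN) (Q : NN → NN → Prop) (c s : NN) : Val K Q c s c s :=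
  ⟨le_rfl, fun _ _ => rfl, fun _ h1 h2 => absurd h1 (not_lt.2 h2)⟩

theorem Val.mono {K : NN} {Q Q' : NN → NN → Prop} (h : ∀ y v, Q y v → Q' y v) {c s c' s' : NN}
    (hv : Val K Q c s c' s') : Val K Q' c s c' s' :=
  ⟨hv.1, hv.2.1, fun y h1 h2 => ⟨(hv.2.2 y h1 h2).1, h _ _ (hv.2.2 y h1 h2).2⟩⟩

theorem Val.trans {K : NN} {Q : NN → NN → Prop} {c s c' s' c'' s'' : NN}
    (h1 : Val K Q c s c' s') (h2 : Val K Q c' s' c'' s'') : Val K Q c s c'' s'' := by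
  refine ⟨h1.1.trans h2.1, fun y hy => ?_, fun y hy hsy => ?_⟩
  · rw [h2.2.1 y (lt_of_lt_of_le hy h1.1), h1.2.1 y hy]
  · rcases lt_or_ge y s' with h3 | h3
    · rw [h2.2.1 y h3]
      exact h1.2.2 y h3 hsy
    · exact h2.2.2 y hy h3

theorem Sg.val (hG : Good M r τ) {K : NN} (hK : K ∈ M) {Q : NN → NN → Prop}
    (hQ : Sg M r (fun a => Q (fs a) (sn a))) {c s : NN} (hc : c ∈ M) (hs : s ∈ M) :
    Sg M r (fun a => Val K Q c s (fs a) (sn a)) := by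
  have hid := Fn.id hG
  refine Sg.and hG ?_ (Sg.and hG ?_ ?_)
  · exact (Dl.le hG (Fn.const hs) hid.sn).pos
  · refine Sg.ball (A := fun a y => gt (fs a) y = gt c y) hG ?_ (Fn.const hs)
    exact (Dl.eq hG (Fn.gt hG hid.fs.fs hid.sn) (Fn.gt hG (Fn.const hc) hid.sn)).pos
  · refine Sg.ball (A := fun a y => s ≤ y → gt (fs a) y < K ∧ Q y (gt (fs a) y)) hG ?_ hid.sn
    have h1 : Sg M r (fun a => ¬ s ≤ sn a) := (Dl.le hG (Fn.const hs) hid.sn).neg
    have h2 : Sg M r (fun a => gt (fs (fs a)) (sn a) < K ∧ Q (sn a) (gt (fs (fs a)) (sn a))) := by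
      refine (Dl.lt hG (Fn.gt hG hid.fs.fs hid.sn) (Fn.const hK)).pos.and hG ?_
      have h3 := hQ.sub hG (Fn.pr hG hid.sn (Fn.gt hG hid.fs.fs hid.sn))
      simpa only [fs_pr, sn_pr] using h3
    exact (h1.or hG h2).congr fun a _ => by tauto

/-- existence of valid extensions in the hull -/
theorem exists_val (hG : Good M r τ) {K : NN} (hK : K ∈ M) {Q : NN → NN → Prop}
    (hQ : Sg M r (fun a => Q (fs a) (sn a))) (htot : ∀ y ∈ HH, ∃ v < K, Q y v)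
    {c s s' y0 : NN} (hc : c ∈ M) (hs : s ∈ M) (hs' : s' ∈ HH) (hss : s ≤ s') (hy0 : y0 ∈ HH)
    (h0 : s' ≤ y0 ∨ (Q y0 1 ∧ 1 < K)) :
    ∃ c' ∈ HH, Val K Q c s c' s' ∧ (y0 < s' → s ≤ y0 → gt c' y0 = 1) := by
  obtain ⟨P, hP, q, hq, h1⟩ := hQ.intern hG (HH_pr hs' (hG.sub hK))
  have hQP : ∀ y < s', ∀ v < K, (Q y v ↔ T P (pr q (pr y v))) := by
    intro y hy v hv
    have h2 := h1 (pr y v) (pr_le_pr hy.le hv.le)
    rwa [fs_pr, sn_pr] at h2
  -- the relation for the choice, with parameter (q, (c, (s, (K, y0))))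
  have hD : Df (fun n =>
      (n.unpair.2.unpair.1 < n.unpair.1.unpair.2.unpair.2.unpair.1 →
        n.unpair.2.unpair.2 = get n.unpair.1.unpair.2.unpair.1 n.unpair.2.unpair.1) ∧
      (n.unpair.1.unpair.2.unpair.2.unpair.1 ≤ n.unpair.2.unpair.1 →
        n.unpair.2.unpair.2 < n.unpair.1.unpair.2.unpair.2.unpair.2.unpair.1 ∧
        P (Nat.pair n.unpair.1.unpair.1 n.unpair.2) ∧
        (n.unpair.2.unpair.1 = n.unpair.1.unpair.2.unpair.2.unpair.2.unpair.2 →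
          n.unpair.2.unpair.2 = 1))) := by
    refine ((Df.lt Ar.snd'.fst Ar.fst'.snd.snd.fst).imp
      (Df.eq Ar.snd'.snd (Ar.get Ar.fst'.snd.fst Ar.snd'.fst))).and ?_
    refine (Df.le Ar.fst'.snd.snd.fst Ar.snd'.fst).imp ?_
    refine (Df.lt Ar.snd'.snd Ar.fst'.snd.snd.snd.fst).and ?_
    refine (hP.comp (Ar.fst'.fst.pair Ar.snd')).and ?_
    exact (Df.eq Ar.snd'.fst Ar.fst'.snd.snd.snd.snd).imp (Df.eq Ar.snd'.snd (Ar.const 1))
  obtain ⟨g, hg, h2⟩ := seq_choice hD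
  have key : ∀ y v : NN, T (fun n =>
      (n.unpair.2.unpair.1 < n.unpair.1.unpair.2.unpair.2.unpair.1 →
        n.unpair.2.unpair.2 = get n.unpair.1.unpair.2.unpair.1 n.unpair.2.unpair.1) ∧
      (n.unpair.1.unpair.2.unpair.2.unpair.1 ≤ n.unpair.2.unpair.1 →
        n.unpair.2.unpair.2 < n.unpair.1.unpair.2.unpair.2.unpair.2.unpair.1 ∧
        P (Nat.pair n.unpair.1.unpair.1 n.unpair.2) ∧
        (n.unpair.2.unpair.1 = n.unpair.1.unpair.2.unpair.2.unpair.2.unpair.2 →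
          n.unpair.2.unpair.2 = 1))) (pr (pr q (pr c (pr s (pr K y0)))) (pr y v)) ↔
      (y < s → v = gt c y) ∧ (s ≤ y → v < K ∧ T P (pr q (pr y v)) ∧ (y = y0 → v = 1)) := by
    intro y v
    obtain ⟨q, rfl⟩ := ex_rep q
    obtain ⟨c, rfl⟩ := ex_rep c
    obtain ⟨s, rfl⟩ := ex_rep s
    obtain ⟨K, rfl⟩ := ex_rep K
    obtain ⟨y0, rfl⟩ := ex_rep y0
    obtain ⟨y, rfl⟩ := ex_rep y
    obtain ⟨v, rfl⟩ := ex_rep v
    have e1 : ((v : NN) = 1) ↔ ∀ᶠ i in (UU : Filter ℕ), v i = 1 := coe_eq_coe (g := fun _ => 1)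
    simp only [pr_coe, gt_coe, T_coe, Nat.unpair_pair, Germ.coe_lt, Germ.coe_le, coe_eq_coe,
      eventually_and, Ultrafilter.eventually_imp, e1]
    rfl
  have hex : ∀ y < s', ∃ v, T (fun n =>
      (n.unpair.2.unpair.1 < n.unpair.1.unpair.2.unpair.2.unpair.1 →
        n.unpair.2.unpair.2 = get n.unpair.1.unpair.2.unpair.1 n.unpair.2.unpair.1) ∧
      (n.unpair.1.unpair.2.unpair.2.unpair.1 ≤ n.unpair.2.unpair.1 →
        n.unpair.2.unpair.2 < n.unpair.1.unpair.2.unpair.2.unpair.2.unpair.1 ∧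
        P (Nat.pair n.unpair.1.unpair.1 n.unpair.2) ∧
        (n.unpair.2.unpair.1 = n.unpair.1.unpair.2.unpair.2.unpair.2.unpair.2 →
          n.unpair.2.unpair.2 = 1))) (pr (pr q (pr c (pr s (pr K y0)))) (pr y v)) := by
    intro y hy
    rcases lt_or_ge y s with h3 | h3
    · exact ⟨gt c y, (key _ _).2 ⟨fun _ => rfl, fun h4 => absurd h3 (not_lt.2 h4)⟩⟩
    · by_cases h4 : y = y0
      · subst h4
        have h5 : Q y 1 ∧ 1 < K := by
          rcases h0 with h0 | h0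
          · exact absurd hy (not_lt.2 h0)
          · exact h0
        exact ⟨1, (key _ _).2 ⟨fun h6 => absurd h6 (not_lt.2 h3), fun _ => ⟨h5.2,
          (hQP y hy 1 h5.2).1 h5.1, fun _ => rfl⟩⟩⟩
      · obtain ⟨v, hv, hQv⟩ := htot y (HH_down hs' hy.le)
        exact ⟨v, (key _ _).2 ⟨fun h6 => absurd h6 (not_lt.2 h3), fun _ => ⟨hv,
          (hQP y hy v hv).1 hQv, fun h7 => absurd h7 h4⟩⟩⟩
  have h3 := h2 _ s' hex
  have hpH : pr (pr q (pr c (pr s (pr K y0)))) s' ∈ HH :=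
    HH_pr (HH_pr (hG.sub hq) (HH_pr (hG.sub hc) (HH_pr (hG.sub hs) (HH_pr (hG.sub hK) hy0)))) hs'
  refine ⟨_, HH_app hg hpH, ⟨hss, fun y hy => ?_, fun y hy hsy => ?_⟩, fun hy hsy => ?_⟩
  · exact ((key _ _).1 (h3 y (lt_of_lt_of_le hy hss))).1 hy
  · obtain ⟨h4, h5, h6⟩ := ((key _ _).1 (h3 y hy)).2 hsy
    exact ⟨h4, (hQP y hy _ h4).2 h5⟩
  · obtain ⟨h4, h5, h6⟩ := ((key _ _).1 (h3 y0 hy)).2 hsy
    exact h6 rfl

/-- bits -/
def BT (w x : NN) : Prop := T (fun n => n.unpair.1.testBit n.unpair.2 = true) (pr w x)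

theorem df_testBit : Df (fun n => n.unpair.1.testBit n.unpair.2 = true) := by
  refine (Df.eq ((Ar.fst'.div ((Ar.const 2).pow Ar.snd')).mod (Ar.const 2)) (Ar.const 1)).iff
    fun n => ?_
  rw [Nat.testBit_eq_decide_div_mod_eq]
  simp

theorem BT_coe (w x : ℕ → ℕ) :
    BT (w : NN) (x : NN) ↔ ∀ᶠ i in (UU : Filter ℕ), (w i).testBit (x i) = true := by
  simp only [BT, pr_coe, T_coe, Nat.unpair_pair]

/-- `2 ^ t - 1` -/
noncomputable def top2 (t : NN) : NN := app (fun n => 2 ^ n - 1) t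

theorem add_bit {w x t : NN} (hx : x < t) (hw : w ≤ top2 t) (hb : ¬ BT w x) :
    ∃ w1, w < w1 ∧ w1 ≤ top2 t ∧ ∀ x', BT w1 x' → BT w x' ∨ x' = x := by
  obtain ⟨w, rfl⟩ := ex_rep w
  obtain ⟨x, rfl⟩ := ex_rep x
  obtain ⟨t, rfl⟩ := ex_rep t
  rw [BT_coe, ← Ultrafilter.eventually_not] at hb
  rw [Germ.coe_lt] at hx
  rw [top2, app_coe, Germ.coe_le] at hw
  refine ⟨((fun i => w i ||| 2 ^ (x i) : ℕ → ℕ) : NN), ?_, ?_, ?_⟩
  · rw [Germ.coe_lt]
    refine hb.mono fun i hi => ?_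
    apply lt_of_le_of_ne Nat.left_le_or
    intro h
    apply hi
    rw [h, Nat.testBit_or, Nat.testBit_two_pow_self]
    simp
  · rw [top2, app_coe, Germ.coe_le]
    filter_upwards [hw, hx] with i h1 h2
    have h3 : w i < 2 ^ t i := by
      have : 0 < 2 ^ t i := by positivity
      omega
    have h4 : 2 ^ x i < 2 ^ t i := Nat.pow_lt_pow_right (by norm_num) h2
    have := Nat.or_lt_two_pow h3 h4
    omega
  · intro x'
    obtain ⟨x', rfl⟩ := ex_rep x'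
    rw [BT_coe, BT_coe, coe_eq_coe, ← Ultrafilter.eventually_or]
    intro h
    refine h.mono fun i hi => ?_
    rw [Nat.testBit_or, Bool.or_eq_true, Nat.testBit_two_pow] at hi
    rcases hi with hi | hi
    · exact Or.inl hi
    · right
      exact (of_decide_eq_true hi).symm

/-- the set decided by a condition -/
def Wd (r : NN → NN) (P : ℕ → Prop) (p c s x : NN) : Prop :=
  ∃ z < s + 1, T P (pr p (pr x (pr z (pr (r z) (ct c z)))))

theorem Fn.add (hG : Good M r τ) {f g : NN → NN} (hf : Fn M f) (hg : Fn M g) :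
    Fn M (fun x => f x + g x) := by
  have h := (Fn.pr hG hf hg).app (Ar.fst'.add Ar.snd')
  have e : (fun x => f x + g x) = fun x => MP_82b75a_lc.app (fun n => n.unpair.1 + n.unpair.2)
      (MP_82b75a_lc.pr (f x) (g x)) := funext fun x => add_eq _ _
  rw [e]
  exact h

theorem Sg.wd (hG : Good M r τ) {P : ℕ → Prop} (hP : Df P) {p : NN} (hp : p ∈ M)
    {f g h : NN → NN} (hf : Fn M f) (hg : Fn M g) (hh : Fn M h) :
    Sg M r (fun a => Wd r P p (f a) (g a) (h a)) := by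
  have hid := Fn.id hG
  refine Sg.bex (A := fun a z => T P (pr p (pr (h a) (pr z (pr (r z) (ct (f a) z)))))) hG ?_
    (Fn.add hG hg (Fn.const (hG.sup one_mem_M0)))
  have hD : Df (fun n => P (Nat.pair n.unpair.1.unpair.1 (Nat.pair n.unpair.1.unpair.2.unpair.1
      (Nat.pair n.unpair.1.unpair.2.unpair.2.unpair.1 (Nat.pair n.unpair.2
        n.unpair.1.unpair.2.unpair.2.unpair.2))))) :=
    hP.comp (Ar.fst'.fst.pair (Ar.fst'.snd.fst.pair (Ar.fst'.snd.snd.fst.pair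
      (Ar.snd'.pair Ar.fst'.snd.snd.snd))))
  have hfs := Fn.comp hG hf hid.fs
  have hhs := Fn.comp hG hh hid.fs
  refine (Sg.base hG hD (Fn.pr hG (Fn.const hp) (Fn.pr hG hhs (Fn.pr hG hid.sn
    (Fn.ct hG hfs hid.sn)))) hid.sn).congr fun a _ => ?_
  generalize h (fs a) = x
  generalize ct (f (fs a)) (sn a) = d
  generalize r (sn a) = e
  generalize sn a = z
  obtain ⟨p, rfl⟩ := ex_rep p
  obtain ⟨x, rfl⟩ := ex_rep x
  obtain ⟨d, rfl⟩ := ex_rep d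
  obtain ⟨e, rfl⟩ := ex_rep e
  obtain ⟨z, rfl⟩ := ex_rep z
  simp only [pr_coe, T_coe, Nat.unpair_pair]

theorem Wd.mono {P : ℕ → Prop} {p c s c' s' x K : NN} {Q : NN → NN → Prop}
    (hv : Val K Q c s c' s') (h : Wd r P p c s x) : Wd r P p c' s' x := by
  obtain ⟨z, hz, h⟩ := h
  refine ⟨z, lt_of_lt_of_le hz ?_, ?_⟩
  · exact add_le_add_left hv.1 1
  · have hzs : z ≤ s := (lt_add_one_iff_NN _ _).1 hz
    have : ct c' z = ct c z := ct_congr fun y hy => hv.2.1 y (lt_of_lt_of_le hy hzs)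
    rw [this]
    exact h

theorem BT_zero (x : NN) : ¬ BT 0 x := by
  obtain ⟨x, rfl⟩ := ex_rep x
  have h := BT_coe (fun _ => 0) x
  intro h2
  have h3 := h.1 h2
  have h4 : ¬ ∀ᶠ i in (UU : Filter ℕ), (0 : ℕ).testBit (x i) = true := by
    rw [← Ultrafilter.eventually_not]
    exact Eventually.of_forall fun i => by simp
  exact h4 h3

/-- deciding -/
theorem decide_step (hG : Good M r τ) {K : NN} (hK : K ∈ M) {Q : NN → NN → Prop}
    (hQ : Sg M r (fun a => Q (fs a) (sn a)))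
    {c s : NN} (hc : c ∈ M) (hs : s ∈ M) {P : ℕ → Prop} (hP : Df P) {p t : NN} (hp : p ∈ M)
    (ht : t ∈ M) :
    ∃ c' ∈ M, ∃ s' ∈ M, Val K Q c s c' s' ∧ ∀ c'' ∈ HH, ∀ s'' ∈ HH, Val K Q c' s' c'' s'' →
      ∀ x < t, Wd r P p c'' s'' x → Wd r P p c' s' x := by
  have hid := Fn.id hG
  have hV := Sg.val hG hK hQ hc hs
  have hS1 : Sg M r (fun b => Val K Q c s (fs (sn b)) (sn (sn b)) ∧
      ∀ x < t, BT (fs b) x → Wd r P p (fs (sn b)) (sn (sn b)) x) := by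
    refine (hV.sub hG hid.sn).and hG ?_
    refine Sg.ball (A := fun b x => BT (fs b) x → Wd r P p (fs (sn b)) (sn (sn b)) x) hG ?_
      (Fn.const ht)
    have h1 : Sg M r (fun b => ¬ BT (fs (fs b)) (sn b)) :=
      (Dl.int hG df_testBit (Fn.pr hG hid.fs.fs hid.sn)).neg
    have h2 := Sg.wd hG hP hp hid.fs.sn.fs hid.fs.sn.sn hid.sn
    exact (h1.or hG h2).congr fun a _ => by tauto
  have hS : Sg M r (fun w => ∃ a ∈ HH, Val K Q c s (fs a) (sn a) ∧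
      ∀ x < t, BT w x → Wd r P p (fs a) (sn a) x) :=
    Sg.ex (A := fun w a => Val K Q c s (fs a) (sn a) ∧
      ∀ x < t, BT w x → Wd r P p (fs a) (sn a) x) hG hS1
  have htop : top2 t ∈ M := hG.app_mem _ (((Ar.const 2).pow Ar.id).sub (Ar.const 1)) _ ht
  obtain ⟨w0, hw0M, hw0t, hw0, hmax⟩ := hG.maxp hS htop ⟨pr c s, HH_pr (hG.sub hc) (hG.sub hs), by
    rw [fs_pr, sn_pr]; exact Val.refl _ _ _ _, fun x _ h => absurd h (BT_zero x)⟩
  have hS2 : Sg M r (fun a => Val K Q c s (fs a) (sn a) ∧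
      ∀ x < t, BT w0 x → Wd r P p (fs a) (sn a) x) := by
    have h3 := hS1.sub hG (Fn.pr hG (Fn.const hw0M) hid)
    simpa only [fs_pr, sn_pr] using h3
  obtain ⟨a, haM, hv, ha⟩ := hS2.elem hG hw0
  refine ⟨fs a, hG.app_mem _ Ar.fst' _ haM, sn a, hG.app_mem _ Ar.snd' _ haM, hv, ?_⟩
  intro c'' hc'' s'' hs'' hv2 x hx hW
  by_cases hb : BT w0 x
  · exact ha x hx hb
  · exfalso
    obtain ⟨w1, h1, h2, h3⟩ := add_bit hx hw0t hb
    have h4 := hmax w1 h2 ⟨pr c'' s'', HH_pr hc'' hs'', by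
      rw [fs_pr, sn_pr]; exact hv.trans hv2, fun x' hx' hb' => by
      rw [fs_pr, sn_pr]
      rcases h3 x' hb' with h5 | h5
      · exact (ha x' hx' h5).mono hv2
      · rw [h5]; exact hW⟩
    exact absurd h1 (not_lt.2 h4)

/-- the combined step -/
theorem force_step (hG : Good M r τ) {K : NN} (hK : K ∈ M) {Q : NN → NN → Prop}
    (hQ : Sg M r (fun a => Q (fs a) (sn a))) (htot : ∀ y ∈ HH, ∃ v < K, Q y v)
    {c s : NN} (hc : c ∈ M) (hs : s ∈ M) {P : ℕ → Prop} (hP : Df P) {p t : NN} (hp : p ∈ M)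
    (ht : t ∈ M) :
    ∃ c' ∈ M, ∃ s' ∈ M, Val K Q c s c' s' ∧ t ≤ s' ∧
      (∀ c'' ∈ HH, ∀ s'' ∈ HH, Val K Q c' s' c'' s'' →
        ∀ x < t, Wd r P p c'' s'' x → Wd r P p c' s' x) ∧
      ((∃ y ∈ HH, s ≤ y ∧ t ≤ y ∧ Q y 1) → 1 < K → ∃ y < s', s ≤ y ∧ t ≤ y ∧ gt c' y = 1) := by
  have hid := Fn.id hG
  have hV := Sg.val hG hK hQ hc hs
  -- first step
  have h1 : ∃ a ∈ M, Val K Q c s (fs a) (sn a) ∧ t ≤ sn a ∧
      ((∃ y ∈ HH, s ≤ y ∧ t ≤ y ∧ Q y 1) → 1 < K →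
        ∃ y < sn a, s ≤ y ∧ t ≤ y ∧ gt (fs a) y = 1) := by
    by_cases hcase : (∃ y ∈ HH, s ≤ y ∧ t ≤ y ∧ Q y 1) ∧ 1 < K
    · obtain ⟨⟨y, hy, hsy, hty, hQy⟩, h1K⟩ := hcase
      have hS : Sg M r (fun a => Val K Q c s (fs a) (sn a) ∧ t ≤ sn a ∧
          ∃ y < sn a, s ≤ y ∧ t ≤ y ∧ gt (fs a) y = 1) := by
        refine hV.and hG ((Dl.le hG (Fn.const ht) hid.sn).pos.and hG ?_)
        refine Sg.bex (A := fun a y => s ≤ y ∧ t ≤ y ∧ gt (fs a) y = 1) hG ?_ hid.sn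
        refine (Dl.le hG (Fn.const hs) hid.sn).pos.and hG
          ((Dl.le hG (Fn.const ht) hid.sn).pos.and hG ?_)
        exact (Dl.eq hG (Fn.gt hG hid.fs.fs hid.sn) (Fn.const (hG.sup one_mem_M0))).pos
      have hy1 : y + 1 ∈ HH := by
        have := Fn.add hG hid (Fn.const (hG.sup one_mem_M0))
        exact this.memH hG hy
      have hyy : y < y + 1 := (lt_add_one_iff_NN _ _).2 le_rfl
      obtain ⟨c', hc', hv, h2⟩ := exists_val hG hK hQ htot hc hs hy1 (hsy.trans hyy.le) hy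
        (Or.inr ⟨hQy, h1K⟩)
      obtain ⟨a, haM, h3, h4, h5⟩ := hS.elem hG ⟨pr c' (y + 1), HH_pr hc' hy1, by
        rw [fs_pr, sn_pr]
        exact ⟨hv, hty.trans hyy.le, y, hyy, hsy, hty, h2 hyy hsy⟩⟩
      exact ⟨a, haM, h3, h4, fun _ _ => h5⟩
    · have hS : Sg M r (fun a => Val K Q c s (fs a) (sn a) ∧ t ≤ sn a) :=
        hV.and hG (Dl.le hG (Fn.const ht) hid.sn).pos
      have hm : max s t ∈ HH := HH_max (hG.sub hs) (hG.sub ht)
      obtain ⟨c', hc', hv, -⟩ := exists_val hG hK hQ htot hc hs hm (le_max_left _ _) hm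
        (Or.inl le_rfl)
      obtain ⟨a, haM, h3, h4⟩ := hS.elem hG ⟨pr c' (max s t), HH_pr hc' hm, by
        rw [fs_pr, sn_pr]
        exact ⟨hv, le_max_right _ _⟩⟩
      exact ⟨a, haM, h3, h4, fun h5 h6 => absurd ⟨h5, h6⟩ hcase⟩
  obtain ⟨a, haM, h2, h3, h4⟩ := h1
  obtain ⟨c', hc', s', hs', hv, hdec⟩ := decide_step hG hK hQ (hG.app_mem _ Ar.fst' _ haM)
    (hG.app_mem _ Ar.snd' _ haM) hP hp ht
  refine ⟨c', hc', s', hs', h2.trans hv, h3.trans hv.1, hdec, fun h5 h6 => ?_⟩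
  obtain ⟨y, hy, hsy, hty, hy1⟩ := h4 h5 h6
  exact ⟨y, lt_of_lt_of_le hy hv.1, hsy, hty, by rw [hv.2.1 y hy]; exact hy1⟩


/-- truncation function for the extended oracle -/
noncomputable def tauX (τ : ℕ → ℕ) (n : ℕ) : ℕ :=
  Nat.pair (τ (Nat.pair n.unpair.1.unpair.1 n.unpair.2)) (cut n.unpair.1.unpair.2 n.unpair.2)

theorem ar_tauX {τ : ℕ → ℕ} (h : Ar τ) : Ar (tauX τ) :=
  (h.comp (Ar.fst'.fst.pair Ar.snd')).pair (ar_cut.comp₂ (F := cut) Ar.fst'.snd Ar.snd')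

instance : Inhabited Cd := ⟨.base .zero⟩

/-- the forcing lemma -/
theorem force (hG : Good M r τ) (hcM : M.Countable) {K : NN} (hK : K ∈ M)
    (Q : ℕ → NN → NN → Prop) (hQ : ∀ n, Sg M r (fun a => Q n (fs a) (sn a)))
    (hanti : ∀ n y v, Q (n + 1) y v → Q n y v) (htot : ∀ n, ∀ y ∈ HH, ∃ v < K, Q n y v) :
    ∃ (g F : NN → NN) (s : ℕ → NN), (∀ y ∈ HH, g y < K) ∧
      (∀ z ∈ HH, ∀ y < z, gt (F z) y = g y) ∧
      Good M (fun z => pr (r z) (F z)) (tauX τ) ∧ s 0 = 0 ∧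
      (∀ n, s n ∈ M ∧ ∀ y ∈ HH, s n ≤ y → Q n y (g y)) ∧
      ((∀ n, ∀ t ∈ M, ∃ y ∈ HH, t ≤ y ∧ Q n y 1) → 1 < K →
        ∀ t ∈ M, ∃ y ∈ HH, t ≤ y ∧ g y = 1) := by
  -- enumeration of the requirements
  have : Countable M := hcM.to_subtype
  have : Nonempty M := ⟨⟨bb, hG.bbM⟩⟩
  obtain ⟨e, he⟩ := exists_surjective_nat (Cd × M × M)
  have hstep : ∀ (n : ℕ) (a : {x : NN × NN // x.1 ∈ M ∧ x.2 ∈ M}),
      ∃ a' : {x : NN × NN // x.1 ∈ M ∧ x.2 ∈ M},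
        Val K (Q n) a.1.1 a.1.2 a'.1.1 a'.1.2 ∧ ((e n).2.2 : NN) ≤ a'.1.2 ∧
        (∀ c'' ∈ HH, ∀ s'' ∈ HH, Val K (Q n) a'.1.1 a'.1.2 c'' s'' →
          ∀ x < ((e n).2.2 : NN), Wd r (fun m => (e n).1.ev m = 0) (e n).2.1 c'' s'' x →
            Wd r (fun m => (e n).1.ev m = 0) (e n).2.1 a'.1.1 a'.1.2 x) ∧
        ((∃ y ∈ HH, a.1.2 ≤ y ∧ ((e n).2.2 : NN) ≤ y ∧ Q n y 1) → 1 < K →
          ∃ y < a'.1.2, a.1.2 ≤ y ∧ ((e n).2.2 : NN) ≤ y ∧ gt a'.1.1 y = 1) := by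
    intro n a
    obtain ⟨c', hc', s', hs', h1, h2, h3, h4⟩ := force_step hG hK (hQ n) (htot n) a.2.1 a.2.2
      (Df.of_ar ⟨(e n).1, rfl⟩) (e n).2.1.2 (e n).2.2.2
    exact ⟨⟨(c', s'), hc', hs'⟩, h1, h2, h3, h4⟩
  choose nx hnx1 hnx2 hnx3 hnx4 using hstep
  have h0M : (0 : NN) ∈ M := hG.sup zero_mem_M0
  let a : ℕ → {x : NN × NN // x.1 ∈ M ∧ x.2 ∈ M} := fun n =>
    Nat.rec ⟨(0, 0), h0M, h0M⟩ (fun n b => nx n b) n
  have ha0 : (a 0).1 = (0, 0) := rfl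
  have has : ∀ n, a (n + 1) = nx n (a n) := fun n => rfl
  set c : ℕ → NN := fun n => (a n).1.1 with hc
  set s : ℕ → NN := fun n => (a n).1.2 with hs
  have hcmem : ∀ n, c n ∈ M := fun n => (a n).2.1
  have hsmem : ∀ n, s n ∈ M := fun n => (a n).2.2
  have v1 : ∀ n, Val K (Q n) (c n) (s n) (c (n + 1)) (s (n + 1)) := fun n => by
    have := hnx1 n (a n); rw [← has] at this; exact this
  have v2 : ∀ n, ((e n).2.2 : NN) ≤ s (n + 1) := fun n => by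
    have := hnx2 n (a n); rw [← has] at this; exact this
  have v3 : ∀ n, ∀ c'' ∈ HH, ∀ s'' ∈ HH, Val K (Q n) (c (n + 1)) (s (n + 1)) c'' s'' →
      ∀ x < ((e n).2.2 : NN), Wd r (fun m => (e n).1.ev m = 0) (e n).2.1 c'' s'' x →
        Wd r (fun m => (e n).1.ev m = 0) (e n).2.1 (c (n + 1)) (s (n + 1)) x := fun n => by
    have := hnx3 n (a n); rw [← has] at this; exact this
  have v4 : ∀ n, (∃ y ∈ HH, s n ≤ y ∧ ((e n).2.2 : NN) ≤ y ∧ Q n y 1) → 1 < K →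
      ∃ y < s (n + 1), s n ≤ y ∧ ((e n).2.2 : NN) ≤ y ∧ gt (c (n + 1)) y = 1 := fun n => by
    have := hnx4 n (a n); rw [← has] at this; exact this
  -- antitone in general
  have hanti' : ∀ n m, n ≤ m → ∀ y v, Q m y v → Q n y v := by
    intro n m hnm
    induction m, hnm using Nat.le_induction with
    | base => exact fun y v h => h
    | succ m _ ih => exact fun y v h => ih y v (hanti m y v h)
  have vchain : ∀ n m, n ≤ m → Val K (Q n) (c n) (s n) (c m) (s m) := by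
    intro n m hnm
    induction m, hnm using Nat.le_induction with
    | base => exact Val.refl _ _ _ _
    | succ m hm ih => exact ih.trans ((v1 m).mono (hanti' n m hm))
  have hsmono : ∀ n m, n ≤ m → s n ≤ s m := fun n m h => (vchain n m h).1
  have hscof : ∀ z ∈ HH, ∃ m, z ≤ s m := by
    intro z hz
    obtain ⟨t, ht, hzt⟩ := hG.cof hz
    obtain ⟨n, hn⟩ := he (default, ⟨bb, hG.bbM⟩, ⟨t, ht⟩)
    refine ⟨n + 1, hzt.le.trans ?_⟩
    have := v2 n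
    rw [hn] at this
    exact this
  have hagree : ∀ n m, ∀ y, y < s n → y < s m → gt (c n) y = gt (c m) y := by
    intro n m y h1 h2
    rcases le_total n m with h | h
    · exact ((vchain n m h).2.1 y h1).symm
    · exact (vchain m n h).2.1 y h2
  have hagree' : ∀ n m z, z ≤ s n → z ≤ s m → ct (c n) z = ct (c m) z := fun n m z h1 h2 =>
    ct_congr fun y hy => hagree n m y (lt_of_lt_of_le hy h1) (lt_of_lt_of_le hy h2)
  let F : NN → NN := fun z => if h : ∃ m, z ≤ s m then ct (c (Nat.find h)) z else 0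
  have hF : ∀ z m, z ≤ s m → F z = ct (c m) z := by
    intro z m h
    have h' : ∃ m, z ≤ s m := ⟨m, h⟩
    show (if h : ∃ m, z ≤ s m then ct (c (Nat.find h)) z else 0) = _
    rw [dif_pos h']
    exact hagree' _ _ _ (Nat.find_spec h') h
  let g : NN → NN := fun y => gt (F (y + 1)) y
  have hsucc : ∀ y : NN, y < y + 1 := fun y => (lt_add_one_iff_NN _ _).2 le_rfl
  have hsuccH : ∀ y ∈ HH, y + 1 ∈ HH := fun y hy =>
    (Fn.add hG (Fn.id hG) (Fn.const (hG.sup one_mem_M0))).memH hG hy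
  have hg : ∀ y m, y < s m → g y = gt (c m) y := by
    intro y m h
    have h2 : y + 1 ≤ s m := by
      by_contra h3
      exact absurd ((lt_add_one_iff_NN _ _).1 (not_le.1 h3)) (not_le.2 h)
    show gt (F (y + 1)) y = _
    rw [hF (y + 1) m h2, ct_spec _ _ y (hsucc y)]
  have hyex : ∀ y ∈ HH, ∀ n, ∃ m, n ≤ m ∧ y < s m := by
    intro y hy n
    obtain ⟨m, hm⟩ := hscof (y + 1) (hsuccH y hy)
    exact ⟨max n m, le_max_left _ _, lt_of_lt_of_le (hsucc y) (hm.trans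
      (hsmono _ _ (le_max_right _ _)))⟩
  have hQg : ∀ n, ∀ y ∈ HH, s n ≤ y → g y < K ∧ Q n y (g y) := by
    intro n y hy hn
    obtain ⟨m, hnm, hm⟩ := hyex y hy n
    have := (vchain n m hnm).2.2 y hm hn
    rw [hg y m hm]
    exact this
  refine ⟨g, F, s, fun y hy => (hQg 0 y hy (zero_le_NN y)).1, ?_, ?_, ?_,
    fun n => ⟨hsmem n, fun y hy h => (hQg n y hy h).2⟩, ?_⟩
  · intro z hz y hy
    obtain ⟨m, hm⟩ := hscof z hz
    rw [hF z m hm, ct_spec _ _ y hy, hg y m (lt_of_lt_of_le hy hm)]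
  · refine ⟨hG.app_mem, hG.pr_mem, hG.sub, hG.sup, ar_tauX hG.ar, ?_, ?_, ?_⟩
    · intro w hw z hz
      have e1 := hG.coh w hw z hz
      have e2 : F z = ct (F w) z := by
        obtain ⟨m, hm⟩ := hscof w hw
        rw [hF w m hm, hF z m (hz.trans hm)]
        exact ct_congr fun y hy => (ct_spec _ _ y (lt_of_lt_of_le hy hz)).symm
      show pr (r z) (F z) = _
      rw [e1, e2]
      generalize r w = u
      generalize F w = v
      obtain ⟨u, rfl⟩ := ex_rep u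
      obtain ⟨v, rfl⟩ := ex_rep v
      obtain ⟨z, rfl⟩ := ex_rep z
      simp only [pr_coe, ct_coe, app_coe, tauX, Nat.unpair_pair]
    · intro z hz
      obtain ⟨m, hm⟩ := hscof z (hG.sub hz)
      show pr (r z) (F z) ∈ M
      rw [hF z m hm]
      exact hG.pr_mem _ (hG.mem z hz) _ (hG.app_mem _ ar_cut _ (hG.pr_mem _ (hcmem m) _ hz))
    · intro P hP p hp t ht
      obtain ⟨d, hd⟩ := hP
      obtain ⟨n, hn⟩ := he (d, ⟨p, hp⟩, ⟨t, ht⟩)
      have hPd : P = fun m => d.ev m = 0 := funext fun m => propext (hd m)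
      refine ⟨s (n + 1) + 1, hG.add_mem (hsmem (n + 1)) (hG.sup one_mem_M0), ?_⟩
      intro x hx w hw hT
      obtain ⟨m, hnm, hm⟩ := hyex w hw (n + 1)
      have h3 := v3 n (c m) (hG.sub (hcmem m)) (s m) (hG.sub (hsmem m))
        ((vchain (n + 1) m hnm).mono (fun y v h => hanti n y v h))
      rw [hn] at h3
      have h4 : Wd r P p (c m) (s m) x :=
        ⟨w, lt_of_lt_of_le hm (hsucc _).le, by rw [← hF w m hm.le]; exact hT⟩
      have h5 : Wd r P p (c (n + 1)) (s (n + 1)) x := by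
        rw [hPd]
        apply h3 x hx
        rw [← hPd]
        exact h4
      obtain ⟨z, hz, h6⟩ := h5
      refine ⟨z, hz, ?_⟩
      show T P (pr p (pr x (pr z (pr (r z) (F z)))))
      rw [hF z (n + 1) ((lt_add_one_iff_NN _ _).1 hz)]
      exact h6
  · show (a 0).1.2 = 0
    rw [ha0]
  · intro hinf h1K t ht
    obtain ⟨n, hn⟩ := he (default, ⟨bb, hG.bbM⟩, ⟨t, ht⟩)
    have hm : max (s n) t ∈ M := by
      rcases le_total (s n) t with h | h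
      · rw [max_eq_right h]; exact ht
      · rw [max_eq_left h]; exact hsmem n
    obtain ⟨y, hy, h1, h2⟩ := hinf n _ hm
    obtain ⟨y', h3, h4, h5, h6⟩ := v4 n ⟨y, hy, (le_max_left _ _).trans h1, by
      rw [hn]; exact (le_max_right _ _).trans h1, h2⟩ h1K
    rw [hn] at h5
    exact ⟨y', HH_down (hG.sub (hsmem (n + 1))) h3.le, h5, by rw [hg y' (n + 1) h3]; exact h6⟩

end Pool.Agent.Lib.MP_82b75a_lc
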