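import Pool.Agent.Lib.MP_82b75a_lc.Ext

/-!
# Growing the model and the oracle; scattered families
-/

namespace Pool.Agent.Lib.MP_82b75a_lc

open Classical Filter

variable {M M' : Set NN} {r r' : NN → NN} {τ τ' : ℕ → ℕ}

theorem sz_congr {P Q : ℕ → Prop} {p q b : ℕ}
    (h : ∀ j, P (Nat.pair p j) ↔ Q (Nat.pair q j)) : sz P p b = sz Q q b := by
  have : ss P p b = ss Q q b := by
    ext j
    rw [mem_ss, mem_ss, h j]
  rw [sz, this, sz]

theorem Good.ext (hG : Good M r τ) (hsub : M ⊆ M') (hH : M' ⊆ HH)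
    (happ : ∀ f, Ar f → ∀ a ∈ M', app f a ∈ M') (hpr : ∀ a ∈ M', ∀ b ∈ M', pr a b ∈ M') :
    Good M' r τ where
  app_mem := happ
  pr_mem := hpr
  sub := hH
  sup := hG.sup.trans hsub
  ar := hG.ar
  coh := hG.coh
  mem := by
    intro z hz
    obtain ⟨s, hs, h⟩ := hG.cof (hH hz)
    rw [hG.coh s (hG.sub hs) z h.le]
    exact happ _ hG.ar _ (hpr _ (hsub (hG.mem s hs)) _ hz)
  bd := by
    intro P hP p hp t ht
    obtain ⟨q, hq, hpq⟩ := hG.cof (hH hp)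
    obtain ⟨t1, ht1, htt1⟩ := hG.cof (hH ht)
    have hP2 : Df (fun n => P (Nat.pair n.unpair.2.unpair.1.unpair.1
        (Nat.pair n.unpair.2.unpair.1.unpair.2 n.unpair.2.unpair.2))) :=
      hP.comp (Ar.snd'.fst.fst.pair (Ar.snd'.fst.snd.pair Ar.snd'.snd))
    have key : ∀ p x w : NN, T (fun n => P (Nat.pair n.unpair.2.unpair.1.unpair.1
        (Nat.pair n.unpair.2.unpair.1.unpair.2 n.unpair.2.unpair.2)))
        (pr bb (pr (pr p x) (pr w (r w)))) ↔ T P (pr p (pr x (pr w (r w)))) := by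
      intro p x w
      generalize r w = c
      obtain ⟨p, rfl⟩ := ex_rep p
      obtain ⟨x, rfl⟩ := ex_rep x
      obtain ⟨w, rfl⟩ := ex_rep w
      obtain ⟨c, rfl⟩ := ex_rep c
      simp only [bb, pr_coe, T_coe, Nat.unpair_pair]
    have ht2 : pr q t1 + 1 ∈ M := hG.add_mem (hG.pr_mem _ hq _ ht1) (hG.sup one_mem_M0)
    obtain ⟨s, hs, h⟩ := hG.bd _ hP2 bb hG.bbM _ ht2
    refine ⟨s, hsub hs, fun x hx w hw hT => ?_⟩
    have h1 : pr p x < pr q t1 + 1 :=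
      (lt_add_one_iff_NN _ _).2 (pr_le_pr hpq.le (hx.trans htt1).le)
    obtain ⟨w', hw', h2⟩ := h _ h1 w hw ((key p x w).2 hT)
    exact ⟨w', hw', (key p x w').1 h2⟩

/-- the model generated by `M` and `i` -/
def adj (M : Set NN) (i : NN) : Set NN := {x | ∃ f, Ar f ∧ ∃ m ∈ M, x = app f (pr m i)}

theorem sub_adj (M : Set NN) (i : NN) : M ⊆ adj M i := by
  intro m hm
  exact ⟨_, Ar.fst', m, hm, (fs_pr m i).symm⟩

theorem mem_adj (hG : Good M r τ) (i : NN) : i ∈ adj M i :=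
  ⟨_, Ar.snd', bb, hG.bbM, (sn_pr bb i).symm⟩

theorem adj_sub (hG : Good M r τ) {i : NN} (hi : i ∈ HH) : adj M i ⊆ HH := by
  rintro x ⟨f, hf, m, hm, rfl⟩
  exact HH_app hf (HH_pr (hG.sub hm) hi)

theorem Good.adj (hG : Good M r τ) {i : NN} (hi : i ∈ HH) : Good (adj M i) r τ := by
  refine hG.ext (sub_adj M i) (adj_sub hG hi) ?_ ?_
  · rintro g hg x ⟨f, hf, m, hm, rfl⟩
    exact ⟨_, hg.comp hf, m, hm, (app_comp g f _).symm⟩
  · rintro x ⟨f, hf, m, hm, rfl⟩ y ⟨g, hg, n, hn, rfl⟩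
    refine ⟨fun z => Nat.pair (f (Nat.pair z.unpair.1.unpair.1 z.unpair.2))
      (g (Nat.pair z.unpair.1.unpair.2 z.unpair.2)),
      (hf.comp (Ar.fst'.fst.pair Ar.snd')).pair (hg.comp (Ar.fst'.snd.pair Ar.snd')),
      pr m n, hG.pr_mem _ hm _ hn, ?_⟩
    obtain ⟨m, rfl⟩ := ex_rep m
    obtain ⟨n, rfl⟩ := ex_rep n
    obtain ⟨i, rfl⟩ := ex_rep i
    simp only [pr_coe, app_coe, Nat.unpair_pair]

theorem adj_countable (hc : M.Countable) (i : NN) : (adj M i).Countable := by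
  have : adj M i ⊆ (fun x : Cd × NN => app x.1.ev (pr x.2 i)) '' (Set.univ ×ˢ M) := by
    rintro x ⟨f, ⟨c, rfl⟩, m, hm, rfl⟩
    exact ⟨(c, m), ⟨Set.mem_univ _, hm⟩, rfl⟩
  exact ((Set.countable_univ.prod hc).image _).mono this

/-- `r` is computable from `r'` -/
def Red (r r' : NN → NN) : Prop := ∃ π, Ar π ∧ ∀ z ∈ HH, r z = app π (r' z)

theorem Red.refl (r : NN → NN) : Red r r := ⟨_, Ar.id, fun _ _ => (app_id _).symm⟩

theorem Red.trans {r r' r'' : NN → NN} (h1 : Red r r') (h2 : Red r' r'') : Red r r'' := by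
  obtain ⟨π, hπ, h1⟩ := h1
  obtain ⟨π', hπ', h2⟩ := h2
  exact ⟨_, hπ.comp hπ', fun z hz => by
    rw [h1 z hz, h2 z hz]; exact (app_comp π π' _).symm⟩

theorem Red.pair (r : NN → NN) (F : NN → NN) : Red r (fun z => pr (r z) (F z)) :=
  ⟨_, Ar.fst', fun _ _ => (fs_pr _ _).symm⟩

theorem Sg.up {A : NN → Prop} (hA : Sg M r A) (hM : M ⊆ M') (hr : Red r r') : Sg M' r' A := by
  obtain ⟨P, hP, p, hp, h⟩ := hA
  obtain ⟨π, hπ, h2⟩ := hr
  refine ⟨fun n => P (Nat.pair n.unpair.1 (Nat.pair n.unpair.2.unpair.1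
    (Nat.pair n.unpair.2.unpair.2.unpair.1 (π n.unpair.2.unpair.2.unpair.2)))),
    hP.comp (Ar.fst'.pair (Ar.snd'.fst.pair (Ar.snd'.snd.fst.pair (hπ.comp Ar.snd'.snd.snd)))),
    p, hM hp, fun x hx => ?_⟩
  rw [h x hx]
  apply exists_congr
  intro w
  apply and_congr_right
  intro hw
  rw [h2 w hw]
  generalize r' w = c
  obtain ⟨p, rfl⟩ := ex_rep p
  obtain ⟨x, rfl⟩ := ex_rep x
  obtain ⟨w, rfl⟩ := ex_rep w
  obtain ⟨c, rfl⟩ := ex_rep c
  simp only [pr_coe, app_coe, T_coe, Nat.unpair_pair]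

theorem Dl.up {A : NN → Prop} (hA : Dl M r A) (hM : M ⊆ M') (hr : Red r r') : Dl M' r' A :=
  ⟨hA.pos.up hM hr, hA.neg.up hM hr⟩

theorem GapOK.up {G : Gap} (hO : GapOK M r G) (hM : M ⊆ M') (hr : Red r r')
    (hunf : ∀ x ∈ M', ∃ n, ¬ G.I n x) : GapOK M' r' G :=
  ⟨hO.dl.up hM hr, hO.total, hO.trans, hO.conv, hunf⟩

/-- reading a function from the oracle -/
def Rdf (r : NN → NN) (R : NN → NN) : Prop :=
  ∃ ρ, Ar ρ ∧ ∀ y ∈ HH, ∀ z ∈ HH, y < z → R y = app ρ (pr (r z) y)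

theorem Rdf.up {R : NN → NN} (h : Rdf r R) (hr : Red r r') : Rdf r' R := by
  obtain ⟨ρ, hρ, h1⟩ := h
  obtain ⟨π, hπ, h2⟩ := hr
  refine ⟨fun n => ρ (Nat.pair (π n.unpair.1) n.unpair.2),
    hρ.comp ((hπ.comp Ar.fst').pair Ar.snd'), fun y hy z hz hyz => ?_⟩
  rw [h1 y hy z hz hyz, h2 z hz]
  generalize r' z = c
  obtain ⟨c, rfl⟩ := ex_rep c
  obtain ⟨y, rfl⟩ := ex_rep y
  simp only [pr_coe, app_coe, Nat.unpair_pair]

/-- relations with a readable function -/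
theorem Dl.rdf (hG : Good M r τ) {R : NN → NN} (hR : Rdf r R) {P : ℕ → Prop} (hP : Df P)
    {f g : NN → NN} (hf : Fn M f) (hg : Fn M g) : Dl M r (fun x => T P (pr (f x) (R (g x)))) := by
  obtain ⟨ρ, hρ, h1⟩ := hR
  have hD : Df (fun n => P (Nat.pair n.unpair.1.unpair.1 (ρ (Nat.pair n.unpair.2
      n.unpair.1.unpair.2)))) :=
    hP.comp (Ar.fst'.fst.pair (hρ.comp (Ar.snd'.pair Ar.fst'.snd)))
  have h1M : (1 : NN) ∈ M := hG.sup one_mem_M0
  refine (Dl.base hG hD (Fn.pr hG hf hg) (Fn.add hG hg (Fn.const h1M))).congr fun x hx => ?_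
  have hgx := hg.memH hG hx
  have hgx1 : g x + 1 ∈ HH := (Fn.add hG hg (Fn.const h1M)).memH hG hx
  rw [h1 (g x) hgx (g x + 1) hgx1 ((lt_add_one_iff_NN _ _).2 le_rfl)]
  generalize r (g x + 1) = c
  generalize f x = u
  generalize g x = v
  obtain ⟨c, rfl⟩ := ex_rep c
  obtain ⟨u, rfl⟩ := ex_rep u
  obtain ⟨v, rfl⟩ := ex_rep v
  simp only [pr_coe, app_coe, T_coe, Nat.unpair_pair]

/-- powers of the nonstandard number -/
noncomputable def bpow (e : ℕ) : NN := app (fun n => n ^ e) bb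

/-- scattered functions -/
def Scat (M : Set NN) (R : NN → NN) : Prop :=
  ∀ D, Df D → ∀ v, Ar v → ∀ p ∈ M, ∀ e : ℕ, ∃ s ∈ M, ∀ y ∈ HH, s ≤ y → ∀ x ≤ bpow e,
    ¬ (¬ Sm D (pr p x) ∧ ∀ i < kk, T D (pr (pr p x) i) → (BT (R y) i ↔ BT (app v (pr p x)) i))

theorem Scat.adj {R : NN → NN} (hS : Scat M R) {i : NN} (hi : i < kk) : Scat (adj M i) R := by
  rintro D hD v hv p' ⟨f, hf, m, hm, rfl⟩ e
  have hD2 : Df (fun n => D (Nat.pair (Nat.pair (f (Nat.pair n.unpair.1.unpair.1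
      n.unpair.1.unpair.2.unpair.1)) n.unpair.1.unpair.2.unpair.2) n.unpair.2)) :=
    hD.comp (((hf.comp (Ar.fst'.fst.pair Ar.fst'.snd.fst)).pair Ar.fst'.snd.snd).pair Ar.snd')
  have hv2 : Ar (fun n => v (Nat.pair (f (Nat.pair n.unpair.1 n.unpair.2.unpair.1))
      n.unpair.2.unpair.2)) :=
    hv.comp ((hf.comp (Ar.fst'.pair Ar.snd'.fst)).pair Ar.snd'.snd)
  obtain ⟨s, hs, h⟩ := hS _ hD2 _ hv2 m hm (2 * e + 8)
  refine ⟨s, sub_adj M i hs, fun y hy hsy x hx h2 => ?_⟩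
  have hbd : pr i x ≤ bpow (2 * e + 8) := by
    obtain ⟨i, rfl⟩ := ex_rep i
    obtain ⟨x, rfl⟩ := ex_rep x
    rw [kk_coe, Germ.coe_lt] at hi
    rw [bpow, bb, app_coe, Germ.coe_le] at hx
    rw [bpow, bb, app_coe, pr_coe, Germ.coe_le]
    have h2 : ∀ᶠ n in (UU : Filter ℕ), 2 ≤ n := by
      have : ∀ᶠ x in (cofinite : Filter ℕ), 2 ≤ x := by
        rw [Nat.cofinite_eq_atTop]
        exact eventually_ge_atTop _
      exact hyperfilter_le_cofinite this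
    filter_upwards [hi, hx, h2] with n h3 h4 h5
    have h6 : i n ≤ n ^ (e + 2) := h3.le.trans (Nat.pow_le_pow_right (by omega) (by omega))
    have h7 : x n ≤ n ^ (e + 2) := h4.trans (Nat.pow_le_pow_right (by omega) (by omega))
    have h8 : Nat.pair (i n) (x n) < (n ^ (e + 2) + 1) ^ 2 := by
      refine (Nat.pair_lt_max_add_one_sq _ _).trans_le ?_
      apply Nat.pow_le_pow_left
      have := max_le h6 h7
      omega
    have h9 : n ^ (e + 2) + 1 ≤ n ^ (e + 3) := by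
      have h10 : 1 ≤ n ^ (e + 2) := Nat.one_le_pow _ _ (by omega)
      have h11 : n ^ (e + 3) = n ^ (e + 2) * n := by ring
      rw [h11]
      nlinarith
    have h12 : (n ^ (e + 2) + 1) ^ 2 ≤ n ^ (2 * e + 8) := by
      calc (n ^ (e + 2) + 1) ^ 2 ≤ (n ^ (e + 3)) ^ 2 := Nat.pow_le_pow_left h9 2
        _ = n ^ (2 * e + 6) := by ring
        _ ≤ n ^ (2 * e + 8) := Nat.pow_le_pow_right (by omega) (by omega)
    omega
  apply h y hy hsy _ hbd
  have e1 : ∀ j, T (fun n => D (Nat.pair (Nat.pair (f (Nat.pair n.unpair.1.unpair.1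
      n.unpair.1.unpair.2.unpair.1)) n.unpair.1.unpair.2.unpair.2) n.unpair.2))
      (pr (pr m (pr i x)) j) ↔ T D (pr (pr (app f (pr m i)) x) j) := by
    intro j
    obtain ⟨m, rfl⟩ := ex_rep m
    obtain ⟨i, rfl⟩ := ex_rep i
    obtain ⟨x, rfl⟩ := ex_rep x
    obtain ⟨j, rfl⟩ := ex_rep j
    simp only [pr_coe, app_coe, T_coe, Nat.unpair_pair]
  have e2 : app (fun n => v (Nat.pair (f (Nat.pair n.unpair.1 n.unpair.2.unpair.1))
      n.unpair.2.unpair.2)) (pr m (pr i x)) = app v (pr (app f (pr m i)) x) := by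
    obtain ⟨m, rfl⟩ := ex_rep m
    obtain ⟨i, rfl⟩ := ex_rep i
    obtain ⟨x, rfl⟩ := ex_rep x
    simp only [pr_coe, app_coe, Nat.unpair_pair]
  have e3 : Sm (fun n => D (Nat.pair (Nat.pair (f (Nat.pair n.unpair.1.unpair.1
      n.unpair.1.unpair.2.unpair.1)) n.unpair.1.unpair.2.unpair.2) n.unpair.2))
      (pr m (pr i x)) ↔ Sm D (pr (app f (pr m i)) x) := by
    clear h h2 e1 e2 hbd
    obtain ⟨m, rfl⟩ := ex_rep m
    obtain ⟨i, rfl⟩ := ex_rep i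
    obtain ⟨x, rfl⟩ := ex_rep x
    simp only [pr_coe, app_coe]
    rw [Sm_coe, Sm_coe]
    have : ∀ n, sz (fun n => D (Nat.pair (Nat.pair (f (Nat.pair n.unpair.1.unpair.1
        n.unpair.1.unpair.2.unpair.1)) n.unpair.1.unpair.2.unpair.2) n.unpair.2))
        (Nat.pair (m n) (Nat.pair (i n) (x n))) n =
        sz D (Nat.pair (f (Nat.pair (m n) (i n))) (x n)) n := by
      intro n
      exact sz_congr fun j => by simp only [Nat.unpair_pair]
    simp only [this]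
  refine ⟨fun h3 => h2.1 (e3.1 h3), fun j hj hDj => ?_⟩
  rw [e2]
  exact h2.2 j hj ((e1 j).1 hDj)

/-- unboundedness -/
def Unb (M : Set NN) (C : NN → Prop) : Prop := ∀ s ∈ M, ∃ y ∈ HH, s ≤ y ∧ C y

/-- the new index splits every unbounded set of the old model -/
theorem kill (hG : Good M r τ) {R : NN → NN} (hR : Rdf r R) (hS : Scat M R)
    {C : NN → Prop} (hC : Dl M r C) (hU : Unb M C) {i : NN} (hik : i < kk)
    (hi : ∀ D, Df D → ∀ d ∈ M, Sm D d → ¬ T D (pr d i)) {s : NN} (hs : s ∈ M) :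
    ∃ y ∈ HH, s ≤ y ∧ C y ∧ ∃ y' ∈ HH, s ≤ y' ∧ C y' ∧ BT (R y) i ∧ ¬ BT (R y') i := by
  have hid := Fn.id hG
  have hsw : Df (fun n => n.unpair.2.testBit n.unpair.1 = true) := by
    have := df_testBit.comp (Ar.snd'.pair Ar.fst')
    simpa only [Nat.unpair_pair] using this
  have hBT : ∀ {f g : NN → NN}, Fn M f → Fn M g → Dl M r (fun x => BT (R (g x)) (f x)) := by
    intro f g hf hg
    refine (Dl.rdf hG hR hsw hf hg).congr fun x _ => ?_
    generalize R (g x) = u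
    generalize f x = v
    obtain ⟨u, rfl⟩ := ex_rep u
    obtain ⟨v, rfl⟩ := ex_rep v
    simp only [BT_coe, pr_coe, T_coe, Nat.unpair_pair]
  set E : NN → Prop := fun i => ∃ y ∈ HH, s ≤ y ∧ C y ∧ ∃ y' ∈ HH, s ≤ y' ∧ C y' ∧
    BT (R y) i ∧ ¬ BT (R y') i with hE
  have hES : Sg M r E := by
    refine Sg.ex (A := fun i y => s ≤ y ∧ C y ∧ ∃ y' ∈ HH, s ≤ y' ∧ C y' ∧
      BT (R y) i ∧ ¬ BT (R y') i) hG ?_
    refine (Dl.le hG (Fn.const hs) hid.sn).pos.and hG ((hC.pos.sub hG hid.sn).and hG ?_)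
    refine Sg.ex (A := fun a y' => s ≤ y' ∧ C y' ∧ BT (R (sn a)) (fs a) ∧ ¬ BT (R y') (fs a)) hG ?_
    refine (Dl.le hG (Fn.const hs) hid.sn).pos.and hG ((hC.pos.sub hG hid.sn).and hG ?_)
    exact (hBT hid.fs.fs hid.fs.sn).pos.and hG (hBT hid.fs.fs hid.sn).neg
  obtain ⟨P, hP, q, hq, h1⟩ := hES.intern hG (hG.sub (hG.sup kk_mem))
  -- the complement is small
  have hsmall : Sm (fun n => ¬ P n) q := by
    by_contra hns
    obtain ⟨y0, hy0, hy0C⟩ := ((Dl.le hG (Fn.const hs) hid).pos.and hG hC.pos).elem hG (by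
      obtain ⟨y, hy, h2, h3⟩ := hU s hs
      exact ⟨y, hy, h2, h3⟩)
    have hRy0 : R y0 ∈ M := by
      obtain ⟨ρ, hρ, h2⟩ := hR
      have h3 : y0 + 1 ∈ M := hG.add_mem hy0 (hG.sup one_mem_M0)
      rw [h2 y0 (hG.sub hy0) (y0 + 1) (hG.sub h3) ((lt_add_one_iff_NN _ _).2 le_rfl)]
      exact hG.app_mem _ hρ _ (hG.pr_mem _ (hG.mem _ h3) _ hy0)
    have hD : Df (fun n => ¬ P (Nat.pair n.unpair.1.unpair.1.unpair.1 n.unpair.2)) :=
      (hP.comp (Ar.fst'.fst.fst.pair Ar.snd')).not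
    obtain ⟨s', hs', h2⟩ := hS _ hD _ Ar.fst'.snd (pr q (R y0)) (hG.pr_mem _ hq _ hRy0) 0
    have hm : max s s' ∈ M := by
      rcases le_total s s' with h | h
      · rw [max_eq_right h]; exact hs'
      · rw [max_eq_left h]; exact hs
    obtain ⟨y, hy, h3, h4⟩ := hU _ hm
    apply h2 y hy ((le_max_right _ _).trans h3) 0 (zero_le_NN _)
    have e1 : ∀ j, T (fun n => ¬ P (Nat.pair n.unpair.1.unpair.1.unpair.1 n.unpair.2))
        (pr (pr (pr q (R y0)) 0) j) ↔ ¬ T P (pr q j) := by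
      intro j
      generalize R y0 = u
      obtain ⟨z, hz⟩ := ex_rep (0 : NN)
      rw [← hz]
      obtain ⟨q, rfl⟩ := ex_rep q
      obtain ⟨u, rfl⟩ := ex_rep u
      obtain ⟨j, rfl⟩ := ex_rep j
      simp only [pr_coe, T_coe, Nat.unpair_pair, Ultrafilter.eventually_not]
    have e2 : app (fun n => n.unpair.1.unpair.2) (pr (pr q (R y0)) 0) = R y0 := by
      have : app (fun n => n.unpair.1.unpair.2) (pr (pr q (R y0)) 0) =
          sn (fs (pr (pr q (R y0)) 0)) := by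
        rw [fs, sn]
        exact app_comp (fun n => n.unpair.2) (fun n => n.unpair.1) _
      rw [this, fs_pr, sn_pr]
    have e3 : Sm (fun n => ¬ P (Nat.pair n.unpair.1.unpair.1.unpair.1 n.unpair.2))
        (pr (pr q (R y0)) 0) ↔ Sm (fun n => ¬ P n) q := by
      clear e1 e2 h2 hns h1
      generalize R y0 = u at hRy0 ⊢
      obtain ⟨z, hz⟩ := ex_rep (0 : NN)
      rw [← hz]
      obtain ⟨q, rfl⟩ := ex_rep q
      obtain ⟨u, rfl⟩ := ex_rep u
      rw [pr_coe, pr_coe, Sm_coe, Sm_coe]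
      have : ∀ n, sz (fun n => ¬ P (Nat.pair n.unpair.1.unpair.1.unpair.1 n.unpair.2))
          (Nat.pair (Nat.pair (q n) (u n)) (z n)) n = sz (fun n => ¬ P n) (q n) n := by
        intro n
        exact sz_congr fun j => by simp only [Nat.unpair_pair]
      simp only [this]
    refine ⟨fun h5 => hns (e3.1 h5), fun j hj hDj => ?_⟩
    rw [e2]
    have h5 : ¬ E j := fun h6 => (e1 j).1 hDj ((h1 j hj.le).1 h6)
    by_contra h6
    apply h5
    by_cases h7 : BT (R y) j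
    · have h8 : ¬ BT (R y0) j := fun h9 => h6 ⟨fun _ => h9, fun _ => h7⟩
      exact ⟨y, hy, (le_max_left _ _).trans h3, h4, y0, hG.sub hy0, hy0C.1, hy0C.2, h7, h8⟩
    · have h8 : BT (R y0) j := by
        by_contra h9
        exact h6 ⟨fun h10 => absurd h10 h7, fun h10 => absurd h10 h9⟩
      exact ⟨y0, hG.sub hy0, hy0C.1, hy0C.2, y, hy, (le_max_left _ _).trans h3, h4, h8, h7⟩
  have h2 := hi _ hP.not q hq hsmall
  have h3 : T P (pr q i) := by
    by_contra h4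
    exact h2 ((T_not P _).2 h4)
  exact (h1 i hik.le).2 h3

end Pool.Agent.Lib.MP_82b75a_lc
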