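import Pool.Agent.Lib.MP_82b75a_lc.Grow

/-!
# The initial model and the scattered function
-/

namespace Pool.Agent.Lib.MP_82b75a_lc

open Classical Filter

/-- the trivial oracle -/
noncomputable def r0 : NN → NN := fun _ => 0

theorem good0 : Good M0 r0 (fun _ => 0) where
  app_mem := fun f hf a ha => M0_app hf ha
  pr_mem := fun a ha b hb => M0_pr ha hb
  sub := M0_sub_HH
  sup := Set.Subset.rfl
  ar := Ar.const 0
  coh := by
    intro w _ z _
    obtain ⟨w', hw'⟩ := ex_rep (r0 w)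
    obtain ⟨z, rfl⟩ := ex_rep z
    rw [← hw', pr_coe, app_coe]
    rfl
  mem := fun z _ => zero_mem_M0
  bd := by
    intro P hP p hp t ht
    have hD : Df (fun n => ∀ x < n.unpair.1.unpair.2,
        (∃ w, P (Nat.pair n.unpair.1.unpair.1 (Nat.pair x (Nat.pair w 0)))) →
        ∃ w < n.unpair.2, P (Nat.pair n.unpair.1.unpair.1 (Nat.pair x (Nat.pair w 0)))) := by
      refine Df.ball (P := fun n x =>
        (∃ w, P (Nat.pair n.unpair.1.unpair.1 (Nat.pair x (Nat.pair w 0)))) →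
        ∃ w < n.unpair.2, P (Nat.pair n.unpair.1.unpair.1 (Nat.pair x (Nat.pair w 0))))
        Ar.fst'.snd ?_
      refine Df.imp ?_ ?_
      · refine Df.ex (P := fun m w => P (Nat.pair m.unpair.1.unpair.1.unpair.1
          (Nat.pair m.unpair.2 (Nat.pair w 0)))) ?_
        exact hP.comp (Ar.fst'.fst.fst.fst.pair (Ar.fst'.snd.pair (Ar.snd'.pair (Ar.const 0))))
      · refine Df.bex (P := fun m w => P (Nat.pair m.unpair.1.unpair.1.unpair.1
          (Nat.pair m.unpair.2 (Nat.pair w 0)))) Ar.fst'.snd ?_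
        exact hP.comp (Ar.fst'.fst.fst.fst.pair (Ar.fst'.snd.pair (Ar.snd'.pair (Ar.const 0))))
    obtain ⟨S, hS, h⟩ := Ar.mu (P := fun n s => ∀ x < n.unpair.2,
        (∃ w, P (Nat.pair n.unpair.1 (Nat.pair x (Nat.pair w 0)))) →
        ∃ w < s, P (Nat.pair n.unpair.1 (Nat.pair x (Nat.pair w 0)))) hD
    have hex : ∀ n : ℕ, ∃ s, ∀ x < n.unpair.2,
        (∃ w, P (Nat.pair n.unpair.1 (Nat.pair x (Nat.pair w 0)))) →
        ∃ w < s, P (Nat.pair n.unpair.1 (Nat.pair x (Nat.pair w 0))) := by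
      intro n
      refine ⟨(Finset.range n.unpair.2).sup (fun x =>
        if h : ∃ w, P (Nat.pair n.unpair.1 (Nat.pair x (Nat.pair w 0))) then h.choose else 0) + 1,
        fun x hx hw => ⟨hw.choose, ?_, hw.choose_spec⟩⟩
      have := Finset.le_sup (f := fun x =>
        if h : ∃ w, P (Nat.pair n.unpair.1 (Nat.pair x (Nat.pair w 0))) then h.choose else 0)
        (Finset.mem_range.2 hx)
      simp only [dif_pos hw] at this
      exact Nat.lt_succ_of_le this
    refine ⟨app S (pr p t), M0_app hS (M0_pr hp ht), ?_⟩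
    intro x hx w _ hT
    have e0 : ∀ w, r0 w = ((fun _ => 0 : ℕ → ℕ) : NN) := fun _ => rfl
    simp only [e0] at hT ⊢
    obtain ⟨p, rfl⟩ := ex_rep p
    obtain ⟨t, rfl⟩ := ex_rep t
    obtain ⟨x, rfl⟩ := ex_rep x
    obtain ⟨w, rfl⟩ := ex_rep w
    rw [los_ex (Q := fun i w' => w' < S (Nat.pair (p i) (t i)) ∧
      P (Nat.pair (p i) (Nat.pair (x i) (Nat.pair w' 0)))) (fun w' => by
      simp only [pr_coe, app_coe, T_coe, Germ.coe_lt, eventually_and])]
    rw [Germ.coe_lt] at hx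
    simp only [pr_coe, T_coe] at hT
    filter_upwards [hx, hT] with i h1 h2
    have h3 := (h (Nat.pair (p i) (t i)) (hex _)).1 (x i) (by simpa using h1)
    simp only [Nat.unpair_pair] at h3
    exact h3 ⟨_, h2⟩

/-- counting vectors with prescribed bits -/
theorem card_prescribed (k : ℕ) (D : Finset ℕ) (hD : D ⊆ Finset.range k) (u : ℕ) :
    ((Finset.range (2 ^ k)).filter (fun v => ∀ j ∈ D, v.testBit j = u.testBit j)).card ≤
      2 ^ (k - D.card) := by
  have h1 : ((Finset.range k \ D).powerset).card = 2 ^ (k - D.card) := by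
    rw [Finset.card_powerset, Finset.card_sdiff_of_subset hD, Finset.card_range]
  rw [← h1]
  refine Finset.card_le_card_of_injOn
    (fun v => (Finset.range k \ D).filter (fun j => v.testBit j = true)) ?_ ?_
  · intro v _
    exact Finset.mem_coe.2 (Finset.mem_powerset.2 (Finset.filter_subset _ _))
  · intro v hv v' hv' hvv
    rw [Finset.mem_coe, Finset.mem_filter, Finset.mem_range] at hv hv'
    apply Nat.eq_of_testBit_eq
    intro j
    by_cases hj : j < k
    · by_cases hjD : j ∈ D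
      · rw [hv.2 j hjD, hv'.2 j hjD]
      · have h2 : (j ∈ (Finset.range k \ D).filter (fun j => v.testBit j = true)) ↔
            (j ∈ (Finset.range k \ D).filter (fun j => v'.testBit j = true)) := by
          simp only at hvv
          rw [hvv]
        simp only [Finset.mem_filter, Finset.mem_sdiff, Finset.mem_range, hj, hjD,
          not_false_eq_true, and_self, true_and] at h2
        exact Bool.eq_iff_iff.2 h2
    · have h2 : v < 2 ^ j := lt_of_lt_of_le hv.1 (Nat.pow_le_pow_right (by norm_num) (by omega))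
      have h3 : v' < 2 ^ j := lt_of_lt_of_le hv'.1 (Nat.pow_le_pow_right (by norm_num) (by omega))
      rw [Nat.testBit_eq_false_of_lt h2, Nat.testBit_eq_false_of_lt h3]

/-- the bad vectors of a requirement -/
def Bad (D : ℕ → Prop) (v : ℕ → ℕ) (p : NN) (e : ℕ) (u : NN) : Prop :=
  ∃ x < bpow e + 1, ¬ Sm D (pr p x) ∧
    ∀ i < kk, T D (pr (pr p x) i) → (BT u i ↔ BT (app v (pr p x)) i)

/-- pointwise version -/
def badP (D : ℕ → Prop) (v : ℕ → ℕ) (p i e u : ℕ) : Prop :=
  ∃ x < i ^ e + 1, i < sz D (Nat.pair p x) i ∧ ∀ j < i ^ 2, D (Nat.pair (Nat.pair p x) j) →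
    (u.testBit j = true ↔ (v (Nat.pair p x)).testBit j = true)

theorem Bad_coe (D : ℕ → Prop) (v : ℕ → ℕ) (p : ℕ → ℕ) (e : ℕ) (u : ℕ → ℕ) :
    Bad D v (p : NN) e (u : NN) ↔ ∀ᶠ i in (UU : Filter ℕ), badP D v (p i) i e (u i) := by
  unfold Bad badP
  have e1 : bpow e + 1 = ((fun i => i ^ e + 1 : ℕ → ℕ) : NN) := rfl
  rw [e1]
  apply los_ex
  intro x
  rw [kk_coe]
  rw [los_all (Q := fun i j => j < i ^ 2 → D (Nat.pair (Nat.pair (p i) (x i)) j) →
    ((u i).testBit j = true ↔ (v (Nat.pair (p i) (x i))).testBit j = true)) (fun j => by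
    simp only [pr_coe, app_coe, T_coe, BT_coe, Germ.coe_lt, Ultrafilter.eventually_imp]
    apply imp_congr_right
    intro _
    apply imp_congr_right
    intro _
    constructor
    · intro h
      by_cases h2 : ∀ᶠ i in (UU : Filter ℕ), (u i).testBit (j i) = true
      · filter_upwards [h2, h.1 h2] with i h3 h4
        exact ⟨fun _ => h4, fun _ => h3⟩
      · have h3 : ¬ ∀ᶠ i in (UU : Filter ℕ), (v (Nat.pair (p i) (x i))).testBit (j i) = true :=
          fun h4 => h2 (h.2 h4)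
        rw [← Ultrafilter.eventually_not] at h2 h3
        filter_upwards [h2, h3] with i h4 h5
        exact ⟨fun h => absurd h h4, fun h => absurd h h5⟩
    · intro h
      constructor
      · intro h2
        filter_upwards [h, h2] with i h3 h4 using h3.1 h4
      · intro h2
        filter_upwards [h, h2] with i h3 h4 using h3.2 h4)]
  rw [Germ.coe_lt, pr_coe, Sm_coe, ← Ultrafilter.eventually_not, ← eventually_and,
    ← eventually_and]
  simp only [not_le]

theorem card_bad (D : ℕ → Prop) (v : ℕ → ℕ) (p i e : ℕ) :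
    ((Finset.range (2 ^ (i ^ 2))).filter (fun u => badP D v p i e u)).card ≤
      (i ^ e + 1) * 2 ^ (i ^ 2 - i) := by
  have h1 : (Finset.range (2 ^ (i ^ 2))).filter (fun u => badP D v p i e u) ⊆
      ((Finset.range (i ^ e + 1)).filter (fun x => i < sz D (Nat.pair p x) i)).biUnion
        (fun x => (Finset.range (2 ^ (i ^ 2))).filter (fun u =>
          ∀ j ∈ ss D (Nat.pair p x) i, u.testBit j = (v (Nat.pair p x)).testBit j)) := by
    intro u hu
    rw [Finset.mem_filter] at hu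
    obtain ⟨hu1, x, hx, h2, h3⟩ := hu
    rw [Finset.mem_biUnion]
    refine ⟨x, Finset.mem_filter.2 ⟨Finset.mem_range.2 hx, h2⟩, Finset.mem_filter.2 ⟨hu1, ?_⟩⟩
    intro j hj
    rw [mem_ss] at hj
    exact Bool.eq_iff_iff.2 (h3 j hj.1 hj.2)
  refine (Finset.card_le_card h1).trans (Finset.card_biUnion_le.trans ?_)
  have h2 : ∀ x ∈ (Finset.range (i ^ e + 1)).filter (fun x => i < sz D (Nat.pair p x) i),
      ((Finset.range (2 ^ (i ^ 2))).filter (fun u =>
          ∀ j ∈ ss D (Nat.pair p x) i, u.testBit j = (v (Nat.pair p x)).testBit j)).card ≤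
        2 ^ (i ^ 2 - i) := by
    intro x hx
    rw [Finset.mem_filter] at hx
    refine (card_prescribed (i ^ 2) (ss D (Nat.pair p x) i) ?_ _).trans ?_
    · intro j hj
      rw [mem_ss] at hj
      exact Finset.mem_range.2 hj.1
    · apply Nat.pow_le_pow_right (by norm_num)
      have : i < (ss D (Nat.pair p x) i).card := hx.2
      omega
  refine (Finset.sum_le_card_nsmul _ _ _ h2).trans ?_
  rw [smul_eq_mul]
  apply Nat.mul_le_mul_right
  refine (Finset.card_filter_le _ _).trans ?_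
  rw [Finset.card_range]

theorem eventually_pow_lt (E : ℕ) : ∀ᶠ i in (atTop : Filter ℕ), i ^ E < 2 ^ i := by
  have h := tendsto_pow_const_div_const_pow_of_one_lt E (one_lt_two (α := ℝ))
  have h2 := h.eventually (gt_mem_nhds (show (0 : ℝ) < 1 by norm_num))
  refine h2.mono fun i hi => ?_
  have h3 : (0 : ℝ) < 2 ^ i := by positivity
  have h4 := (div_lt_iff₀ h3).1 hi
  rw [one_mul] at h4
  exact_mod_cast h4

theorem UU_of_atTop {p : ℕ → Prop} (h : ∀ᶠ i in (atTop : Filter ℕ), p i) :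
    ∀ᶠ i in (UU : Filter ℕ), p i := by
  rw [← Nat.cofinite_eq_atTop] at h
  exact hyperfilter_le_cofinite h

/-- `2 ^ (b ^ 2)` -/
noncomputable def KK : NN := app (fun n => 2 ^ (n ^ 2)) bb

theorem KK_mem : KK ∈ M0 := ⟨_, (Ar.const 2).pow (Ar.id.pow (Ar.const 2)), rfl⟩

theorem avoid (n : ℕ) (q : ℕ → ((ℕ → Prop) × (ℕ → ℕ)) × NN × ℕ) :
    ∃ u < KK, ∀ l < n, ¬ Bad (q l).1.1 (q l).1.2 (q l).2.1 (q l).2.2 u := by
  choose p hp using fun l => ex_rep (q l).2.1
  set E := (Finset.range n).sup (fun l => (q l).2.2) with hE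
  have hlt : ∀ᶠ i in (UU : Filter ℕ), ∑ l ∈ Finset.range n, (i ^ (q l).2.2 + 1) < 2 ^ i := by
    apply UU_of_atTop
    filter_upwards [eventually_pow_lt (E + 2), eventually_ge_atTop (n + 2)] with i h1 h2
    have h3 : ∀ l ∈ Finset.range n, i ^ (q l).2.2 + 1 ≤ i ^ (E + 1) := by
      intro l hl
      have h4 : (q l).2.2 ≤ E := Finset.le_sup (f := fun l => (q l).2.2) hl
      have h5 : i ^ (q l).2.2 ≤ i ^ E := Nat.pow_le_pow_right (by omega) h4
      have h6 : i ^ (E + 1) = i ^ E * i := pow_succ _ _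
      have h7 : 1 ≤ i ^ E := Nat.one_le_pow _ _ (by omega)
      rw [h6]
      nlinarith
    have h4 := Finset.sum_le_card_nsmul _ _ _ h3
    rw [Finset.card_range, smul_eq_mul] at h4
    have h5 : n * i ^ (E + 1) ≤ i ^ (E + 2) := by
      have h6 : i ^ (E + 2) = i * i ^ (E + 1) := by ring
      rw [h6]
      exact Nat.mul_le_mul_right _ (by omega)
    omega
  have hpt : ∀ᶠ i in (UU : Filter ℕ), ∃ u, u < 2 ^ (i ^ 2) ∧
      ∀ l < n, ¬ badP (q l).1.1 (q l).1.2 (p l i) i (q l).2.2 u := by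
    refine hlt.mono fun i hi => ?_
    by_contra hcon
    push Not at hcon
    have h1 : Finset.range (2 ^ (i ^ 2)) ⊆ (Finset.range n).biUnion (fun l =>
        (Finset.range (2 ^ (i ^ 2))).filter
          (fun u => badP (q l).1.1 (q l).1.2 (p l i) i (q l).2.2 u)) := by
      intro u hu
      obtain ⟨l, hl, hb⟩ := hcon u (Finset.mem_range.1 hu)
      rw [Finset.mem_biUnion]
      exact ⟨l, Finset.mem_range.2 hl, Finset.mem_filter.2 ⟨hu, hb⟩⟩
    have h2 := (Finset.card_le_card h1).trans Finset.card_biUnion_le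
    rw [Finset.card_range] at h2
    have h3 : ∑ l ∈ Finset.range n, ((Finset.range (2 ^ (i ^ 2))).filter
          (fun u => badP (q l).1.1 (q l).1.2 (p l i) i (q l).2.2 u)).card ≤
        ∑ l ∈ Finset.range n, (i ^ (q l).2.2 + 1) * 2 ^ (i ^ 2 - i) :=
      Finset.sum_le_sum fun l _ => card_bad _ _ _ _ _
    rw [← Finset.sum_mul] at h3
    have h4 : (∑ l ∈ Finset.range n, (i ^ (q l).2.2 + 1)) * 2 ^ (i ^ 2 - i) <
        2 ^ i * 2 ^ (i ^ 2 - i) := Nat.mul_lt_mul_of_pos_right hi (by positivity)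
    have h5 : 2 ^ i * 2 ^ (i ^ 2 - i) = 2 ^ (i ^ 2) := by
      rw [← pow_add]
      congr 1
      have : i ≤ i ^ 2 := by nlinarith [Nat.zero_le i, sq_nonneg i, Nat.le_self_pow (n := 2) (by norm_num) i]
      omega
    omega
  have hex := (los_ex (S := fun u => u < KK ∧
      ∀ l < n, ¬ Bad (q l).1.1 (q l).1.2 (q l).2.1 (q l).2.2 u) (Q := fun i u =>
      u < 2 ^ (i ^ 2) ∧ ∀ l < n, ¬ badP (q l).1.1 (q l).1.2 (p l i) i (q l).2.2 u) (fun u => by
    have e1 : KK = ((fun i => 2 ^ (i ^ 2) : ℕ → ℕ) : NN) := rfl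
    rw [e1, Germ.coe_lt, eventually_and]
    apply and_congr_right
    intro _
    have e2 : (∀ᶠ i in (UU : Filter ℕ), ∀ l < n,
        ¬ badP (q l).1.1 (q l).1.2 (p l i) i (q l).2.2 (u i)) ↔
        ∀ l < n, ∀ᶠ i in (UU : Filter ℕ),
          ¬ badP (q l).1.1 (q l).1.2 (p l i) i (q l).2.2 (u i) := by
      have := Filter.eventually_all_finite (l := (UU : Filter ℕ)) (Set.finite_lt_nat n)
        (p := fun l i => ¬ badP (q l).1.1 (q l).1.2 (p l i) i (q l).2.2 (u i))
      exact this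
    rw [e2]
    apply forall_congr'
    intro l
    apply imp_congr_right
    intro _
    rw [← hp l, Bad_coe, ← Ultrafilter.eventually_not])).2 hpt
  exact hex

theorem Dl.bad {D : ℕ → Prop} (hD : Df D) {v : ℕ → ℕ} (hv : Ar v) {p : NN} (hp : p ∈ M0)
    (e : ℕ) : Dl M0 r0 (fun u => Bad D v p e u) := by
  have hG := good0
  have hid := Fn.id hG
  have hbe : bpow e ∈ M0 := ⟨_, Ar.id.pow (Ar.const e), rfl⟩
  refine Dl.bex (A := fun u x => ¬ Sm D (pr p x) ∧
    ∀ i < kk, T D (pr (pr p x) i) → (BT u i ↔ BT (app v (pr p x)) i)) hG ?_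
    (Fn.add hG (Fn.const hbe) (Fn.const one_mem_M0))
  refine Dl.and hG ?_ ?_
  · have hS : Df (fun m => sz D m.unpair.1 m.unpair.2 ≤ m.unpair.2) :=
      Df.le (ar_sz hD Ar.fst' Ar.snd') Ar.snd'
    exact (Dl.int hG hS (Fn.pr hG (Fn.pr hG (Fn.const hp) hid.sn) (Fn.const bb_mem))).not
  · refine Dl.ball (A := fun a i => T D (pr (pr p (sn a)) i) →
      (BT (fs a) i ↔ BT (app v (pr p (sn a))) i)) hG ?_ (Fn.const kk_mem)
    have h1 : Dl M0 r0 (fun a => T D (pr (pr p (sn (fs a))) (sn a))) :=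
      Dl.int hG hD (Fn.pr hG (Fn.pr hG (Fn.const hp) hid.fs.sn) hid.sn)
    have h2 : Dl M0 r0 (fun a => BT (fs (fs a)) (sn a)) :=
      Dl.int hG df_testBit (Fn.pr hG hid.fs.fs hid.sn)
    have h3 : Dl M0 r0 (fun a => BT (app v (pr p (sn (fs a)))) (sn a)) :=
      Dl.int hG df_testBit (Fn.pr hG ((Fn.pr hG (Fn.const hp) hid.fs.sn).app hv) hid.sn)
    exact (h1.imp hG ((h2.imp hG h3).and hG (h3.imp hG h2))).congr fun a _ => by
      constructor
      · intro h h4
        exact ⟨(h h4).1, (h h4).2⟩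
      · intro h h4
        exact ⟨(h h4).1, (h h4).2⟩

/-- the initial oracle: a scattered function -/
theorem exists_scattered : ∃ (r : NN → NN) (τ : ℕ → ℕ) (R : NN → NN),
    Good M0 r τ ∧ Rdf r R ∧ Scat M0 R := by
  have : Countable M0 := M0_countable.to_subtype
  have : Nonempty M0 := ⟨⟨bb, bb_mem⟩⟩
  obtain ⟨e, he⟩ := exists_surjective_nat ((Cd × Cd) × M0 × ℕ)
  let q : ℕ → ((ℕ → Prop) × (ℕ → ℕ)) × NN × ℕ := fun l =>
    (((fun m => (e l).1.1.ev m = 0), (e l).1.2.ev), ((e l).2.1 : NN), (e l).2.2)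
  let Q : ℕ → NN → NN → Prop := fun n _ u =>
    ∀ l < n, ¬ Bad (q l).1.1 (q l).1.2 (q l).2.1 (q l).2.2 u
  have hQ : ∀ n, Sg M0 r0 (fun a => Q n (fs a) (sn a)) := by
    intro n
    induction n with
    | zero =>
      refine (Dl.le good0 (Fn.id good0) (Fn.id good0)).pos.congr fun x _ => ?_
      constructor
      · intro _; exact le_rfl
      · intro _ l hl; omega
    | succ n ih =>
      have h1 := (Dl.bad (D := (q n).1.1) (v := (q n).1.2) (p := (q n).2.1)
        (Df.of_ar ⟨(e n).1.1, rfl⟩) ⟨(e n).1.2, rfl⟩ (e n).2.1.2 (q n).2.2).neg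
      refine (ih.and good0 (h1.sub good0 (Fn.id good0).sn)).congr fun x _ => ?_
      constructor
      · intro h
        exact ⟨fun l hl => h l (by omega), h n (Nat.lt_succ_self n)⟩
      · rintro ⟨h2, h3⟩ l hl
        rcases Nat.lt_succ_iff_lt_or_eq.1 hl with h4 | h4
        · exact h2 l h4
        · rw [h4]; exact h3
  obtain ⟨g, F, s, -, hF, hG, -, hs, -⟩ := force good0 M0_countable KK_mem Q hQ
    (fun n y v h l hl => h l (Nat.lt_succ_of_lt hl)) (fun n y _ => avoid n q)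
  refine ⟨_, _, g, hG, ?_, ?_⟩
  · refine ⟨fun n => get n.unpair.1.unpair.2 n.unpair.2, Ar.get Ar.fst'.snd Ar.snd',
      fun y _ z hz hyz => ?_⟩
    rw [← hF z hz y hyz]
    show gt (F z) y = app (fun n => get n.unpair.1.unpair.2 n.unpair.2) (pr (pr (r0 z) (F z)) y)
    generalize F z = c
    obtain ⟨u, hu⟩ := ex_rep (r0 z)
    rw [← hu]
    obtain ⟨c, rfl⟩ := ex_rep c
    obtain ⟨y, rfl⟩ := ex_rep y
    simp only [pr_coe, app_coe, gt_coe, Nat.unpair_pair]
  · intro D hD v hv p hp E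
    obtain ⟨d, hd⟩ := hD
    obtain ⟨c, rfl⟩ := hv
    have hDd : D = fun m => d.ev m = 0 := funext fun m => propext (hd m)
    obtain ⟨l, hl⟩ := he ((d, c), ⟨p, hp⟩, E)
    refine ⟨s (l + 1), (hs _).1, fun y hy hsy x hx hcon => ?_⟩
    have h1 := (hs (l + 1)).2 y hy hsy l (Nat.lt_succ_self l)
    apply h1
    simp only [q, hl]
    rw [← hDd]
    exact ⟨x, (lt_add_one_iff_NN _ _).2 hx, hcon⟩

end Pool.Agent.Lib.MP_82b75a_lc
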