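import Pool.Agent.Lib.MP_82b75a_lc.Cads

/-!
# COH fails in the final structure; the main theorem
-/

namespace Pool.Agent.Lib.MP_82b75a_lc

open Classical Filter

theorem nat_pc_inj {i y i' y' : ℕ} (h : (i + y) * (i + y) + i = (i' + y') * (i' + y') + i') :
    i = i' ∧ y = y' := by
  have h1 : i + y = i' + y' := by
    rcases lt_trichotomy (i + y) (i' + y') with h2 | h2 | h2
    · nlinarith
    · exact h2
    · nlinarith
  rw [h1] at h
  omega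

theorem pc_inj_NN {i y i' y' : NN}
    (h : (i + y) * (i + y) + i = (i' + y') * (i' + y') + i') : i = i' ∧ y = y' := by
  obtain ⟨i, rfl⟩ := ex_rep i
  obtain ⟨y, rfl⟩ := ex_rep y
  obtain ⟨i', rfl⟩ := ex_rep i'
  obtain ⟨y', rfl⟩ := ex_rep y'
  have h1 : ((fun n => (i n + y n) * (i n + y n) + i n : ℕ → ℕ) : NN) =
      ((fun n => (i' n + y' n) * (i' n + y' n) + i' n : ℕ → ℕ) : NN) := h
  rw [coe_eq_coe] at h1
  exact ⟨coe_eq_coe.2 (h1.mono fun n hn => (nat_pc_inj hn).1),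
    coe_eq_coe.2 (h1.mono fun n hn => (nat_pc_inj hn).2)⟩

theorem pc_le_NN (i y : NN) : i ≤ (i + y) * (i + y) + i ∧ y ≤ (i + y) * (i + y) + i := by
  obtain ⟨i, rfl⟩ := ex_rep i
  obtain ⟨y, rfl⟩ := ex_rep y
  have h1 : ((i : NN) + (y : NN)) * ((i : NN) + (y : NN)) + (i : NN) =
    ((fun n => (i n + y n) * (i n + y n) + i n : ℕ → ℕ) : NN) := rfl
  rw [h1, Germ.coe_le, Germ.coe_le]
  constructor
  · exact Eventually.of_forall fun n => Nat.le_add_left _ _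
  · refine Eventually.of_forall fun n => ?_
    show y n ≤ (i n + y n) * (i n + y n) + i n
    have h2 := Nat.le_mul_self (i n + y n)
    omega

variable {M : Set NN} {r : ℕ → NN → NN} {τ : ℕ → ℕ → ℕ}

theorem not_coh_str (hG : ∀ n, Good M (r n) (τ n)) (hR : Rdf (r 0) RR)
    (hK : ∀ n C, Dl M (r n) C → Unb M C → ∃ i ∈ M, ∀ s ∈ M, ∃ y ∈ M, ∃ y' ∈ M,
      s ≤ y ∧ s ≤ y' ∧ C y ∧ C y' ∧ BT (RR y) i ∧ ¬ BT (RR y') i) : ¬ COH (str hG) := by
  intro hcoh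
  have hG0 := hG 0
  have hid := Fn.id hG0
  have hsw : Df (fun n => n.unpair.2.testBit n.unpair.1 = true) := by
    have := df_testBit.comp (Ar.snd'.pair Ar.fst')
    simpa only [Nat.unpair_pair] using this
  have hBT : ∀ {f g : NN → NN}, Fn M f → Fn M g → Dl M (r 0) (fun x => BT (RR (g x)) (f x)) := by
    intro f g hf hg
    refine (Dl.rdf hG0 hR hsw hf hg).congr fun x _ => ?_
    generalize RR (g x) = u
    generalize f x = v
    obtain ⟨u, rfl⟩ := ex_rep u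
    obtain ⟨v, rfl⟩ := ex_rep v
    simp only [BT_coe, pr_coe, T_coe, Nat.unpair_pair]
  have h1M : (1 : NN) ∈ M := hG0.sup one_mem_M0
  set W : NN → Prop := fun x => ∃ i < x + 1, ∃ y < x + 1,
    x = (i + y) * (i + y) + i ∧ BT (RR y) i with hW
  have hWd : Dl M (r 0) W := by
    refine Dl.bex (A := fun x i => ∃ y < x + 1, x = (i + y) * (i + y) + i ∧ BT (RR y) i) hG0 ?_
      (Fn.add hG0 hid (Fn.const h1M))
    refine Dl.bex (A := fun a y => fs a = (sn a + y) * (sn a + y) + sn a ∧ BT (RR y) (sn a)) hG0 ?_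
      (Fn.add hG0 hid.fs (Fn.const h1M))
    have h2 := Fn.add hG0 hid.fs.sn hid.sn
    exact (Dl.eq hG0 hid.fs.fs (Fn.add hG0 (Fn.mul hG0 h2 h2) hid.fs.sn)).and hG0
      (hBT hid.fs.sn hid.sn)
  have hWpc : ∀ i y : NN, W ((i + y) * (i + y) + i) ↔ BT (RR y) i := by
    intro i y
    constructor
    · rintro ⟨i', -, y', -, h1, h2⟩
      obtain ⟨rfl, rfl⟩ := pc_inj_NN h1
      exact h2
    · intro h
      exact ⟨i, (lt_add_one_iff_NN _ _).2 (pc_le_NN i y).1, y,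
        (lt_add_one_iff_NN _ _).2 (pc_le_NN i y).2, rfl, h⟩
  have hpc : ∀ i y : M, pc (str hG) i y ∈ {x : M | W x.1} ↔ BT (RR y.1) i.1 :=
    fun i y => hWpc i.1 y.1
  obtain ⟨C, ⟨n, Y, hY, hCY⟩, hinf, hcoh⟩ := hcoh {x : M | W x.1} ⟨0, W, hWd, fun x => Iff.rfl⟩
  obtain ⟨i, hi, h⟩ := hK n Y hY (unb_of_not_fin hG hCY hinf)
  rcases hcoh ⟨i, hi⟩ with ⟨⟨m, hm⟩, h1⟩ | ⟨⟨m, hm⟩, h1⟩
  · obtain ⟨y, hy, y', hy', h2, h3, h4, h5, h6, h7⟩ := h m hm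
    have h8 := h1 ⟨y', hy'⟩ ⟨(hCY _).2 h5, fun h9 => h7 ((hpc ⟨i, hi⟩ ⟨y', hy'⟩).1 h9)⟩
    exact absurd h8 (not_lt.2 h3)
  · obtain ⟨y, hy, y', hy', h2, h3, h4, h5, h6, h7⟩ := h m hm
    have h8 := h1 ⟨y, hy⟩ ⟨(hCY _).2 h4, (hpc ⟨i, hi⟩ ⟨y, hy⟩).2 h6⟩
    exact absurd h8 (not_lt.2 h2)

/-- the main theorem -/
theorem main : ∃ A : L2, Countable A.N ∧ RCA0 A ∧ CADS A ∧ ¬ COH A := by
  obtain ⟨M, r, τ, hc, hG, hred, hR, h1, h2⟩ := exists_model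
  exact ⟨str hG, hc.to_subtype, rca_str hG hred, cads_str hG hred h1, not_coh_str hG hR h2⟩

end Pool.Agent.Lib.MP_82b75a_lc
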