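import Pool.Agent.Lib.MP_82b75a_lc.Chain
import Pool.Agent.Lib.MP_82b75a_lc.Defs

/-!
# The structure given by a model and its oracles; RCA_0
-/

namespace Pool.Agent.Lib.MP_82b75a_lc

open Classical Filter

/-- the second-order structure -/
noncomputable abbrev str {M : Set NN} {r : ℕ → NN → NN} {τ : ℕ → ℕ → ℕ}
    (hG : ∀ n, Good M (r n) (τ n)) : L2 where
  N := M
  zero := ⟨0, (hG 0).sup zero_mem_M0⟩
  one := ⟨1, (hG 0).sup one_mem_M0⟩
  add a b := ⟨a.1 + b.1, (hG 0).add_mem a.2 b.2⟩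
  mul a b := ⟨a.1 * b.1, (hG 0).mul_mem a.2 b.2⟩
  lt a b := a.1 < b.1
  Sets := {Z | ∃ n X, Dl M (r n) X ∧ ∀ x : M, x ∈ Z ↔ X x.1}
  sets_nonempty := ⟨{x : M | x.1 = x.1}, 0, fun x => x = x,
    Dl.eq (hG 0) (Fn.id (hG 0)) (Fn.id (hG 0)), fun _ => Iff.rfl⟩

theorem Fn.mul {M : Set NN} {r : NN → NN} {τ : ℕ → ℕ} (hG : Good M r τ) {f g : NN → NN}
    (hf : Fn M f) (hg : Fn M g) : Fn M (fun x => f x * g x) := by
  have h := (Fn.pr hG hf hg).app (Ar.fst'.mul Ar.snd')
  have : (fun x => f x * g x) = fun x => MP_82b75a_lc.app (fun n => n.unpair.1 * n.unpair.2)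
      (MP_82b75a_lc.pr (f x) (g x)) := funext fun x => mul_eq _ _
  rw [this]
  exact h

variable {M : Set NN} {r : ℕ → NN → NN} {τ : ℕ → ℕ → ℕ}

theorem tm_fn (hG : ∀ n, Good M (r n) (τ n)) (t : Tm) (e : ℕ → NN → NN)
    (he : ∀ i, Fn M (e i)) :
    ∃ F, Fn M F ∧ ∀ a ∈ M, ∀ v : ℕ → M, (∀ i, (v i).1 = e i a) →
      (t.val (str hG) v : M).1 = F a := by
  induction t with
  | var i => exact ⟨e i, he i, fun a _ v hv => hv i⟩
  | zero => exact ⟨fun _ => 0, Fn.const ((hG 0).sup zero_mem_M0), fun _ _ _ _ => rfl⟩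
  | one => exact ⟨fun _ => 1, Fn.const ((hG 0).sup one_mem_M0), fun _ _ _ _ => rfl⟩
  | add s t ihs iht =>
    obtain ⟨F, hF, h1⟩ := ihs
    obtain ⟨F', hF', h2⟩ := iht
    refine ⟨fun x => F x + F' x, Fn.add (hG 0) hF hF', fun a ha v hv => ?_⟩
    beta_reduce
    rw [← h1 a ha v hv, ← h2 a ha v hv]
    rfl
  | mul s t ihs iht =>
    obtain ⟨F, hF, h1⟩ := ihs
    obtain ⟨F', hF', h2⟩ := iht
    refine ⟨fun x => F x * F' x, Fn.mul (hG 0) hF hF', fun a ha v hv => ?_⟩
    beta_reduce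
    rw [← h1 a ha v hv, ← h2 a ha v hv]
    rfl

theorem eval (hG : ∀ n, Good M (r n) (τ n)) (hred : ∀ m n, m ≤ n → Red (r m) (r n)) (φ : BFm)
    (S : ℕ → Set M) (hS : ∀ i, S i ∈ (str hG).Sets) :
    ∃ n0, ∀ n, n0 ≤ n → ∀ e : ℕ → NN → NN, (∀ i, Fn M (e i)) → ∃ B, Dl M (r n) B ∧
      ∀ a ∈ M, ∀ v : ℕ → M, (∀ i, (v i).1 = e i a) → (φ.Sat (str hG) S v ↔ B a) := by
  induction φ with
  | eq s t =>
    refine ⟨0, fun n _ e he => ?_⟩
    obtain ⟨F, hF, h1⟩ := tm_fn hG s e he
    obtain ⟨F', hF', h2⟩ := tm_fn hG t e he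
    refine ⟨fun x => F x = F' x, Dl.eq (hG n) hF hF', fun a ha v hv => ?_⟩
    beta_reduce
    rw [← h1 a ha v hv, ← h2 a ha v hv]
    exact Subtype.ext_iff
  | lt s t =>
    refine ⟨0, fun n _ e he => ?_⟩
    obtain ⟨F, hF, h1⟩ := tm_fn hG s e he
    obtain ⟨F', hF', h2⟩ := tm_fn hG t e he
    refine ⟨fun x => F x < F' x, Dl.lt (hG n) hF hF', fun a ha v hv => ?_⟩
    beta_reduce
    rw [← h1 a ha v hv, ← h2 a ha v hv]
    exact Iff.rfl
  | mem t i =>
    obtain ⟨m, X, hX, h⟩ := hS i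
    refine ⟨m, fun n hn e he => ?_⟩
    obtain ⟨F, hF, h1⟩ := tm_fn hG t e he
    refine ⟨fun x => X (F x), (hX.up Set.Subset.rfl (hred m n hn)).sub (hG n) hF,
      fun a ha v hv => ?_⟩
    beta_reduce
    rw [← h1 a ha v hv]
    exact h _
  | neg φ ih =>
    obtain ⟨n0, h⟩ := ih
    refine ⟨n0, fun n hn e he => ?_⟩
    obtain ⟨B, hB, h1⟩ := h n hn e he
    exact ⟨fun x => ¬ B x, hB.not, fun a ha v hv => not_congr (h1 a ha v hv)⟩
  | and φ ψ ih ih' =>
    obtain ⟨n0, h⟩ := ih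
    obtain ⟨n1, h'⟩ := ih'
    refine ⟨max n0 n1, fun n hn e he => ?_⟩
    obtain ⟨B, hB, h1⟩ := h n ((le_max_left _ _).trans hn) e he
    obtain ⟨B', hB', h2⟩ := h' n ((le_max_right _ _).trans hn) e he
    exact ⟨fun x => B x ∧ B' x, hB.and (hG n) hB',
      fun a ha v hv => and_congr (h1 a ha v hv) (h2 a ha v hv)⟩
  | ball i t φ ih =>
    obtain ⟨n0, h⟩ := ih
    refine ⟨n0, fun n hn e he => ?_⟩
    have hid := Fn.id (hG n)
    obtain ⟨F, hF, h1⟩ := tm_fn hG t e he
    obtain ⟨B, hB, h2⟩ := h n hn (fun j a => if j = i then sn a else e j (fs a)) (fun j => by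
      by_cases hj : j = i
      · simp only [hj, if_true]
        exact hid.sn
      · simp only [hj, if_false]
        exact Fn.comp (hG n) (he j) hid.fs)
    refine ⟨fun a => ∀ y < F a, B (pr a y), ?_, fun a ha v hv => ?_⟩
    · refine Dl.ball (A := fun a y => B (pr a y)) (hG n) ?_ hF
      simpa only [pr_eta] using hB
    · have h3 : ∀ x : M, (φ.Sat (str hG) S (Function.update v i x) ↔ B (pr a x.1)) := by
        intro x
        apply h2 (pr a x.1) ((hG n).pr_mem _ ha _ x.2)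
        intro j
        by_cases hj : j = i
        · subst hj
          simp only [if_true, sn_pr]
          have : Function.update v j x j = x := Function.update_self _ _ _
          exact congrArg Subtype.val this
        · simp only [hj, if_false, fs_pr]
          have : Function.update v i x j = v j := Function.update_of_ne hj _ _
          exact (congrArg Subtype.val this).trans (hv j)
      have hFa : F a ∈ M := hF.memM (hG n) ha
      constructor
      · intro h4
        by_contra h5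
        push Not at h5
        obtain ⟨y, hy, h6⟩ := h5
        have hS' : Sg M (r n) (fun y => y < F a ∧ ¬ B (pr a y)) :=
          (Dl.lt (hG n) hid (Fn.const hFa)).pos.and (hG n)
            (hB.neg.sub (hG n) (Fn.pr (hG n) (Fn.const ha) hid))
        obtain ⟨y', hy', h7, h8⟩ := hS'.elem (hG n) ⟨y, HH_down ((hG n).sub hFa) hy.le, hy, h6⟩
        apply h8
        rw [← h3 ⟨y', hy'⟩]
        apply h4
        show y' < (t.val (str hG) v : M).1
        rw [h1 a ha v hv]
        exact h7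
      · intro h4 x hx
        rw [h3 x]
        apply h4
        rw [← h1 a ha v hv]
        exact hx

theorem sigma_sg (hG : ∀ n, Good M (r n) (τ n)) (hred : ∀ m n, m ≤ n → Red (r m) (r n))
    {P : M → Prop} (hP : Sigma01 (str hG) P) :
    ∃ n0, ∀ n, n0 ≤ n → ∃ A, Sg M (r n) A ∧ ∀ x : M, P x ↔ A x.1 := by
  obtain ⟨θ, S, v, hS, h⟩ := hP
  obtain ⟨n0, h1⟩ := eval hG hred θ S hS
  refine ⟨n0, fun n hn => ?_⟩
  have hid := Fn.id (hG n)
  obtain ⟨B, hB, h2⟩ := h1 n hn (fun j a => if j = 1 then sn a else if j = 0 then fs a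
    else (v j : M).1) (fun j => by
      by_cases hj : j = 1
      · simp only [hj, if_true]
        exact hid.sn
      · by_cases hj' : j = 0
        · simp only [hj', if_true]
          exact hid.fs
        · simp only [hj, hj', if_false]
          exact Fn.const (v j : M).2)
  refine ⟨fun x => ∃ z ∈ HH, B (pr x z), ?_, fun x => ?_⟩
  · refine Sg.ex (A := fun x z => B (pr x z)) (hG n) ?_
    simpa only [pr_eta] using hB.pos
  · rw [h x]
    have h3 : ∀ z : M, (θ.Sat (str hG) S (Function.update (Function.update v 0 x) 1 z) ↔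
        B (pr x.1 z.1)) := by
      intro z
      apply h2 (pr x.1 z.1) ((hG n).pr_mem _ x.2 _ z.2)
      intro j
      by_cases hj : j = 1
      · subst hj
        simp only [if_true, sn_pr]
        have : Function.update (Function.update v 0 x) 1 z 1 = z := Function.update_self _ _ _
        exact congrArg Subtype.val this
      · by_cases hj' : j = 0
        · subst hj'
          simp only [if_true, fs_pr]
          have : Function.update (Function.update v 0 x) 1 z 0 = x := by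
            rw [Function.update_of_ne (by norm_num)]
            exact Function.update_self _ _ _
          exact congrArg Subtype.val this
        · simp only [hj, hj', if_false]
          have : Function.update (Function.update v 0 x) 1 z j = v j := by
            rw [Function.update_of_ne hj, Function.update_of_ne hj']
          exact congrArg Subtype.val this
    constructor
    · rintro ⟨z, hz⟩
      exact ⟨(z : M).1, (hG n).sub (z : M).2, (h3 z).1 hz⟩
    · rintro ⟨z, hz, hz2⟩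
      obtain ⟨z', hz', h4⟩ := (hB.pos.sub (hG n) (Fn.pr (hG n) (Fn.const x.2) hid)).elem (hG n)
        ⟨z, hz, hz2⟩
      exact ⟨⟨z', hz'⟩, (h3 ⟨z', hz'⟩).2 h4⟩

theorem Sg.full {M : Set NN} {r : NN → NN} {τ : ℕ → ℕ} (hG : Good M r τ) {A : NN → Prop}
    (hA : Sg M r A) (h : ∀ x ∈ M, A x) : ∀ x ∈ HH, A x := by
  intro x hx
  by_contra hAx
  obtain ⟨t, ht, hxt⟩ := hG.cof hx
  obtain ⟨P, hP, q, hq, h1⟩ := hA.intern hG (hG.sub ht)
  have hid := Fn.id hG
  have h2 : Sg M r (fun y => ¬ T P (pr q y) ∧ y ≤ t) :=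
    (Dl.int hG hP (Fn.pr hG (Fn.const hq) hid)).neg.and hG (Dl.le hG hid (Fn.const ht)).pos
  obtain ⟨y, hy, h3, h4⟩ := h2.elem hG ⟨x, hx, fun h5 => hAx ((h1 x hxt.le).2 h5), hxt.le⟩
  exact h3 ((h1 y h4).1 (h y hy))

theorem add_one_inj_NN {a b : NN} (h : a + 1 = b + 1) : a = b := by
  obtain ⟨a, rfl⟩ := ex_rep a
  obtain ⟨b, rfl⟩ := ex_rep b
  have h1 : ((fun i => a i + 1 : ℕ → ℕ) : NN) = ((fun i => b i + 1 : ℕ → ℕ) : NN) := h
  rw [coe_eq_coe] at h1 ⊢
  exact h1.mono fun i hi => Nat.succ_injective hi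

theorem add_one_ne_zero_NN (a : NN) : a + 1 ≠ 0 := by
  intro h
  have h1 : (0 : NN) < a + 1 := (lt_add_one_iff_NN _ _).2 (zero_le_NN a)
  rw [h] at h1
  exact lt_irrefl _ h1

theorem basic_str (hG : ∀ n, Good M (r n) (τ n)) : Basic (str hG) where
  succ_ne_zero := fun n h => add_one_ne_zero_NN (n : M).1 (congrArg Subtype.val h)
  succ_inj := fun m n h => Subtype.ext (add_one_inj_NN (congrArg Subtype.val h))
  add_zero := fun m => Subtype.ext (add_zero (m : M).1)
  add_succ := fun m n => Subtype.ext (add_assoc (m : M).1 (n : M).1 1).symm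
  mul_zero := fun m => Subtype.ext (mul_zero (m : M).1)
  mul_succ := fun m n => Subtype.ext (by
    show (m : M).1 * ((n : M).1 + 1) = (m : M).1 * (n : M).1 + (m : M).1
    rw [mul_add, mul_one])
  not_lt_zero := fun m h => not_lt.2 (zero_le_NN (m : M).1) h
  lt_succ := fun m n => by
    show (m : M).1 < (n : M).1 + 1 ↔ _
    rw [lt_add_one_iff_NN, le_iff_lt_or_eq]
    exact or_congr Iff.rfl Subtype.ext_iff.symm

theorem rca_str (hG : ∀ n, Good M (r n) (τ n)) (hred : ∀ m n, m ≤ n → Red (r m) (r n)) :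
    RCA0 (str hG) where
  basic := basic_str hG
  induction := by
    intro P hP h0 hs n
    obtain ⟨n0, h⟩ := sigma_sg hG hred hP
    obtain ⟨A, hA, h1⟩ := h n0 le_rfl
    rw [h1 n]
    refine (hG n0).induct hA ((h1 _).1 h0) (fun x hx hAx => ?_) (n : M).1 (n : M).2
    exact (h1 _).1 (hs ⟨x, hx⟩ ((h1 ⟨x, hx⟩).2 hAx))
  comprehension := by
    intro P hP hP'
    obtain ⟨n0, h⟩ := sigma_sg hG hred hP
    obtain ⟨n1, h'⟩ := sigma_sg hG hred hP'
    obtain ⟨A, hA, h1⟩ := h (max n0 n1) (le_max_left _ _)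
    obtain ⟨A', hA', h2⟩ := h' (max n0 n1) (le_max_right _ _)
    refine ⟨max n0 n1, A, ⟨hA, hA'.congr fun x hx => ?_⟩, h1⟩
    constructor
    · intro h3
      have h4 := (hA.or (hG _) hA').full (hG _) (fun y hy => by
        by_cases h5 : P ⟨y, hy⟩
        · exact Or.inl ((h1 ⟨y, hy⟩).1 h5)
        · exact Or.inr ((h2 ⟨y, hy⟩).1 h5)) x hx
      exact h4.resolve_left h3
    · intro h3 h4
      obtain ⟨y, hy, h5, h6⟩ := (hA.and (hG _) hA').elem (hG _) ⟨x, hx, h4, h3⟩
      exact ((h2 ⟨y, hy⟩).2 h6) ((h1 ⟨y, hy⟩).2 h5)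

end Pool.Agent.Lib.MP_82b75a_lc
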