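import Pool.Agent.Lib.MP_82b75a_lc.Base

/-!
# The calculus of relations that are Sigma-1 in an oracle
-/

namespace Pool.Agent.Lib.MP_82b75a_lc

open Classical Filter

theorem los_ex {S : NN → Prop} {Q : ℕ → ℕ → Prop}
    (h : ∀ f : ℕ → ℕ, S (f : NN) ↔ ∀ᶠ i in (UU : Filter ℕ), Q i (f i)) :
    (∃ y, S y) ↔ ∀ᶠ i in (UU : Filter ℕ), ∃ y, Q i y := by
  constructor
  · rintro ⟨y, hy⟩
    obtain ⟨y, rfl⟩ := ex_rep y
    exact ((h y).1 hy).mono fun i hi => ⟨_, hi⟩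
  · intro hy
    refine ⟨((fun i => if h : ∃ y, Q i y then h.choose else 0 : ℕ → ℕ) : NN), (h _).2 ?_⟩
    refine hy.mono fun i hi => ?_
    rw [dif_pos hi]
    exact hi.choose_spec

theorem los_all {S : NN → Prop} {Q : ℕ → ℕ → Prop}
    (h : ∀ f : ℕ → ℕ, S (f : NN) ↔ ∀ᶠ i in (UU : Filter ℕ), Q i (f i)) :
    (∀ y, S y) ↔ ∀ᶠ i in (UU : Filter ℕ), ∀ y, Q i y := by
  have h2 := los_ex (S := fun y => ¬ S y) (Q := fun i y => ¬ Q i y) (fun f => by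
    rw [h f, Ultrafilter.eventually_not])
  constructor
  · intro h3
    by_contra h4
    rw [← Ultrafilter.eventually_not] at h4
    have h5 : ∀ᶠ i in (UU : Filter ℕ), ∃ y, ¬ Q i y := h4.mono fun i hi => by
      push Not at hi; exact hi
    obtain ⟨y, hy⟩ := h2.2 h5
    exact hy (h3 y)
  · intro h3 y
    obtain ⟨y, rfl⟩ := ex_rep y
    exact (h y).2 (h3.mono fun i hi => hi _)

/-- `M` is a good model for the oracle `r` -/
structure Good (M : Set NN) (r : NN → NN) (τ : ℕ → ℕ) : Prop where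
  app_mem : ∀ f, Ar f → ∀ a ∈ M, app f a ∈ M
  pr_mem : ∀ a ∈ M, ∀ b ∈ M, pr a b ∈ M
  sub : M ⊆ HH
  sup : M0 ⊆ M
  ar : Ar τ
  coh : ∀ w ∈ HH, ∀ z ≤ w, r z = app τ (pr (r w) z)
  mem : ∀ z ∈ M, r z ∈ M
  bd : ∀ P, Df P → ∀ p ∈ M, ∀ t ∈ M, ∃ s ∈ M, ∀ x < t, ∀ w ∈ HH,
    T P (pr p (pr x (pr w (r w)))) → ∃ w' < s, T P (pr p (pr x (pr w' (r w'))))

variable {M : Set NN} {r : NN → NN} {τ : ℕ → ℕ}

theorem Good.rH (hG : Good M r τ) {z : NN} (hz : z ∈ HH) : r z ∈ HH := by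
  obtain ⟨s, hs, h⟩ := hz
  rw [hG.coh s (M0_sub_HH hs) z h]
  exact HH_app hG.ar (HH_pr (hG.sub (hG.mem s (hG.sup hs))) (HH_down (M0_sub_HH hs) h))

theorem Good.cof (hG : Good M r τ) {z : NN} (hz : z ∈ HH) : ∃ s ∈ M, z < s := by
  obtain ⟨s, hs, h⟩ := hz
  refine ⟨app (fun n => n + 1) s, hG.app_mem _ (Ar.id.add (Ar.const 1)) _ (hG.sup hs), ?_⟩
  refine lt_of_le_of_lt h ?_
  obtain ⟨s, rfl⟩ := ex_rep s
  rw [app_coe, Germ.coe_lt]
  exact Eventually.of_forall fun i => Nat.lt_succ_self _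

/-- functions definable with parameters -/
def Fn (M : Set NN) (f : NN → NN) : Prop := ∃ g, Ar g ∧ ∃ p ∈ M, ∀ x, f x = app g (pr p x)

theorem Fn.const {a : NN} (ha : a ∈ M) : Fn M (fun _ => a) :=
  ⟨_, Ar.fst', a, ha, fun x => (fs_pr a x).symm⟩

theorem Good.bbM (hG : Good M r τ) : bb ∈ M := hG.sup bb_mem

theorem Fn.id (hG : Good M r τ) : Fn M (fun x => x) :=
  ⟨_, Ar.snd', bb, hG.bbM, fun x => (sn_pr bb x).symm⟩

theorem Fn.app {g : ℕ → ℕ} (hg : Ar g) {f : NN → NN} (hf : Fn M f) :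
    Fn M (fun x => MP_82b75a_lc.app g (f x)) := by
  obtain ⟨h, hh, p, hp, h2⟩ := hf
  exact ⟨_, hg.comp hh, p, hp, fun x => by
    show MP_82b75a_lc.app g (f x) = _
    rw [h2]
    exact (app_comp g h _).symm⟩

theorem Fn.pr (hG : Good M r τ) {f g : NN → NN} (hf : Fn M f) (hg : Fn M g) :
    Fn M (fun x => pr (f x) (g x)) := by
  obtain ⟨f', hf', p, hp, h2⟩ := hf
  obtain ⟨g', hg', q, hq, h3⟩ := hg
  refine ⟨fun n => Nat.pair (f' (Nat.pair n.unpair.1.unpair.1 n.unpair.2))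
    (g' (Nat.pair n.unpair.1.unpair.2 n.unpair.2)), ?_, MP_82b75a_lc.pr p q, hG.pr_mem _ hp _ hq,
    fun x => ?_⟩
  · exact (hf'.comp (Ar.fst'.fst.pair Ar.snd')).pair (hg'.comp (Ar.fst'.snd.pair Ar.snd'))
  · show MP_82b75a_lc.pr (f x) (g x) = _
    rw [h2, h3]
    obtain ⟨p, rfl⟩ := ex_rep p
    obtain ⟨q, rfl⟩ := ex_rep q
    obtain ⟨x, rfl⟩ := ex_rep x
    simp only [pr_coe, app_coe, Nat.unpair_pair]

theorem Fn.fs {f : NN → NN} (hf : Fn M f) : Fn M (fun x => MP_82b75a_lc.fs (f x)) :=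
  hf.app Ar.fst'

theorem Fn.sn {f : NN → NN} (hf : Fn M f) : Fn M (fun x => MP_82b75a_lc.sn (f x)) :=
  hf.app Ar.snd'

theorem Fn.app2 (hG : Good M r τ) {F : ℕ → ℕ → ℕ} (hF : Ar (fun n => F n.unpair.1 n.unpair.2))
    {f g : NN → NN} (hf : Fn M f) (hg : Fn M g) :
    Fn M (fun x => MP_82b75a_lc.app (fun n => F n.unpair.1 n.unpair.2)
      (MP_82b75a_lc.pr (f x) (g x))) :=
  (Fn.pr hG hf hg).app hF

theorem Fn.comp {f g : NN → NN} (hG : Good M r τ) (hf : Fn M f) (hg : Fn M g) :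
    Fn M (fun x => f (g x)) := by
  obtain ⟨f', hf', p, hp, h2⟩ := hf
  have : (fun x => f (g x)) = fun x => MP_82b75a_lc.app f' (MP_82b75a_lc.pr p (g x)) :=
    funext fun x => h2 _
  rw [this]
  exact (Fn.pr hG (Fn.const hp) hg).app hf'

theorem Fn.memH (hG : Good M r τ) {f : NN → NN} (hf : Fn M f) {x : NN} (hx : x ∈ HH) :
    f x ∈ HH := by
  obtain ⟨f', hf', p, hp, h2⟩ := hf
  rw [h2]
  exact HH_app hf' (HH_pr (hG.sub hp) hx)

theorem Fn.memM (hG : Good M r τ) {f : NN → NN} (hf : Fn M f) {x : NN} (hx : x ∈ M) :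
    f x ∈ M := by
  obtain ⟨f', hf', p, hp, h2⟩ := hf
  rw [h2]
  exact hG.app_mem _ hf' _ (hG.pr_mem _ hp _ hx)

/-- Sigma-1 predicates in the oracle `r` with parameters from `M` -/
def Sg (M : Set NN) (r : NN → NN) (A : NN → Prop) : Prop :=
  ∃ P, Df P ∧ ∃ p ∈ M, ∀ x ∈ HH, (A x ↔ ∃ w ∈ HH, T P (pr p (pr x (pr w (r w)))))

theorem Sg.congr {A B : NN → Prop} (hA : Sg M r A) (h : ∀ x ∈ HH, (B x ↔ A x)) : Sg M r B := by
  obtain ⟨P, hP, p, hp, h2⟩ := hA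
  exact ⟨P, hP, p, hp, fun x hx => (h x hx).trans (h2 x hx)⟩

/-- relation with the oracle at a point -/
theorem Sg.base (hG : Good M r τ) {P : ℕ → Prop} (hP : Df P) {f g : NN → NN} (hf : Fn M f)
    (hg : Fn M g) : Sg M r (fun x => T P (pr (f x) (r (g x)))) := by
  obtain ⟨f', hf', p, hp, h2⟩ := hf
  have hgc := hg
  obtain ⟨g', hg', q, hq, h3⟩ := hg
  refine ⟨fun n => n.unpair.2.unpair.2.unpair.1 =
      g' (Nat.pair n.unpair.1.unpair.2 n.unpair.2.unpair.1) ∧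
      P (Nat.pair (f' (Nat.pair n.unpair.1.unpair.1 n.unpair.2.unpair.1))
        n.unpair.2.unpair.2.unpair.2), ?_, pr p q, hG.pr_mem _ hp _ hq, fun x hx => ?_⟩
  · refine (Df.eq Ar.snd'.snd.fst (hg'.comp (Ar.fst'.snd.pair Ar.snd'.fst))).and ?_
    exact hP.comp ((hf'.comp (Ar.fst'.fst.pair Ar.snd'.fst)).pair Ar.snd'.snd.snd)
  · have key : ∀ w : NN, T (fun n => n.unpair.2.unpair.2.unpair.1 =
      g' (Nat.pair n.unpair.1.unpair.2 n.unpair.2.unpair.1) ∧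
      P (Nat.pair (f' (Nat.pair n.unpair.1.unpair.1 n.unpair.2.unpair.1))
        n.unpair.2.unpair.2.unpair.2)) (pr (pr p q) (pr x (pr w (r w)))) ↔
        w = g x ∧ T P (pr (f x) (r w)) := by
      intro w
      rw [h2, h3]
      generalize r w = c
      obtain ⟨p, rfl⟩ := ex_rep p
      obtain ⟨q, rfl⟩ := ex_rep q
      obtain ⟨x, rfl⟩ := ex_rep x
      obtain ⟨w, rfl⟩ := ex_rep w
      obtain ⟨c, rfl⟩ := ex_rep c
      simp only [pr_coe, app_coe, T_coe, Nat.unpair_pair, eventually_and, coe_eq_coe]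
    constructor
    · intro h
      exact ⟨g x, hgc.memH hG hx, (key _).2 ⟨rfl, h⟩⟩
    · rintro ⟨w, hw, h⟩
      obtain ⟨rfl, h⟩ := (key _).1 h
      exact h

theorem Sg.int (hG : Good M r τ) {P : ℕ → Prop} (hP : Df P) {f : NN → NN} (hf : Fn M f) :
    Sg M r (fun x => T P (f x)) := by
  refine (Sg.base hG (hP.comp Ar.fst') hf (Fn.const hG.bbM)).congr fun x hx => ?_
  have := T_app P (fun n => n.unpair.1) (pr (f x) (r bb))
  rw [← this]
  show _ ↔ T P (fs (pr (f x) (r bb)))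
  rw [fs_pr]

/-- abbreviation: the matrix of a Sigma-1 relation -/
def Mx (r : NN → NN) (P : ℕ → Prop) (p x w : NN) : Prop := T P (pr p (pr x (pr w (r w))))

theorem Sg.mono (hG : Good M r τ) {A : NN → Prop} (hA : Sg M r A) :
    ∃ P, Df P ∧ ∃ p ∈ M, (∀ x ∈ HH, (A x ↔ ∃ w ∈ HH, Mx r P p x w)) ∧
      ∀ x, ∀ w' ∈ HH, ∀ w ≤ w', Mx r P p x w → Mx r P p x w' := by
  obtain ⟨P, hP, p, hp, h2⟩ := hA
  refine ⟨fun n => (∃ w < n.unpair.2.unpair.2.unpair.1 + 1,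
      P (Nat.pair n.unpair.1 (Nat.pair n.unpair.2.unpair.1
        (Nat.pair w (τ (Nat.pair n.unpair.2.unpair.2.unpair.2 w)))))),
      ?_, p, hp, ?_⟩
  · refine (Df.bex (P := fun n w => P (Nat.pair n.unpair.1
        (Nat.pair n.unpair.2.unpair.1 (Nat.pair w (τ (Nat.pair n.unpair.2.unpair.2.unpair.2 w))))))
        (Ar.snd'.snd.fst.add (Ar.const 1)) ?_)
    exact hP.comp (Ar.fst'.fst.pair (Ar.fst'.snd.fst.pair (Ar.snd'.pair
        (hG.ar.comp (Ar.fst'.snd.snd.snd.pair Ar.snd')))))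
  have key : ∀ x, ∀ w ∈ HH, (Mx r (fun n => (∃ w < n.unpair.2.unpair.2.unpair.1 + 1,
      P (Nat.pair n.unpair.1 (Nat.pair n.unpair.2.unpair.1
        (Nat.pair w (τ (Nat.pair n.unpair.2.unpair.2.unpair.2 w))))))) p x w ↔
        (∃ w', w' ≤ w ∧ T P (pr p (pr x (pr w' (r w')))))) := by
    intro x w hw
    have e1 : (∃ w', w' ≤ w ∧ T P (pr p (pr x (pr w' (r w'))))) ↔
        (∃ w', w' ≤ w ∧ T P (pr p (pr x (pr w' (app τ (pr (r w) w')))))) := by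
      apply exists_congr
      intro w'
      apply and_congr_right
      intro h
      rw [← hG.coh w hw w' h]
    rw [e1]
    unfold Mx
    generalize r w = c
    obtain ⟨p, rfl⟩ := ex_rep p
    obtain ⟨x, rfl⟩ := ex_rep x
    obtain ⟨w, rfl⟩ := ex_rep w
    obtain ⟨c, rfl⟩ := ex_rep c
    rw [los_ex (Q := fun i y => y ≤ w i ∧ P (Nat.pair (p i) (Nat.pair (x i)
          (Nat.pair y (τ (Nat.pair (c i) y))))))
          (fun f => by simp only [pr_coe, app_coe, T_coe, Germ.coe_le, eventually_and]; rfl)]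
    simp only [pr_coe, T_coe, Nat.unpair_pair, Nat.lt_succ_iff]
  constructor
  · intro x hx
    rw [h2 x hx]
    constructor
    · rintro ⟨w, hw, h⟩
      exact ⟨w, hw, (key x w hw).2 ⟨w, le_rfl, h⟩⟩
    · rintro ⟨w, hw, h⟩
      obtain ⟨w', h3, h4⟩ := (key x w hw).1 h
      exact ⟨w', HH_down hw h3, h4⟩
  · intro x w' hw' w hww' h
    obtain ⟨w1, h3, h4⟩ := (key x w (HH_down hw' hww')).1 h
    exact (key x w' hw').2 ⟨w1, h3.trans hww', h4⟩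

theorem HH_max {x y : NN} (hx : x ∈ HH) (hy : y ∈ HH) : max x y ∈ HH := by
  rcases le_total x y with h | h
  · rw [max_eq_right h]; exact hy
  · rw [max_eq_left h]; exact hx

theorem Sg.and (hG : Good M r τ) {A B : NN → Prop} (hA : Sg M r A) (hB : Sg M r B) :
    Sg M r (fun x => A x ∧ B x) := by
  obtain ⟨P, hP, p, hp, h2, h2'⟩ := hA.mono hG
  obtain ⟨Q, hQ, q, hq, h3, h3'⟩ := hB.mono hG
  refine ⟨fun n => P (Nat.pair n.unpair.1.unpair.1 n.unpair.2) ∧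
    Q (Nat.pair n.unpair.1.unpair.2 n.unpair.2), ?_, pr p q, hG.pr_mem _ hp _ hq, fun x hx => ?_⟩
  · exact (hP.comp (Ar.fst'.fst.pair Ar.snd')).and (hQ.comp (Ar.fst'.snd.pair Ar.snd'))
  · have key : ∀ w, (T (fun n => P (Nat.pair n.unpair.1.unpair.1 n.unpair.2) ∧
        Q (Nat.pair n.unpair.1.unpair.2 n.unpair.2)) (pr (pr p q) (pr x (pr w (r w)))) ↔
        Mx r P p x w ∧ Mx r Q q x w) := by
      intro w
      unfold Mx
      generalize r w = c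
      obtain ⟨p, rfl⟩ := ex_rep p
      obtain ⟨q, rfl⟩ := ex_rep q
      obtain ⟨x, rfl⟩ := ex_rep x
      obtain ⟨w, rfl⟩ := ex_rep w
      obtain ⟨c, rfl⟩ := ex_rep c
      simp only [pr_coe, T_coe, Nat.unpair_pair, eventually_and]
    show A x ∧ B x ↔ _
    rw [h2 x hx, h3 x hx]
    constructor
    · rintro ⟨⟨w1, hw1, h4⟩, ⟨w2, hw2, h5⟩⟩
      have hm := HH_max hw1 hw2
      exact ⟨max w1 w2, hm, (key _).2 ⟨h2' _ _ hm _ (le_max_left _ _) h4,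
        h3' _ _ hm _ (le_max_right _ _) h5⟩⟩
    · rintro ⟨w, hw, h⟩
      obtain ⟨h4, h5⟩ := (key w).1 h
      exact ⟨⟨w, hw, h4⟩, ⟨w, hw, h5⟩⟩

theorem Sg.or (hG : Good M r τ) {A B : NN → Prop} (hA : Sg M r A) (hB : Sg M r B) :
    Sg M r (fun x => A x ∨ B x) := by
  obtain ⟨P, hP, p, hp, h2⟩ := hA
  obtain ⟨Q, hQ, q, hq, h3⟩ := hB
  refine ⟨fun n => P (Nat.pair n.unpair.1.unpair.1 n.unpair.2) ∨
    Q (Nat.pair n.unpair.1.unpair.2 n.unpair.2), ?_, pr p q, hG.pr_mem _ hp _ hq, fun x hx => ?_⟩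
  · exact (hP.comp (Ar.fst'.fst.pair Ar.snd')).or (hQ.comp (Ar.fst'.snd.pair Ar.snd'))
  · have key : ∀ w, (T (fun n => P (Nat.pair n.unpair.1.unpair.1 n.unpair.2) ∨
        Q (Nat.pair n.unpair.1.unpair.2 n.unpair.2)) (pr (pr p q) (pr x (pr w (r w)))) ↔
        Mx r P p x w ∨ Mx r Q q x w) := by
      intro w
      unfold Mx
      generalize r w = c
      obtain ⟨p, rfl⟩ := ex_rep p
      obtain ⟨q, rfl⟩ := ex_rep q
      obtain ⟨x, rfl⟩ := ex_rep x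
      obtain ⟨w, rfl⟩ := ex_rep w
      obtain ⟨c, rfl⟩ := ex_rep c
      simp only [pr_coe, T_coe, Nat.unpair_pair, Ultrafilter.eventually_or]
    show A x ∨ B x ↔ _
    rw [h2 x hx, h3 x hx]
    constructor
    · rintro (⟨w1, hw1, h4⟩ | ⟨w2, hw2, h5⟩)
      · exact ⟨w1, hw1, (key _).2 (Or.inl h4)⟩
      · exact ⟨w2, hw2, (key _).2 (Or.inr h5)⟩
    · rintro ⟨w, hw, h⟩
      rcases (key w).1 h with h4 | h5
      · exact Or.inl ⟨w, hw, h4⟩
      · exact Or.inr ⟨w, hw, h5⟩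

/-- substitution -/
theorem Sg.sub (hG : Good M r τ) {A : NN → Prop} (hA : Sg M r A) {f : NN → NN} (hf : Fn M f) :
    Sg M r (fun x => A (f x)) := by
  obtain ⟨P, hP, p, hp, h2⟩ := hA
  have hfc := hf
  obtain ⟨g, hg, q, hq, h3⟩ := hf
  refine ⟨fun n => P (Nat.pair n.unpair.1.unpair.1
    (Nat.pair (g (Nat.pair n.unpair.1.unpair.2 n.unpair.2.unpair.1)) n.unpair.2.unpair.2)), ?_,
    pr p q, hG.pr_mem _ hp _ hq, fun x hx => ?_⟩
  · exact hP.comp (Ar.fst'.fst.pair ((hg.comp (Ar.fst'.snd.pair Ar.snd'.fst)).pair Ar.snd'.snd))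
  · show A (f x) ↔ _
    rw [h2 _ (hfc.memH hG hx)]
    apply exists_congr
    intro w
    apply and_congr_right
    intro _
    rw [h3]
    generalize r w = c
    obtain ⟨p, rfl⟩ := ex_rep p
    obtain ⟨q, rfl⟩ := ex_rep q
    obtain ⟨x, rfl⟩ := ex_rep x
    obtain ⟨w, rfl⟩ := ex_rep w
    obtain ⟨c, rfl⟩ := ex_rep c
    simp only [pr_coe, app_coe, T_coe, Nat.unpair_pair]

theorem Sg.ex (hG : Good M r τ) {A : NN → NN → Prop} (hA : Sg M r (fun a => A (fs a) (sn a))) :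
    Sg M r (fun x => ∃ y ∈ HH, A x y) := by
  obtain ⟨P, hP, p, hp, h2, h2'⟩ := hA.mono hG
  refine ⟨fun n => ∃ y < n.unpair.2.unpair.2.unpair.1 + 1,
    P (Nat.pair n.unpair.1 (Nat.pair (Nat.pair n.unpair.2.unpair.1 y) n.unpair.2.unpair.2)), ?_,
    p, hp, fun x hx => ?_⟩
  · refine Df.bex (P := fun n y => P (Nat.pair n.unpair.1 (Nat.pair
      (Nat.pair n.unpair.2.unpair.1 y) n.unpair.2.unpair.2))) (Ar.snd'.snd.fst.add (Ar.const 1)) ?_
    exact hP.comp (Ar.fst'.fst.pair ((Ar.fst'.snd.fst.pair Ar.snd').pair Ar.fst'.snd.snd))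
  · have key : ∀ w, (T (fun n => ∃ y < n.unpair.2.unpair.2.unpair.1 + 1,
        P (Nat.pair n.unpair.1 (Nat.pair (Nat.pair n.unpair.2.unpair.1 y) n.unpair.2.unpair.2)))
        (pr p (pr x (pr w (r w)))) ↔ ∃ y, y ≤ w ∧ Mx r P p (pr x y) w) := by
      intro w
      unfold Mx
      generalize r w = c
      obtain ⟨p, rfl⟩ := ex_rep p
      obtain ⟨x, rfl⟩ := ex_rep x
      obtain ⟨w, rfl⟩ := ex_rep w
      obtain ⟨c, rfl⟩ := ex_rep c
      rw [los_ex (Q := fun i y => y ≤ w i ∧ P (Nat.pair (p i) (Nat.pair (Nat.pair (x i) y)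
          (Nat.pair (w i) (c i)))))
          (fun f => by simp only [pr_coe, T_coe, Germ.coe_le, eventually_and]; rfl)]
      simp only [pr_coe, T_coe, Nat.unpair_pair, Nat.lt_succ_iff]
    show (∃ y ∈ HH, A x y) ↔ _
    constructor
    · rintro ⟨y, hy, h⟩
      have h4 := h2 (pr x y) (HH_pr hx hy)
      rw [fs_pr, sn_pr] at h4
      obtain ⟨w, hw, h5⟩ := h4.1 h
      have hm := HH_max hy hw
      exact ⟨_, hm, (key _).2 ⟨y, le_max_left _ _, h2' _ _ hm _ (le_max_right _ _) h5⟩⟩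
    · rintro ⟨w, hw, h⟩
      obtain ⟨y, h5, h6⟩ := (key w).1 h
      have hy := HH_down hw h5
      have h4 := h2 (pr x y) (HH_pr hx hy)
      rw [fs_pr, sn_pr] at h4
      exact ⟨y, hy, h4.2 ⟨w, hw, h6⟩⟩

/-- collection -/
theorem Good.coll (hG : Good M r τ) {P : ℕ → Prop} (hP : Df P) {p : NN} (hp : p ∈ M) {t : NN}
    (ht : t ∈ HH)
    (hmono : ∀ x, ∀ w' ∈ HH, ∀ w ≤ w', Mx r P p x w → Mx r P p x w') :
    ∃ s ∈ M, ∀ x ≤ t, (∃ w ∈ HH, Mx r P p x w) → Mx r P p x s := by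
  obtain ⟨t', ht', h1⟩ := hG.cof ht
  obtain ⟨s, hs, h2⟩ := hG.bd P hP p hp t' ht'
  refine ⟨s, hs, fun x hx => ?_⟩
  rintro ⟨w, hw, h⟩
  obtain ⟨w', h3, h4⟩ := h2 x (lt_of_le_of_lt hx h1) w hw h
  exact hmono x s (hG.sub hs) w' h3.le h4

theorem Sg.ball (hG : Good M r τ) {A : NN → NN → Prop} (hA : Sg M r (fun a => A (fs a) (sn a)))
    {f : NN → NN} (hf : Fn M f) :
    Sg M r (fun x => ∀ y < f x, A x y) := by
  obtain ⟨P, hP, p, hp, h2, h2'⟩ := hA.mono hG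
  have hfc := hf
  obtain ⟨g, hg, q, hq, h3⟩ := hf
  refine ⟨fun n => ∀ y < g (Nat.pair n.unpair.1.unpair.2 n.unpair.2.unpair.1),
    P (Nat.pair n.unpair.1.unpair.1 (Nat.pair (Nat.pair n.unpair.2.unpair.1 y)
      n.unpair.2.unpair.2)), ?_,
    pr p q, hG.pr_mem _ hp _ hq, fun x hx => ?_⟩
  · refine Df.ball (P := fun n y => P (Nat.pair n.unpair.1.unpair.1 (Nat.pair
      (Nat.pair n.unpair.2.unpair.1 y) n.unpair.2.unpair.2)))
      (hg.comp (Ar.fst'.snd.pair Ar.snd'.fst)) ?_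
    exact hP.comp (Ar.fst'.fst.fst.pair ((Ar.fst'.snd.fst.pair Ar.snd').pair Ar.fst'.snd.snd))
  · have key : ∀ w, (T (fun n => ∀ y < g (Nat.pair n.unpair.1.unpair.2 n.unpair.2.unpair.1),
        P (Nat.pair n.unpair.1.unpair.1 (Nat.pair (Nat.pair n.unpair.2.unpair.1 y)
        n.unpair.2.unpair.2)))
        (pr (pr p q) (pr x (pr w (r w)))) ↔ ∀ y, y < f x → Mx r P p (pr x y) w) := by
      intro w
      rw [h3]
      unfold Mx
      generalize r w = c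
      obtain ⟨p, rfl⟩ := ex_rep p
      obtain ⟨q, rfl⟩ := ex_rep q
      obtain ⟨x, rfl⟩ := ex_rep x
      obtain ⟨w, rfl⟩ := ex_rep w
      obtain ⟨c, rfl⟩ := ex_rep c
      rw [los_all (Q := fun i y => y < g (Nat.pair (q i) (x i)) →
          P (Nat.pair (p i) (Nat.pair (Nat.pair (x i) y) (Nat.pair (w i) (c i)))))
          (fun f => by
            simp only [pr_coe, app_coe, T_coe, Germ.coe_lt, Ultrafilter.eventually_imp])]
      simp only [pr_coe, T_coe, Nat.unpair_pair]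
    show (∀ y < f x, A x y) ↔ _
    have hfx := hfc.memH hG hx
    have h4 : ∀ y < f x, (A x y ↔ ∃ w ∈ HH, Mx r P p (pr x y) w) := by
      intro y hy
      have h5 := h2 (pr x y) (HH_pr hx (HH_down hfx hy.le))
      rwa [fs_pr, sn_pr] at h5
    constructor
    · intro h
      obtain ⟨s, hs, h5⟩ := hG.coll hP hp (HH_pr hx hfx) h2'
      refine ⟨s, hG.sub hs, (key s).2 fun y hy => ?_⟩
      exact h5 _ (pr_le_pr le_rfl hy.le) ((h4 y hy).1 (h y hy))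
    · rintro ⟨w, hw, h⟩ y hy
      exact (h4 y hy).2 ⟨w, hw, (key w).1 h y hy⟩

/-- transfer of search to the model -/
theorem Good.search (hG : Good M r τ) {P : ℕ → Prop} (hP : Df P) {p : NN} (hp : p ∈ M)
    (h : ∃ y : NN, T P (pr p y)) : ∃ y ∈ M, T P (pr p y) ∧ ∀ z, T P (pr p z) → y ≤ z := by
  obtain ⟨g, hg, h2⟩ := Ar.mu (P := fun n y => P (Nat.pair n y))
    (hP.comp (Ar.fst'.pair Ar.snd'))
  refine ⟨app g p, hG.app_mem _ hg _ hp, ?_, ?_⟩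
  · obtain ⟨y, hy⟩ := h
    obtain ⟨p, rfl⟩ := ex_rep p
    obtain ⟨y, rfl⟩ := ex_rep y
    rw [pr_coe, T_coe] at hy
    rw [app_coe, pr_coe, T_coe]
    exact hy.mono fun i hi => (h2 _ ⟨_, hi⟩).1
  · intro z hz
    obtain ⟨p, rfl⟩ := ex_rep p
    obtain ⟨z, rfl⟩ := ex_rep z
    rw [pr_coe, T_coe] at hz
    rw [app_coe, Germ.coe_le]
    exact hz.mono fun i hi => (h2 _ ⟨_, hi⟩).2 _ hi

/-- elementarity -/
theorem Sg.elem (hG : Good M r τ) {A : NN → Prop} (hA : Sg M r A) (h : ∃ x ∈ HH, A x) :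
    ∃ x ∈ M, A x := by
  obtain ⟨P, hP, p, hp, h2⟩ := hA
  obtain ⟨x, hx, hAx⟩ := h
  obtain ⟨w, hw, hw2⟩ := (h2 x hx).1 hAx
  obtain ⟨s, hs, hxs⟩ := hG.cof (HH_max hx hw)
  have hs' := hG.sub hs
  -- internal statement about (p, (s, r s))
  have hD : Df (fun n => P (Nat.pair n.unpair.1.unpair.1 (Nat.pair n.unpair.2.unpair.1
      (Nat.pair n.unpair.2.unpair.2 (τ (Nat.pair n.unpair.1.unpair.2.unpair.2
        n.unpair.2.unpair.2))))) ∧ n.unpair.2.unpair.1 < n.unpair.1.unpair.2.unpair.1 ∧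
        n.unpair.2.unpair.2 < n.unpair.1.unpair.2.unpair.1) :=
    (hP.comp (Ar.fst'.fst.pair (Ar.snd'.fst.pair (Ar.snd'.snd.pair (hG.ar.comp
      (Ar.fst'.snd.snd.pair Ar.snd'.snd)))))).and
      ((Df.lt Ar.snd'.fst Ar.fst'.snd.fst).and (Df.lt Ar.snd'.snd Ar.fst'.snd.fst))
  have key : ∀ y : NN, T (fun n => P (Nat.pair n.unpair.1.unpair.1 (Nat.pair n.unpair.2.unpair.1
      (Nat.pair n.unpair.2.unpair.2 (τ (Nat.pair n.unpair.1.unpair.2.unpair.2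
        n.unpair.2.unpair.2))))) ∧ n.unpair.2.unpair.1 < n.unpair.1.unpair.2.unpair.1 ∧
        n.unpair.2.unpair.2 < n.unpair.1.unpair.2.unpair.1) (pr (pr p (pr s (r s))) y) ↔
        T P (pr p (pr (fs y) (pr (sn y) (app τ (pr (r s) (sn y)))))) ∧ fs y < s ∧ sn y < s := by
    intro y
    generalize r s = c
    obtain ⟨p, rfl⟩ := ex_rep p
    obtain ⟨s, rfl⟩ := ex_rep s
    obtain ⟨c, rfl⟩ := ex_rep c
    obtain ⟨y, rfl⟩ := ex_rep y
    simp only [fs, sn, pr_coe, app_coe, T_coe, Nat.unpair_pair, Germ.coe_lt, eventually_and]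
  have h3 : T P (pr p (pr x (pr w (app τ (pr (r s) w))))) := by
    rw [← hG.coh s hs' w ((le_max_right x w).trans hxs.le)]
    exact hw2
  obtain ⟨y, hyM, hy, -⟩ := hG.search hD (hG.pr_mem _ hp _ (hG.pr_mem _ hs _ (hG.mem _ hs)))
    ⟨pr x w, (key _).2 (by
      rw [fs_pr, sn_pr]
      exact ⟨h3, lt_of_le_of_lt (le_max_left _ _) hxs, lt_of_le_of_lt (le_max_right _ _) hxs⟩)⟩
  obtain ⟨h4, h5, h6⟩ := (key y).1 hy
  have h7 : fs y ∈ M := hG.app_mem _ Ar.fst' _ hyM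
  rw [← hG.coh s hs' _ h6.le] at h4
  exact ⟨fs y, h7, (h2 _ (hG.sub h7)).2 ⟨sn y, HH_sn (hG.sub hyM), h4⟩⟩

end Pool.Agent.Lib.MP_82b75a_lc
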