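import Pool.Agent.Lib.MP_82b75a_lc.Init

/-!
# States and the step lemma
-/

namespace Pool.Agent.Lib.MP_82b75a_lc

open Classical Filter

/-- the scattered function -/
noncomputable def RR : NN → NN := exists_scattered.choose_spec.choose_spec.choose

theorem exists_RR : ∃ (r : NN → NN) (τ : ℕ → ℕ), Good M0 r τ ∧ Rdf r RR ∧ Scat M0 RR :=
  ⟨_, _, exists_scattered.choose_spec.choose_spec.choose_spec⟩

/-- a stage of the construction -/
structure State where
  M : Set NN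
  r : NN → NN
  τ : ℕ → ℕ
  Γ : Set Gap
  good : Good M r τ
  cM : M.Countable
  cΓ : Γ.Countable
  ok : ∀ G ∈ Γ, GapOK M r G
  rdf : Rdf r RR
  scat : Scat M RR

/-- order on stages -/
structure State.LE (s t : State) : Prop where
  M : s.M ⊆ t.M
  r : Red s.r t.r
  Γ : s.Γ ⊆ t.Γ

theorem State.LE.refl (s : State) : s.LE s := ⟨Set.Subset.rfl, Red.refl _, Set.Subset.rfl⟩

theorem State.LE.trans {s t u : State} (h1 : s.LE t) (h2 : t.LE u) : s.LE u :=
  ⟨h1.M.trans h2.M, h1.r.trans h2.r, h1.Γ.trans h2.Γ⟩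

theorem exists_state : Nonempty State := by
  obtain ⟨r, τ, h1, h2, h3⟩ := exists_RR
  exact ⟨⟨M0, r, τ, ∅, h1, M0_countable, Set.countable_empty, fun G hG => absurd hG (by simp),
    h2, h3⟩⟩

/-- extension of a state by a new element -/
theorem State.grow (s : State) : ∃ t : State, s.LE t ∧ ∃ i ∈ t.M, i < kk ∧
    ∀ D, Df D → ∀ d ∈ s.M, Sm D d → ¬ T D (pr d i) := by
  obtain ⟨i, hik, h1, h2⟩ := exists_new s.good s.cM s.Γ s.cΓ s.ok
  have hiH : i ∈ HH := HH_down (M0_sub_HH kk_mem) hik.le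
  refine ⟨⟨adj s.M i, s.r, s.τ, s.Γ, s.good.adj hiH, adj_countable s.cM i, s.cΓ, ?_, s.rdf,
    s.scat.adj hik⟩, ⟨sub_adj _ _, Red.refl _, Set.Subset.rfl⟩, i, mem_adj s.good i, hik, h1⟩
  intro G hG
  refine (s.ok G hG).up (sub_adj _ _) (Red.refl _) ?_
  rintro x ⟨f, hf, m, hm, rfl⟩
  exact h2 G hG f hf m hm

section cads

variable {M : Set NN} {r : NN → NN} {τ : ℕ → ℕ}

/-- data of an unbounded linear order in the model -/
structure LinM (M : Set NN) (r : NN → NN) (X : NN → Prop) (L : NN → NN → Prop) : Prop where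
  dX : Dl M r X
  dL : Dl M r (fun a => L (fs a) (sn a))
  unb : Unb M X
  anti : ∀ x ∈ M, ∀ y ∈ M, X x → X y → L x y → L y x → x = y
  trans : ∀ x ∈ M, ∀ y ∈ M, ∀ z ∈ M, X x → X y → X z → L x y → L y z → L x z
  total : ∀ x ∈ M, ∀ y ∈ M, X x → X y → L x y ∨ L y x

theorem LinM.antiH (hG : Good M r τ) {X : NN → Prop} {L : NN → NN → Prop} (h : LinM M r X L) :
    ∀ x ∈ HH, ∀ y ∈ HH, X x → X y → L x y → L y x → x = y := by
  intro x hx y hy h1 h2 h3 h4
  by_contra h5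
  have hid := Fn.id hG
  have hL' : Dl M r (fun a => L (sn a) (fs a)) := by
    have := h.dL.sub hG (Fn.pr hG hid.sn hid.fs)
    simpa only [fs_pr, sn_pr] using this
  have hS := (h.dX.sub hG hid.fs).pos.and hG ((h.dX.sub hG hid.sn).pos.and hG
    (h.dL.pos.and hG (hL'.pos.and hG (Dl.eq hG hid.fs hid.sn).neg)))
  obtain ⟨a, haM, h6, h7, h8, h9, h10⟩ := hS.elem hG ⟨pr x y, HH_pr hx hy, by
    simp only [fs_pr, sn_pr]; exact ⟨h1, h2, h3, h4, h5⟩⟩
  exact h10 (h.anti _ (hid.fs.memM hG haM) _ (hid.sn.memM hG haM) h6 h7 h8 h9)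

theorem LinM.transH (hG : Good M r τ) {X : NN → Prop} {L : NN → NN → Prop} (h : LinM M r X L) :
    ∀ x ∈ HH, ∀ y ∈ HH, ∀ z ∈ HH, X x → X y → X z → L x y → L y z → L x z := by
  intro x hx y hy z hz h1 h2 h3 h4 h5
  by_contra h6
  have hid := Fn.id hG
  -- triples (x, (y, z))
  have l1 : Dl M r (fun a => L (fs a) (fs (sn a))) := by
    have := h.dL.sub hG (Fn.pr hG hid.fs hid.sn.fs)
    simpa only [fs_pr, sn_pr] using this
  have l2 : Dl M r (fun a => L (fs (sn a)) (sn (sn a))) := by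
    have := h.dL.sub hG (Fn.pr hG hid.sn.fs hid.sn.sn)
    simpa only [fs_pr, sn_pr] using this
  have l3 : Dl M r (fun a => L (fs a) (sn (sn a))) := by
    have := h.dL.sub hG (Fn.pr hG hid.fs hid.sn.sn)
    simpa only [fs_pr, sn_pr] using this
  have hS := (h.dX.sub hG hid.fs).pos.and hG ((h.dX.sub hG hid.sn.fs).pos.and hG
    ((h.dX.sub hG hid.sn.sn).pos.and hG (l1.pos.and hG (l2.pos.and hG l3.neg))))
  obtain ⟨a, haM, h7, h8, h9, h10, h11, h12⟩ := hS.elem hG ⟨pr x (pr y z), HH_pr hx (HH_pr hy hz),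
    by simp only [fs_pr, sn_pr]; exact ⟨h1, h2, h3, h4, h5, h6⟩⟩
  exact h12 (h.trans _ (hid.fs.memM hG haM) _ (hid.sn.fs.memM hG haM) _ (hid.sn.sn.memM hG haM)
    h7 h8 h9 h10 h11)

theorem LinM.totalH (hG : Good M r τ) {X : NN → Prop} {L : NN → NN → Prop} (h : LinM M r X L) :
    ∀ x ∈ HH, ∀ y ∈ HH, X x → X y → L x y ∨ L y x := by
  intro x hx y hy h1 h2
  by_contra h5
  push Not at h5
  have hid := Fn.id hG
  have hL' : Dl M r (fun a => L (sn a) (fs a)) := by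
    have := h.dL.sub hG (Fn.pr hG hid.sn hid.fs)
    simpa only [fs_pr, sn_pr] using this
  have hS := (h.dX.sub hG hid.fs).pos.and hG ((h.dX.sub hG hid.sn).pos.and hG
    (h.dL.neg.and hG hL'.neg))
  obtain ⟨a, haM, h6, h7, h8, h9⟩ := hS.elem hG ⟨pr x y, HH_pr hx hy, by
    simp only [fs_pr, sn_pr]; exact ⟨h1, h2, h5.1, h5.2⟩⟩
  rcases h.total _ (hid.fs.memM hG haM) _ (hid.sn.memM hG haM) h6 h7 with h10 | h10
  · exact h8 h10
  · exact h9 h10

/-- the associated total preorder -/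
def leX (X : NN → Prop) (L : NN → NN → Prop) (x y : NN) : Prop := ¬ X x ∨ (X y ∧ L x y)

theorem leX_dl (hG : Good M r τ) {X : NN → Prop} {L : NN → NN → Prop} (h : LinM M r X L) :
    Dl M r (fun a => leX X L (fs a) (sn a)) := by
  have hid := Fn.id hG
  exact (h.dX.sub hG hid.fs).not.or hG ((h.dX.sub hG hid.sn).and hG h.dL)

theorem leX_total (hG : Good M r τ) {X : NN → Prop} {L : NN → NN → Prop} (h : LinM M r X L) :
    ∀ x ∈ HH, ∀ y ∈ HH, leX X L x y ∨ leX X L y x := by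
  intro x hx y hy
  by_cases h1 : X x
  · by_cases h2 : X y
    · rcases h.totalH hG x hx y hy h1 h2 with h3 | h3
      · exact Or.inl (Or.inr ⟨h2, h3⟩)
      · exact Or.inr (Or.inr ⟨h1, h3⟩)
    · exact Or.inr (Or.inl h2)
  · exact Or.inl (Or.inl h1)

theorem leX_trans (hG : Good M r τ) {X : NN → Prop} {L : NN → NN → Prop} (h : LinM M r X L) :
    ∀ x ∈ HH, ∀ y ∈ HH, ∀ z ∈ HH, leX X L x y → leX X L y z → leX X L x z := by
  intro x hx y hy z hz h1 h2
  by_cases h3 : X x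
  · rcases h1 with h1 | ⟨h4, h5⟩
    · exact absurd h3 h1
    · rcases h2 with h2 | ⟨h6, h7⟩
      · exact absurd h4 h2
      · exact Or.inr ⟨h6, h.transH hG x hx y hy z hz h3 h4 h6 h5 h7⟩
  · exact Or.inl h3

/-- properties of the intervals -/
structure IntOK (M : Set NN) (r : NN → NN) (X : NN → Prop) (L : NN → NN → Prop)
    (J : NN → Prop) : Prop where
  dl : Dl M r J
  sub : ∀ y, J y → X y
  unb : Unb M J
  conv : ∀ x ∈ HH, ∀ y ∈ HH, ∀ z ∈ HH, leX X L x y → leX X L y z → J x → J z → J y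

theorem max_memM {a b : NN} (ha : a ∈ M) (hb : b ∈ M) : max a b ∈ M := by
  rcases le_total a b with h | h
  · rw [max_eq_right h]; exact hb
  · rw [max_eq_left h]; exact ha

theorem half (hG : Good M r τ) {X : NN → Prop} {L : NN → NN → Prop} (h : LinM M r X L)
    {J : NN → Prop} (hJ : IntOK M r X L J) {x : NN} (hx : x ∈ M) :
    ∃ J', IntOK M r X L J' ∧ (∀ y, J' y → J y) ∧ ¬ J' x := by
  by_cases hJx : J x
  swap
  · exact ⟨J, hJ, fun y hy => hy, hJx⟩
  have hid := Fn.id hG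
  have hxX := hJ.sub x hJx
  have hxH := hG.sub hx
  have hle := leX_dl hG h
  have hlo : Dl M r (fun y => J y ∧ leX X L y x ∧ ¬ y = x) := by
    have h1 := hle.sub hG (Fn.pr hG hid (Fn.const hx))
    simp only [fs_pr, sn_pr] at h1
    exact hJ.dl.and hG (h1.and hG (Dl.eq hG hid (Fn.const hx)).not)
  have hhi : Dl M r (fun y => J y ∧ leX X L x y ∧ ¬ y = x) := by
    have h1 := hle.sub hG (Fn.pr hG (Fn.const hx) hid)
    simp only [fs_pr, sn_pr] at h1
    exact hJ.dl.and hG (h1.and hG (Dl.eq hG hid (Fn.const hx)).not)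
  by_cases hu : Unb M (fun y => J y ∧ leX X L y x ∧ ¬ y = x)
  · refine ⟨_, ⟨hlo, fun y hy => hJ.sub y hy.1, hu, ?_⟩, fun y hy => hy.1, fun h1 => h1.2.2 rfl⟩
    rintro a ha y hy z hz h1 h2 ⟨h3, h4, h5⟩ ⟨h6, h7, h8⟩
    have hJy := hJ.conv a ha y hy z hz h1 h2 h3 h6
    refine ⟨hJy, leX_trans hG h y hy z hz x hxH h2 h7, ?_⟩
    rintro rfl
    rcases h2 with h2 | h2
    · exact h2 hxX
    · rcases h7 with h7 | h7
      · exact h7 h2.1
      · exact h8 (h.antiH hG z hz y hy h2.1 hxX h7.2 h2.2)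
  · refine ⟨_, ⟨hhi, fun y hy => hJ.sub y hy.1, ?_, ?_⟩, fun y hy => hy.1, fun h1 => h1.2.2 rfl⟩
    · unfold Unb at hu
      push Not at hu
      obtain ⟨s1, hs1, hu⟩ := hu
      intro s hs
      have hx1 : x + 1 ∈ M := hG.add_mem hx (hG.sup one_mem_M0)
      obtain ⟨y, hy, h1, h2⟩ := hJ.unb _ (max_memM (max_memM hs hs1) hx1)
      have h3 : s ≤ y := (le_max_left _ _).trans ((le_max_left _ _).trans h1)
      have h4 : s1 ≤ y := (le_max_right _ _).trans ((le_max_left _ _).trans h1)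
      have h5 : x + 1 ≤ y := (le_max_right _ _).trans h1
      have h6 : ¬ y = x := by
        rintro rfl
        exact absurd h5 (not_le.2 ((lt_add_one_iff_NN _ _).2 le_rfl))
      refine ⟨y, hy, h3, h2, ?_, h6⟩
      rcases leX_total hG h x hxH y hy with h7 | h7
      · exact h7
      · exact absurd (hu y hy h4 h2 h7) h6
    · rintro a ha y hy z hz h1 h2 ⟨h3, h4, h5⟩ ⟨h6, h7, h8⟩
      have hJy := hJ.conv a ha y hy z hz h1 h2 h3 h6
      refine ⟨hJy, leX_trans hG h x hxH a ha y hy h4 h1, ?_⟩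
      rintro rfl
      rcases h1 with h1 | h1
      · exact h1 (hJ.sub a h3)
      · rcases h4 with h4 | h4
        · exact h4 hxX
        · exact h5 (h.antiH hG a ha y hy (hJ.sub a h3) hxX h1.2 h4.2)

/-- the sequence of intervals -/
theorem exists_intervals (hG : Good M r τ) (hcM : M.Countable) {X : NN → Prop}
    {L : NN → NN → Prop} (h : LinM M r X L) :
    ∃ I : ℕ → NN → Prop, (∀ n, IntOK M r X L (I n)) ∧ (∀ n y, I (n + 1) y → I n y) ∧
      ∀ x ∈ M, ∃ n, ¬ I n x := by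
  have : Countable M := hcM.to_subtype
  have : Nonempty M := ⟨⟨bb, hG.bbM⟩⟩
  obtain ⟨e, he⟩ := exists_surjective_nat M
  have hstep : ∀ (n : ℕ) (J : {J : NN → Prop // IntOK M r X L J}),
      ∃ J' : {J : NN → Prop // IntOK M r X L J}, (∀ y, J'.1 y → J.1 y) ∧ ¬ J'.1 (e n) := by
    intro n J
    obtain ⟨J', h1, h2, h3⟩ := half hG h J.2 (e n).2
    exact ⟨⟨J', h1⟩, h2, h3⟩
  choose nx hnx1 hnx2 using hstep
  have h0 : IntOK M r X L X := ⟨h.dX, fun y hy => hy, h.unb, fun a _ y _ z _ h1 h2 h3 _ => by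
    rcases h1 with h1 | h1
    · exact absurd h3 h1
    · exact h1.1⟩
  let I : ℕ → {J : NN → Prop // IntOK M r X L J} := fun n =>
    Nat.rec ⟨X, h0⟩ (fun n J => nx n J) n
  refine ⟨fun n => (I n).1, fun n => (I n).2, fun n y hy => hnx1 n (I n) y hy, ?_⟩
  intro x hx
  obtain ⟨n, hn⟩ := he ⟨x, hx⟩
  have h1 := hnx2 n (I n)
  rw [hn] at h1
  exact ⟨n + 1, h1⟩

theorem one_lt_two_NN : (1 : NN) < ((fun _ => 2 : ℕ → ℕ) : NN) := by
  show ((fun _ => 1 : ℕ → ℕ) : NN) < _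
  rw [Germ.coe_lt]
  exact Eventually.of_forall fun _ => by norm_num

theorem zero_lt_two_NN : (0 : NN) < ((fun _ => 2 : ℕ → ℕ) : NN) := by
  show ((fun _ => 0 : ℕ → ℕ) : NN) < _
  rw [Germ.coe_lt]
  exact Eventually.of_forall fun _ => by norm_num

theorem one_ne_zero_NN : (1 : NN) ≠ 0 := by
  intro h
  have h2 : ∀ᶠ i in (UU : Filter ℕ), (1 : ℕ) = 0 := coe_eq_coe (f := fun _ => 1)
    (g := fun _ => 0) |>.1 h
  obtain ⟨_, h3⟩ := h2.exists
  exact absurd h3 (by norm_num)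

/-- forcing a suborder -/
theorem exists_suborder (hG : Good M r τ) (hcM : M.Countable) {X : NN → Prop}
    {L : NN → NN → Prop} (h : LinM M r X L) :
    ∃ (F : NN → NN) (g : NN → NN) (I : ℕ → NN → Prop),
      Good M (fun z => pr (r z) (F z)) (tauX τ) ∧ Rdf (fun z => pr (r z) (F z)) g ∧
      (∀ n, IntOK M r X L (I n)) ∧ (∀ x ∈ M, ∃ n, ¬ I n x) ∧
      (∀ y ∈ HH, g y = 1 → X y) ∧ Unb M (fun y => g y = 1) ∧
      (∀ n, ∃ s ∈ M, ∀ y ∈ HH, s ≤ y → g y = 1 → I n y) := by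
  obtain ⟨I, hI, hanti, hunf⟩ := exists_intervals hG hcM h
  have hid := Fn.id hG
  have h0M : (0 : NN) ∈ M := hG.sup zero_mem_M0
  have h1M : (1 : NN) ∈ M := hG.sup one_mem_M0
  let Q : ℕ → NN → NN → Prop := fun n y v => v = 0 ∨ (v = 1 ∧ I n y)
  have hQ : ∀ n, Sg M r (fun a => Q n (fs a) (sn a)) := fun n =>
    (Dl.eq hG hid.sn (Fn.const h0M)).pos.or hG ((Dl.eq hG hid.sn (Fn.const h1M)).pos.and hG
      ((hI n).dl.pos.sub hG hid.fs))
  have h2M : ((fun _ => 2 : ℕ → ℕ) : NN) ∈ M := hG.sup (const_mem_M0 2)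
  obtain ⟨g, F, s, -, hF, hG', hs0, hs, hinf⟩ := force hG hcM h2M Q hQ
    (fun n y v hv => hv.imp id (fun h1 => ⟨h1.1, hanti n y h1.2⟩))
    (fun n y _ => ⟨0, zero_lt_two_NN, Or.inl rfl⟩)
  have hQg : ∀ n, ∀ y ∈ HH, s n ≤ y → g y = 1 → I n y := by
    intro n y hy hsy hg
    rcases (hs n).2 y hy hsy with h1 | h1
    · rw [hg] at h1
      exact absurd h1 one_ne_zero_NN
    · exact h1.2
  refine ⟨F, g, I, hG', ?_, hI, hunf, ?_, ?_, fun n => ⟨s n, (hs n).1, hQg n⟩⟩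
  · refine ⟨fun n => get n.unpair.1.unpair.2 n.unpair.2, Ar.get Ar.fst'.snd Ar.snd',
      fun y _ z hz hyz => ?_⟩
    rw [← hF z hz y hyz]
    show gt (F z) y = app (fun n => get n.unpair.1.unpair.2 n.unpair.2) (pr (pr (r z) (F z)) y)
    generalize F z = c
    generalize r z = u
    obtain ⟨u, rfl⟩ := ex_rep u
    obtain ⟨c, rfl⟩ := ex_rep c
    obtain ⟨y, rfl⟩ := ex_rep y
    simp only [pr_coe, app_coe, gt_coe, Nat.unpair_pair]
  · intro y hy hg
    exact (hI 0).sub y (hQg 0 y hy (by rw [hs0]; exact zero_le_NN y) hg)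
  · intro t ht
    exact hinf (fun n t ht => by
      obtain ⟨y, hy, h1, h2⟩ := (hI n).unb t ht
      exact ⟨y, hy, h1, Or.inr ⟨rfl, h2⟩⟩) one_lt_two_NN t ht

end cads

/-- what the step does for a linear order -/
def Served (s t : State) (X : NN → Prop) (L : NN → NN → Prop) : Prop :=
  ∃ (Z : NN → Prop) (I : ℕ → NN → Prop), Dl t.M t.r Z ∧ (⟨leX X L, I⟩ : Gap) ∈ t.Γ ∧
    (∀ n, IntOK s.M s.r X L (I n)) ∧ (∀ y ∈ HH, Z y → X y) ∧ Unb s.M Z ∧
    (∀ n, ∃ m ∈ s.M, ∀ y ∈ HH, m ≤ y → Z y → I n y)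

theorem State.step (s : State) (X : NN → Prop) (L : NN → NN → Prop) :
    ∃ t : State, s.LE t ∧ (LinM s.M s.r X L → Served s t X L) ∧ ∃ i ∈ t.M, i < kk ∧
      ∀ D, Df D → ∀ d ∈ s.M, Sm D d → ¬ T D (pr d i) := by
  by_cases h : LinM s.M s.r X L
  · obtain ⟨F, g, I, hG', hg, hI, hunf, h1, h2, h3⟩ := exists_suborder s.good s.cM h
    let u : State := ⟨s.M, fun z => pr (s.r z) (F z), tauX s.τ, s.Γ ∪ {⟨leX X L, I⟩}, hG', s.cM,
      s.cΓ.union (Set.countable_singleton _), by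
        intro G hG
        rcases hG with hG | hG
        · exact (s.ok G hG).up Set.Subset.rfl (Red.pair _ _) (s.ok G hG).unf
        · rw [Set.mem_singleton_iff] at hG
          subst hG
          exact ⟨(leX_dl s.good h).up Set.Subset.rfl (Red.pair _ _), leX_total s.good h,
            leX_trans s.good h, fun n => (hI n).conv, hunf⟩,
      s.rdf.up (Red.pair _ _), s.scat⟩
    obtain ⟨t, hut, i, hi, hik, hiD⟩ := u.grow
    have hsu : s.LE u := ⟨Set.Subset.rfl, Red.pair _ _, Set.subset_union_left⟩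
    refine ⟨t, hsu.trans hut, fun _ => ⟨fun y => g y = 1, I, ?_, ?_, hI, h1, h2, h3⟩,
      i, hi, hik, hiD⟩
    · have hid := Fn.id t.good
      have hP : Df (fun n => n.unpair.2 = 1) := Df.eq Ar.snd' (Ar.const 1)
      refine (Dl.rdf t.good (hg.up hut.r) hP hid hid).congr fun x _ => ?_
      generalize g x = v
      obtain ⟨v, rfl⟩ := ex_rep v
      obtain ⟨x, rfl⟩ := ex_rep x
      have e1 : ((v : NN) = 1) ↔ ∀ᶠ i in (UU : Filter ℕ), v i = 1 := coe_eq_coe (g := fun _ => 1)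
      rw [e1]
      simp only [pr_coe, T_coe, Nat.unpair_pair]
    · exact hut.Γ (Set.mem_union_right _ rfl)
  · obtain ⟨t, hst, i, hi, hik, hiD⟩ := s.grow
    exact ⟨t, hst, fun h' => absurd h' h, i, hi, hik, hiD⟩

end Pool.Agent.Lib.MP_82b75a_lc
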